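import Pool.Agent.Y883.T4.Main
import Pool.Agent.Y883.T3.Mom

set_option autoImplicit false

/-! Goldbach representations of the even integers in all residue classes to large moduli. -/

namespace Pool.Agent.Y883.T4

open Finset
open Pool.Agent.H373R2.T7 (fz lamI lamzI lamz ev_L')
open Pool.Agent.W93.GB (Good good_of)
open Pool.Agent.Y883.T3

open Classical in
/-- the even integers `n ≤ N`, `n ≡ a (mod q)`, which are not good -/
noncomputable def badc (P : ℕ → Prop) (N q a : ℕ) : Finset ℕ :=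
  (Icc 1 N).filter (fun n => 2 ∣ n ∧ n % q = a % q ∧ ¬ P n)

/-- the members of a residue class up to a bound -/
lemma class_le (N q a : ℕ) (hq : 1 ≤ q) (S : Finset ℕ) (Y : ℝ) (hY : 0 ≤ Y)
    (hS : ∀ n ∈ S, n % q = a % q ∧ (n : ℝ) ≤ Y) : (S.card : ℝ) ≤ Y / q + 1 := by
  classical
  have hq0 : (0 : ℝ) < q := by exact_mod_cast hq
  have h1 : S.card ≤ (range (⌊Y / q⌋₊ + 1)).card := by
    apply card_le_card_of_injOn (fun n => n / q)
    · intro n hn
      have h2 := hS n (mem_coe.1 hn)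
      rw [mem_coe, mem_range, Nat.lt_succ_iff]
      apply Nat.le_floor
      refine (Nat.cast_div_le).trans ?_
      exact div_le_div_of_nonneg_right h2.2 hq0.le
    · intro n hn n' hn' h
      have h2 := hS n (mem_coe.1 hn)
      have h3 := hS n' (mem_coe.1 hn')
      simp only at h
      rw [← Nat.mod_add_div n q, ← Nat.mod_add_div n' q, h, h2.1, h3.1]
  rw [card_range] at h1
  have h2 : (S.card : ℝ) ≤ ((⌊Y / q⌋₊ + 1 : ℕ) : ℝ) := by exact_mod_cast h1
  refine h2.trans ?_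
  push_cast
  have := Nat.floor_le (show 0 ≤ Y / q by positivity)
  linarith

/-- a residue class with many exceptional integers gives a large sum -/
theorem gold_bad (ε : ℝ) (hε : 0 < ε) (A E : ℕ) : ∃ N₀ : ℕ, ∀ N : ℕ, N₀ ≤ N → ∀ z : ℕ, Real.log N ^ 3 ≤ z →
    (z : ℝ) ≤ Real.log N ^ E → ∀ f : ℕ → ℝ,
    (∑ k ∈ Icc 1 N, |(ArithmeticFunction.vonMangoldt k - lamz z k) - f k| ≤ N / Real.log N ^ (A + 6)) →
    ∀ q a : ℕ, 1 ≤ q → (q : ℝ) * Real.log N ^ (A + 1) ≤ N →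
    (N : ℝ) / (q * Real.log N ^ A) < (badc (Good ε) N q a).card → BadF f N (2 * A + 5) q := by
  classical
  obtain ⟨N₃, h3⟩ := good_of ε hε 1 (A + 1) E
  obtain ⟨N₄, h4⟩ := ev_L' 16
  refine ⟨N₃ + N₄ + 3, fun N hN z hz3 hzhi f hf1' q a hq1 hqs hbad => ?_⟩
  have c3 := h3 N (by omega)
  have hL := h4 N (by omega)
  have hN1 : 1 ≤ N := by omega
  have hN0 : (0 : ℝ) < N := by exact_mod_cast hN1
  have hN1r : (1 : ℝ) ≤ N := by exact_mod_cast hN1
  obtain ⟨L, hLd⟩ : ∃ L, L = Real.log (N : ℝ) := ⟨_, rfl⟩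
  rw [← hLd] at c3 hL hz3 hzhi hf1' hqs hbad
  have hL0 : 0 < L := by linarith
  have hL1 : 1 ≤ L := by linarith
  have hlog0 : 0 < Real.log (N + 1 : ℕ) := by
    apply Real.log_pos
    push_cast
    linarith
  have hlog2 : Real.log (N + 1 : ℕ) ≤ 2 * L := by
    have h3 : ((N + 1 : ℕ) : ℝ) ≤ 2 * N := by
      push_cast
      linarith
    have h4 := Real.log_le_log (by positivity) h3
    rw [Real.log_mul (by norm_num) hN0.ne', ← hLd] at h4
    have := Real.log_two_lt_d9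
    linarith
  have hq0 : (0 : ℝ) < q := by exact_mod_cast hq1
  obtain ⟨r, hr⟩ : ∃ r, r = a % q := ⟨_, rfl⟩
  have hrq : r < q := by rw [hr]; exact Nat.mod_lt _ hq1
  have hqN' : q ≤ N := by
    have h3 : (1 : ℝ) ≤ L ^ (A + 1) := one_le_pow₀ hL1
    have : (q : ℝ) ≤ N := (le_mul_of_one_le_right hq0.le h3).trans hqs
    exact_mod_cast this
  refine ⟨GG N, N, (r : ℤ) - ((N : ℤ) + 1), GG_le N hN1, le_rfl, by omega, by omega, ?_⟩
  rw [← hLd]
  obtain ⟨A', hA'⟩ : ∃ A', A' = 2 * A + 5 := ⟨_, rfl⟩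
  rw [← hA']
  obtain ⟨V, hV⟩ : ∃ V : ℕ → ℝ, V = fun m : ℕ => ‖∑ a ∈ Icc 1 N, GG N a *
        fz (fun k => ((f k : ℝ) : ℂ)) N ((a : ℤ) + ((q : ℤ) * m + ((r : ℤ) - ((N : ℤ) + 1))))‖ := ⟨_, rfl⟩
  have hgoal : (N : ℝ) ^ 2 / (q * L ^ A') < ∑ m ∈ Icc 1 (N / q), V m := by
    by_contra key'
    rw [not_lt] at key'
    apply absurd hbad
    rw [not_lt]
    obtain ⟨Bd, hBd⟩ : ∃ Bd, Bd = badc (Good ε) N q a := ⟨_, rfl⟩
    rw [← hBd]
    have hmem : ∀ n ∈ Bd, 1 ≤ n ∧ n ≤ N ∧ 2 ∣ n ∧ n % q = r ∧ ¬ Good ε n := by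
      intro n hn
      rw [hBd] at hn
      unfold badc at hn
      rw [mem_filter, mem_Icc] at hn
      exact ⟨hn.1.1, hn.1.2, hn.2.1, by rw [hr]; exact hn.2.2.1, hn.2.2.2⟩
    obtain ⟨B1s, hB1s⟩ : ∃ B1s, B1s = Bd.filter (fun n : ℕ => (n : ℝ) < N / L ^ (A + 1)) := ⟨_, rfl⟩
    obtain ⟨B2s, hB2s⟩ : ∃ B2s, B2s = Bd.filter (fun n : ℕ => ¬ (n : ℝ) < N / L ^ (A + 1)) := ⟨_, rfl⟩
    have hcard : B1s.card + B2s.card = Bd.card := by
      rw [hB1s, hB2s]; exact card_filter_add_card_filter_not _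
    have hone : (1 : ℝ) ≤ N / (q * L ^ (A + 1)) := by rw [one_le_div (by positivity)]; exact hqs
    have hB1c : (B1s.card : ℝ) ≤ 2 * (N / (q * L ^ (A + 1))) := by
      have h3 := class_le N q a hq1 B1s (N / L ^ (A + 1)) (by positivity) (by
        intro n hn
        rw [hB1s, mem_filter] at hn
        obtain ⟨a1, a2, a3, a4, a5⟩ := hmem n hn.1
        exact ⟨by rw [a4, hr], hn.2.le⟩)
      have e1 : (N : ℝ) / L ^ (A + 1) / q = N / (q * L ^ (A + 1)) := by rw [div_div, mul_comm]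
      rw [e1] at h3
      linarith
    -- the terms
    have hbig : ∀ n ∈ B2s, q ≤ n := by
      intro n hn
      rw [hB2s, mem_filter, not_lt] at hn
      have h3 : (q : ℝ) ≤ N / L ^ (A + 1) := by rw [le_div_iff₀ (by positivity)]; exact hqs
      exact_mod_cast h3.trans hn.2
    have hterm : ∀ n ∈ B2s, (N : ℝ) / (4 * L ^ (A + 3)) ≤ V (n / q) := by
      intro n hn
      have hn' := hn
      rw [hB2s, mem_filter, not_lt] at hn
      obtain ⟨a1, a2, a3, a4, a5⟩ := hmem n hn.1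
      have h3 : (N : ℝ) / L ^ (A + 2) < |∑ b ∈ Icc 1 (1 * N), ArithmeticFunction.vonMangoldt b * (lamI ((n : ℤ) - b) - lamzI z ((n : ℤ) - b))| := by
        by_contra hc
        rw [not_lt] at hc
        exact a5 (c3 z hz3 hzhi n a3 hn.2 (by omega) hc)
      rw [one_mul] at h3
      have h4 := replace N z n hN1 a2 f
      have h5 : V (n / q) = ‖∑ a ∈ Icc 1 N, GG N a * fz (fun k => ((f k : ℝ) : ℂ)) N ((a : ℤ) + ((n : ℤ) - ((N : ℤ) + 1)))‖ := by
        rw [hV]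
        simp only
        have h6 : (q : ℤ) * ((n / q : ℕ) : ℤ) + r = n := by
          have := Nat.mod_add_div n q
          rw [a4] at this
          have h7 : ((r + q * (n / q) : ℕ) : ℤ) = n := by exact_mod_cast this
          push_cast at h7 ⊢
          linarith
        have h7 : (q : ℤ) * ((n / q : ℕ) : ℤ) + ((r : ℤ) - ((N : ℤ) + 1)) = (n : ℤ) - ((N : ℤ) + 1) := by
          rw [← h6]; ring
        rw [h7]
      rw [h5]
      have h6 : (N : ℝ) / L ^ (A + 2) / (2 * L) ≤ |∑ b ∈ Icc 1 N, ArithmeticFunction.vonMangoldt b * (lamI ((n : ℤ) - b) - lamzI z ((n : ℤ) - b))| /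
        Real.log (N + 1 : ℕ) := div_le_div₀ (abs_nonneg _) h3.le hlog0 hlog2
      have h7 : (N : ℝ) / L ^ (A + 2) / (2 * L) = 2 * (N / (4 * L ^ (A + 3))) := by
        rw [pow_succ L (A + 2)]
        field_simp
        norm_num
      have h8 : (N : ℝ) / L ^ (A + 6) ≤ N / (4 * L ^ (A + 3)) := by
        apply div_le_div_of_nonneg_left hN0.le (by positivity)
        rw [pow_add L A 6, pow_add L A 3, ← mul_assoc, mul_comm 4 (L ^ A), mul_assoc]
        apply mul_le_mul_of_nonneg_left _ (by positivity)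
        rw [show (6 : ℕ) = 3 + 3 by norm_num, pow_add]
        apply mul_le_mul_of_nonneg_right _ (by positivity)
        have : L ^ 1 ≤ L ^ 3 := pow_le_pow_right₀ hL1 (by norm_num)
        linarith [pow_one L]
      linarith
    have hsum : (B2s.card : ℝ) * (N / (4 * L ^ (A + 3))) ≤ ∑ m ∈ Icc 1 (N / q), V m := by
      calc (B2s.card : ℝ) * (N / (4 * L ^ (A + 3))) = ∑ _n ∈ B2s, (N : ℝ) / (4 * L ^ (A + 3)) := by
            rw [sum_const, nsmul_eq_mul]
        _ ≤ ∑ n ∈ B2s, V (n / q) := sum_le_sum hterm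
        _ = ∑ m ∈ B2s.image (fun n => n / q), V m := by
            rw [sum_image]
            intro n hn n' hn' h
            rw [mem_coe, hB2s, mem_filter] at hn hn'
            obtain ⟨a1, a2, a3, a4, a5⟩ := hmem n hn.1
            obtain ⟨b1, b2, b3, b4, b5⟩ := hmem n' hn'.1
            simp only at h
            rw [← Nat.mod_add_div n q, ← Nat.mod_add_div n' q, h, a4, b4]
        _ ≤ ∑ m ∈ Icc 1 (N / q), V m := by
            apply sum_le_sum_of_subset_of_nonneg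
            · intro m hm
              rw [mem_image] at hm
              obtain ⟨n, hn, rfl⟩ := hm
              have hb := hbig n hn
              rw [hB2s, mem_filter] at hn
              obtain ⟨a1, a2, a3, a4, a5⟩ := hmem n hn.1
              rw [mem_Icc]
              exact ⟨Nat.div_pos hb hq1, Nat.div_le_div_right a2⟩
            · intro m _ _
              rw [hV]
              exact norm_nonneg _
    have hB2c : (B2s.card : ℝ) ≤ 4 * (N / (q * L ^ (A + 2))) := by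
      have h3 := hsum.trans key'
      have h4 : (N : ℝ) ^ 2 / (q * L ^ A') = (4 * (N / (q * L ^ (A + 2)))) * (N / (4 * L ^ (A + 3))) := by
        rw [hA', show 2 * A + 5 = (A + 2) + (A + 3) by ring, pow_add L (A + 2) (A + 3)]
        field_simp
      rw [h4] at h3
      exact le_of_mul_le_mul_right h3 (by positivity)
    have h3 : (B1s.card : ℝ) + B2s.card = Bd.card := by exact_mod_cast hcard
    have h4 : (N : ℝ) / (q * L ^ (A + 1)) = N / (q * L ^ A) / L := by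
      rw [pow_succ, ← mul_assoc, ← div_div]
    have h5 : (N : ℝ) / (q * L ^ (A + 2)) = N / (q * L ^ A) / L / L := by
      rw [pow_succ, pow_succ, ← mul_assoc, ← mul_assoc, ← div_div, ← div_div]
    have h6 : 0 ≤ (N : ℝ) / (q * L ^ A) := by positivity
    have h7 : (N : ℝ) / (q * L ^ A) / L ≤ N / (q * L ^ A) / 16 := div_le_div_of_nonneg_left h6 (by norm_num) hL
    have h8 : (N : ℝ) / (q * L ^ A) / L / L ≤ N / (q * L ^ A) / L := div_le_self (by positivity) hL1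
    rw [h4] at hB1c
    rw [h5] at hB2c
    linarith

  rw [hV] at hgoal
  exact hgoal

theorem gold (ε : ℝ) (hε : 0 < ε) (ρ : ℝ) (hρ : 0 < ρ) (A : ℕ) :
    ∃ c N₀ : ℕ, ∀ N : ℕ, N₀ ≤ N → ∃ D : Finset ℕ,
      (∀ d ∈ D, Real.log N ^ A < (d : ℝ)) ∧
      (∀ X : ℝ, 1 ≤ X → ((D.filter (fun d : ℕ => (d : ℝ) ≤ X)).card : ℝ) ≤ X ^ ρ) ∧
      (∀ q : ℕ, 1 ≤ q → (q : ℝ) ≤ (N : ℝ) ^ (2 / 3 - ρ) → (∀ d ∈ D, ¬ d ∣ q) → ∀ a : ℕ,
        ((badc (Good ε) N q a).card : ℝ) ≤ (N : ℝ) / (q * Real.log N ^ A)) ∧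
      ∀ X : ℕ, X ≤ N → ∀ F : Finset ℕ, (∀ q ∈ F, 1 ≤ q ∧ q ≤ X ∧ (∀ d ∈ D, ¬ d ∣ q) ∧
        ∃ a : ℕ, (N : ℝ) / (q * Real.log N ^ A) < (badc (Good ε) N q a).card) →
        (F.card : ℝ) * N ≤ (X : ℝ) ^ 2 * Real.log N ^ c := by
  classical
  obtain ⟨A', hA'⟩ : ∃ A', A' = 2 * A + 5 := ⟨_, rfl⟩
  obtain ⟨c, U, N₁, h1⟩ := mainW ρ hρ A'
  obtain ⟨U', hU'⟩ : ∃ U', U' = max U (A + 6) := ⟨_, rfl⟩
  obtain ⟨B, hB⟩ := model U'
  obtain ⟨B1, hB1⟩ : ∃ B1, B1 = max B 3 := ⟨_, rfl⟩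
  obtain ⟨N₂, h2⟩ := hB (B1 + 1)
  obtain ⟨N₃, h3⟩ := gold_bad ε hε A (B1 + 1)
  obtain ⟨N₄, h4⟩ := ev_L' 16
  obtain ⟨N₅, h5⟩ := ev_log_rpow (A + 1) 1 (1 / 3) (by norm_num)
  refine ⟨c + A + 1, N₁ + N₂ + N₃ + N₄ + N₅ + 3, fun N hN => ?_⟩
  have c1 := h1 N (by omega)
  have c2 := h2 N (by omega)
  have c3 := h3 N (by omega)
  have hL := h4 N (by omega)
  have c5 := h5 N (by omega)
  have hN1 : 1 ≤ N := by omega
  have hN0 : (0 : ℝ) < N := by exact_mod_cast hN1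
  have hN1r : (1 : ℝ) ≤ N := by exact_mod_cast hN1
  obtain ⟨L, hLd⟩ : ∃ L, L = Real.log (N : ℝ) := ⟨_, rfl⟩
  rw [← hLd] at c1 c2 c3 hL c5 ⊢
  have hL0 : 0 < L := by linarith
  have hL1 : 1 ≤ L := by linarith
  -- the parameter `z`
  obtain ⟨z, hz⟩ : ∃ z, z = ⌈L ^ B1⌉₊ := ⟨_, rfl⟩
  have hzlo : L ^ B1 ≤ z := by rw [hz]; exact Nat.le_ceil _
  have hL1B : 1 ≤ L ^ B1 := one_le_pow₀ hL1
  have hzhi : (z : ℝ) ≤ L ^ (B1 + 1) := by
    have := Nat.ceil_lt_add_one (show 0 ≤ L ^ B1 by positivity)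
    rw [← hz] at this
    calc (z : ℝ) ≤ L ^ B1 + 1 := this.le
      _ ≤ L ^ B1 + L ^ B1 := by linarith
      _ = 2 * L ^ B1 := by ring
      _ ≤ L * L ^ B1 := mul_le_mul_of_nonneg_right (by linarith) (by positivity)
      _ = L ^ (B1 + 1) := by ring
  have hzB : L ^ B ≤ z := (pow_le_pow_right₀ hL1 (by rw [hB1]; exact le_max_left _ _)).trans hzlo
  have hz3 : L ^ 3 ≤ z := (pow_le_pow_right₀ hL1 (by rw [hB1]; exact le_max_right _ _)).trans hzlo
  obtain ⟨f, hf1, hf2, hf3, hf4⟩ := c2 z hzB hzhi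
  have hU1 : L ^ U ≤ L ^ U' := pow_le_pow_right₀ hL1 (by rw [hU']; exact le_max_left _ _)
  have hU2 : L ^ (A + 6) ≤ L ^ U' := pow_le_pow_right₀ hL1 (by rw [hU']; exact le_max_right _ _)
  have hFM : FM f N U := by
    refine ⟨by rw [← hLd]; exact hf2, ?_, by rw [← hLd]; exact hf4⟩
    intro α
    rw [← hLd]
    exact (hf3 α).trans (div_le_div_of_nonneg_left hN0.le (by positivity) hU1)
  have hf1' : ∑ n ∈ Icc 1 N, |(ArithmeticFunction.vonMangoldt n - lamz z n) - f n| ≤ N / L ^ (A + 6) :=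
    hf1.trans (div_le_div_of_nonneg_left hN0.le (by positivity) hU2)
  have c4 := c3 z hz3 hzhi f hf1'
  rw [← hA'] at c4
  obtain ⟨D, hD1, hD2, hD3, hD4⟩ := c1 f hFM
  refine ⟨D, ?_, hD2, ?_, ?_⟩
  · intro d hd
    refine lt_of_le_of_lt ?_ (hD1 d hd)
    exact pow_le_pow_right₀ hL1 (by omega)
  · intro q hq1 hqN hqD a
    by_contra hcon
    rw [not_le] at hcon
    refine hD3 q hq1 hqN hqD (c4 q a hq1 ?_ hcon)
    have e1 : (q : ℝ) ≤ (N : ℝ) ^ (2 / 3 : ℝ) := hqN.trans (rpow_step _ _ _ hN1r (by linarith))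
    calc (q : ℝ) * L ^ (A + 1) ≤ (N : ℝ) ^ (2 / 3 : ℝ) * (N : ℝ) ^ (1 / 3 : ℝ) := by
          rw [one_mul] at c5
          exact mul_le_mul e1 c5 (by positivity) (by positivity)
      _ = N := by rw [← Real.rpow_add hN0]; norm_num
  · intro X hXN F hF
    rcases le_or_gt ((X : ℝ) * L ^ (A + 1)) N with hX | hX
    · have h6 := hD4 X hXN F (by
        intro q hq
        obtain ⟨a1, a2, a3, a, a4⟩ := hF q hq
        refine ⟨a1, a2, a3, c4 q a a1 ?_ a4⟩
        refine le_trans ?_ hX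
        apply mul_le_mul_of_nonneg_right _ (by positivity)
        exact_mod_cast a2)
      refine h6.trans ?_
      apply mul_le_mul_of_nonneg_left _ (by positivity)
      exact pow_le_pow_right₀ hL1 (by omega)
    · have h6 : (F.card : ℝ) ≤ X := by
        have h7 : F ⊆ Icc 1 X := by
          intro q hq
          obtain ⟨a1, a2, -⟩ := hF q hq
          exact mem_Icc.2 ⟨a1, a2⟩
        have h8 := card_le_card h7
        rw [Nat.card_Icc, Nat.add_sub_cancel] at h8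
        exact_mod_cast h8
      calc (F.card : ℝ) * N ≤ X * (X * L ^ (A + 1)) := mul_le_mul h6 hX.le hN0.le (Nat.cast_nonneg _)
        _ = (X : ℝ) ^ 2 * L ^ (A + 1) := by ring
        _ ≤ (X : ℝ) ^ 2 * L ^ (c + A + 1) := by
            apply mul_le_mul_of_nonneg_left _ (by positivity)
            exact pow_le_pow_right₀ hL1 (by omega)

end Pool.Agent.Y883.T4
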