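import Pool.Agent.Y883.T4.Main
import Pool.Agent.H373R2.T7.Tuple4

set_option autoImplicit false

/-! Prime tuples `n, n + h_1, ..., n + h_k` with shifts in residue classes to a large modulus. -/

namespace Pool.Agent.Y883.T4

open Finset Polynomial
open Pool.Agent.H373R2.T7
open Pool.Agent.Y883.T3

/-- the correlation has the conjectured size -/
def TupOK {k : ℕ} (a : Fin k → ℤ) (N A : ℕ) : Prop :=
  ∃ S : ℝ, Filter.Tendsto (fun z => singZ a z) Filter.atTop (nhds S) ∧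
    |∑ n ∈ Icc 1 N, ArithmeticFunction.vonMangoldt n * ∏ i, lamI ((n : ℤ) + a i) - S * N| ≤ N / Real.log N ^ A

/-- the deterministic part: outside of degenerate tuples, the correlation has the conjectured size if the
sieve model is a good approximation -/
theorem tup_det (k : ℕ) (hk : 1 ≤ k) (R A E : ℕ) (hE : A + k + 6 ≤ E) : ∃ N₀ : ℕ, ∀ N : ℕ, N₀ ≤ N →
    ∀ z : ℕ, Real.log N ^ E ≤ z → (z : ℝ) ≤ Real.log N ^ (E + 1) → ∀ a : Fin k → ℤ,
    (∀ i, 1 ≤ a i ∧ a i ≤ R * N) → (∀ i j, i ≠ j → a i ≠ a j) →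
    |∑ n ∈ Icc 1 N, ArithmeticFunction.vonMangoldt n *
      (∏ i, lamI ((n : ℤ) + a i) - ∏ i, lamzI z ((n : ℤ) + a i))| ≤ N / (2 * Real.log N ^ A) → TupOK a N A := by
  obtain ⟨n2, h2⟩ := tuple_main k (E + 1) (A + 1) hk
  obtain ⟨n3, h3⟩ := Vz_inv_small (E + 1)
  obtain ⟨c2, hc2⟩ : ∃ c2 : ℝ, c2 = (k + 1 : ℝ) ^ 2 + 4 * (k + 1) * ((k + k * k) * 8) := ⟨_, rfl⟩
  obtain ⟨n5, h5⟩ := ev_L' (Real.log (2 * R + 2) + c2 + 3 * (k + 1) + 16)
  refine ⟨n2 + n3 + n5 + 3, fun N hN z hz1 hz2 a ha hab hmain => ?_⟩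
  have b2 := h2 N (by omega)
  have b3 := h3 N (by omega)
  have hL := h5 N (by omega)
  have hNr : (3 : ℝ) ≤ N := by exact_mod_cast (by omega : 3 ≤ N)
  have hN0' : (0 : ℝ) < N := by linarith
  obtain ⟨L, hLd⟩ : ∃ L, L = Real.log (N : ℝ) := ⟨_, rfl⟩
  unfold TupOK
  rw [← hLd] at b2 b3 hL hz1 hz2 hmain ⊢
  have hk0 : (0 : ℝ) ≤ k := Nat.cast_nonneg _
  have hR0 : (0 : ℝ) ≤ R := Nat.cast_nonneg _
  have hlc1 : 0 ≤ Real.log (2 * R + 2) := Real.log_nonneg (by linarith)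
  have hc20 : 0 < c2 := by rw [hc2]; positivity
  have hL16 : 16 ≤ L := by linarith
  have hL1 : 1 ≤ L := by linarith
  have hL0 : 0 < L := by linarith
  have hLa : Real.log (2 * R + 2) ≤ L := by linarith
  have hLc : c2 ≤ L := by linarith
  have hLd' : 3 * ((k : ℝ) + 1) ≤ L := by linarith
  have hz0 : (0 : ℝ) < z := lt_of_lt_of_le (by positivity) hz1
  have hzn : 1 ≤ z := by exact_mod_cast hz0
  have hV := b3 z hzn hz2
  have ha1 : ∀ i, a i ≠ 0 := fun i => by have := (ha i).1; omega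
  obtain ⟨S, hS, hSb⟩ := sing_limit a ha1 hab
  refine ⟨S, hS, ?_⟩
  -- size of the shifts
  have hsize : ∀ i, (a i).natAbs ≤ R * N := by
    intro i
    have h6 := ha i
    have h7 : ((a i).natAbs : ℤ) ≤ ((R * N : ℕ) : ℤ) := by
      rw [Int.natAbs_of_nonneg (by omega)]
      push_cast
      exact h6.2
    exact_mod_cast h7
  obtain ⟨Y, hY⟩ : ∃ Y, Y = (2 * R + 2) * N := ⟨_, rfl⟩
  have hbad := card_badP a Y (fun i => (hsize i).trans (by rw [hY]; nlinarith [Nat.zero_le (R * N)])) (fun i j => by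
    have h6 := Int.natAbs_sub_le (a i) (a j)
    have h7 := hsize i
    have h8 := hsize j
    rw [hY]
    calc (a i - a j).natAbs ≤ R * N + R * N := h6.trans (add_le_add h7 h8)
      _ = 2 * R * N := by ring
      _ ≤ (2 * R + 2) * N := Nat.mul_le_mul_right _ (by omega))
  have hY1 : 1 ≤ Y := by
    rw [hY]
    exact Nat.mul_pos (by omega) (by omega)
  have hlogY : (Nat.log 2 Y : ℝ) ≤ 4 * L := by
    refine (natlog_le Y hY1).trans ?_
    have h6 : (Y : ℝ) = (2 * R + 2) * N := by rw [hY]; push_cast; ring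
    rw [h6, Real.log_mul (by positivity) hN0'.ne', ← hLd]
    linarith
  have hKc : Kc a ≤ c2 * L := by
    unfold Kc
    have h6 : ((badP a).card : ℝ) ≤ (k + k * k) * (4 * L) := by
      have h7 : ((badP a).card : ℝ) ≤ (k + k * k) * (Nat.log 2 Y : ℝ) := by exact_mod_cast hbad
      refine h7.trans ?_
      apply mul_le_mul_of_nonneg_left hlogY (by positivity)
    push_cast
    calc ((k : ℝ) + 1) ^ 2 + 4 * (k + 1) * ((badP a).card : ℝ) ≤ ((k : ℝ) + 1) ^ 2 * L + 4 * (k + 1) * ((k + k * k) * (4 * L)) := by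
          apply add_le_add
          · exact le_mul_of_one_le_right (by positivity) hL1
          · gcongr
      _ ≤ c2 * L := by
          rw [hc2]
          have : 0 ≤ 4 * ((k : ℝ) + 1) * ((k + k * k) * (4 * L)) := by positivity
          nlinarith
  have hKL : Kc a ≤ L ^ 2 := by nlinarith
  have hL2z : L ^ 2 ≤ z := (pow_le_pow_right₀ hL1 (by omega)).trans hz1
  have h3k : 3 * (k + 1) ≤ z := by
    have h6 : (3 * ((k : ℝ) + 1)) ≤ z := by
      have : L ≤ L ^ 2 := by nlinarith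
      linarith
    exact_mod_cast h6
  have hdiff := hSb z h3k (hKL.trans hL2z)
  have hsz := singZ_le a z L hV
  have hs0 := singZ_nonneg a z
  have hdiff2 : |S - singZ a z| ≤ 1 / L ^ (A + 2) := by
    refine hdiff.trans ?_
    calc singZ a z * (Kc a / z) ≤ L ^ k * (L ^ 2 / L ^ E) := by
          apply mul_le_mul hsz _ (by
            apply div_nonneg _ hz0.le
            unfold Kc; positivity) (by positivity)
          apply div_le_div₀ (by positivity) hKL (by positivity) hz1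
      _ = L ^ (k + 2) / L ^ E := by rw [pow_add]; ring
      _ ≤ 1 / L ^ (A + 2) := by
          rw [div_le_div_iff₀ (by positivity) (by positivity), one_mul, ← pow_add]
          exact pow_le_pow_right₀ hL1 (by omega)
  -- the model
  have e3 := model_swap a N z 0 (fun i => by have := (ha i).1; push_cast; omega) L hL1 (le_of_eq hLd.symm) hV
  have e4 := b2 z hzn hz2 a
  obtain ⟨S1, hS1⟩ : ∃ S1, S1 = ∑ n ∈ Icc 1 N, ArithmeticFunction.vonMangoldt n * ∏ i, lamI ((n : ℤ) + a i) := ⟨_, rfl⟩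
  obtain ⟨S2, hS2⟩ : ∃ S2, S2 = ∑ n ∈ Icc 1 N, ArithmeticFunction.vonMangoldt n * ∏ i, lamzI z ((n : ℤ) + a i) := ⟨_, rfl⟩
  obtain ⟨S3, hS3⟩ : ∃ S3, S3 = ∑ n ∈ Icc 1 N, ArithmeticFunction.vonMangoldt n *
    ∏ i, (if ∀ p ∈ pz z, ¬ (p : ℤ) ∣ (n : ℤ) + a i then (Vz z)⁻¹ else 0) := ⟨_, rfl⟩
  have e2 : ∑ n ∈ Icc 1 N, ArithmeticFunction.vonMangoldt n *
      (∏ i, lamI ((n : ℤ) + a i) - ∏ i, lamzI z ((n : ℤ) + a i)) = S1 - S2 := by
    rw [hS1, hS2, ← sum_sub_distrib]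
    apply sum_congr rfl
    intro n _
    rw [mul_sub]
  rw [e2] at hmain
  rw [← hS2, ← hS3, Nat.cast_zero, zero_mul] at e3
  rw [← hS3] at e4
  rw [← hS1]
  have e5 : S1 - S * N = (S1 - S2) + (S2 - S3) + (S3 - singZ a z * N) - (S - singZ a z) * N := by ring
  rw [e5]
  have h6 : |(S - singZ a z) * N| ≤ 1 / L ^ (A + 2) * N := by
    rw [abs_mul, abs_of_pos hN0']
    exact mul_le_mul_of_nonneg_right hdiff2 hN0'.le
  have q1 := abs_sub ((S1 - S2) + (S2 - S3) + (S3 - singZ a z * N)) ((S - singZ a z) * N)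
  have q2 := abs_add_le ((S1 - S2) + (S2 - S3)) (S3 - singZ a z * N)
  have q3 := abs_add_le (S1 - S2) (S2 - S3)
  obtain ⟨Q, hQ⟩ : ∃ Q, Q = (N : ℝ) / L ^ A := ⟨_, rfl⟩
  have hQ0 : 0 < Q := by rw [hQ]; positivity
  have r1 : (N : ℝ) / (2 * L ^ A) = Q / 2 := by rw [hQ]; field_simp
  have r2 : (N : ℝ) / L ^ (A + 1) = Q / L := by rw [hQ, pow_succ, div_div]
  have r3 : 1 / L ^ (A + 2) * (N : ℝ) = Q / L ^ 2 := by rw [hQ, pow_add]; field_simp
  have r4 : Q / L ≤ Q / 16 := div_le_div_of_nonneg_left hQ0.le (by norm_num) hL16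
  have r5 : Q / L ^ 2 ≤ Q / 16 := by
    apply div_le_div_of_nonneg_left hQ0.le (by norm_num)
    nlinarith
  rw [← hQ]
  rw [r1] at hmain
  rw [r2] at e4
  rw [r3] at h6
  linarith

end Pool.Agent.Y883.T4
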