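import Pool.Agent.Y883.T3.Fin

set_option autoImplicit false

/-! Sums with arbitrary bounded weights over the residue classes of large moduli: a set of moduli
`q ≤ N ^ (2 / 3 - ρ)` with large sums has many members with a common divisor. -/

namespace Pool.Agent.Y883.T4

open Finset
open Pool.Agent.H807R2.Dav
open Pool.Agent.H373R2.T7 (fz parseval_Icc ev_L' ev_log')
open Pool.Agent.Y883.T3

/-- the properties of the functions to which the method applies -/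
structure FM (f : ℕ → ℝ) (N U : ℕ) : Prop where
  l2 : ∑ n ∈ Icc 1 N, f n ^ 2 ≤ N * Real.log N ^ 8
  sup : ∀ α : ℝ, ‖∑ n ∈ Icc 1 N, ((f n : ℝ) : ℂ) * ee ((n : ℝ) * α)‖ ≤ N / Real.log N ^ U
  rat : ∀ K : ℝ, 1 ≤ K → K ≤ (N : ℝ) ^ (17 / 100 : ℝ) → ∀ α : ℝ,
      N / K < ‖∑ n ∈ Icc 1 N, ((f n : ℝ) : ℂ) * ee ((n : ℝ) * α)‖ →
      ∃ x : ℚ, (x.den : ℝ) ≤ K ^ 2 * Real.log N ^ 18 ∧
        |α - x| ≤ K ^ 2 * Real.log N ^ 18 / (x.den * N)

lemma FM.mono {f : ℕ → ℝ} {N U U' : ℕ} (h : FM f N U') (hU : U ≤ U') (hL : 1 ≤ Real.log (N : ℝ)) : FM f N U := by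
  refine ⟨h.l2, fun α => (h.sup α).trans ?_, h.rat⟩
  apply div_le_div_of_nonneg_left (Nat.cast_nonneg _) (by positivity)
  exact pow_le_pow_right₀ hL hU

/-- some bounded weights give a large sum over some residue class modulo `q` -/
def BadW (f : ℕ → ℝ) (N A Q q : ℕ) : Prop := ∃ (G : ℕ → ℂ) (y : ℕ) (c0 : ℤ), (∀ a, ‖G a‖ ≤ 1) ∧ y ≤ N ∧
  -(2 * (N : ℤ)) ≤ c0 ∧ c0 ≤ N ∧
  ((N : ℝ) / Real.log N ^ (2 * A + 4)) * (N / Q : ℕ) ≤
    ∑ m ∈ Icc 1 (N / Q), ‖∑ a ∈ Icc 1 y, G a *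
      fz (fun k => ((f k : ℝ) : ℂ)) N ((a : ℤ) + ((q : ℤ) * m + c0))‖

theorem lvlW (N Q q A : ℕ) (L : ℝ) (hN : 1 ≤ N) (hQ : 1 ≤ Q) (hQN : Q ≤ N) (hq : Q ≤ q ∧ q < 2 * Q)
    (f : ℕ → ℝ) (hLd : L = Real.log N)
    (hL : 100000 ≤ L) (hf2 : ∑ n ∈ Icc 1 N, f n ^ 2 ≤ N * L ^ 8) (hsup : ∀ t, FF f N t ≤ N)
    (hJ : ((Nat.log 2 N + 1 : ℕ) : ℝ) ≤ L ^ 2) (hJ2 : 2 * L ^ (2 * A + 4) ≤ √(N : ℝ))
    (hbad : BadW f N A Q q) :
    ∃ j < Nat.log 2 N + 1, 16 ^ j / (6 * L ^ (8 * A + 24)) ≤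
      ((clp (4 * N) (N / Q) q (L ^ (8 * A + 44)) (lev (FF f N) (4 * N) N j)).card : ℝ) := by
  obtain ⟨G, y, c0, hG, hy, hc1, hc2, hmom⟩ := hbad
  rw [← hLd] at hmom
  have hN0 : (0 : ℝ) < N := by exact_mod_cast hN
  have hL0 : 0 < L := by linarith
  have hL1 : 1 ≤ L := by linarith
  have hP1 : 1 ≤ N / Q := Nat.div_pos hQN (by omega)
  obtain ⟨j, hj1, hj2⟩ := level_main y N (N / Q) (4 * N) (Nat.log 2 N + 1) (by omega) hP1 (by omega)
    (fun k => ((f k : ℝ) : ℂ)) G q c0 (by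
      intro a ha m hm n hn
      rw [mem_Icc] at ha hm hn
      have h1 : q * m ≤ 2 * N := by
        calc q * m ≤ (2 * Q) * (N / Q) := Nat.mul_le_mul hq.2.le hm.2
          _ = 2 * (N / Q * Q) := by ring
          _ ≤ 2 * N := Nat.mul_le_mul_left _ (Nat.div_mul_le_self _ _)
      have h2 : (q : ℤ) * m ≤ 2 * N := by exact_mod_cast h1
      have h3 : (0 : ℤ) ≤ (q : ℤ) * m := by positivity
      push_cast
      rw [abs_lt]
      constructor <;> omega) hG (FF f N) (fun t => rfl) hsup ((N : ℝ) / L ^ (2 * A + 4))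
    (1 / L ^ (4 * A + 12)) (L ^ 9) (L ^ (8 * A + 44)) (by positivity) (by positivity) hmom (by
      have e0 : √(((4 * N : ℕ) : ℝ) * y * (1 / L ^ (4 * A + 12))) ≤ √(((4 * N : ℕ) : ℝ) * N * (1 / L ^ (4 * A + 12))) := by
        apply Real.sqrt_le_sqrt
        apply mul_le_mul_of_nonneg_right _ (by positivity)
        exact mul_le_mul_of_nonneg_left (by exact_mod_cast hy) (Nat.cast_nonneg _)
      have e1 : √(((4 * N : ℕ) : ℝ) * N * (1 / L ^ (4 * A + 12))) = 2 * N / L ^ (2 * A + 6) := by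
        have e2 : ((4 * N : ℕ) : ℝ) * N * (1 / L ^ (4 * A + 12)) = (2 * N / L ^ (2 * A + 6)) ^ 2 := by
          rw [div_pow, ← pow_mul]
          push_cast
          rw [show (2 * A + 6) * 2 = 4 * A + 12 by ring]
          ring
        rw [e2, Real.sqrt_sq (by positivity)]
      rw [e1] at e0
      have e3 : L ^ (2 * A + 6) = L ^ (2 * A + 4) * L ^ 2 := by rw [← pow_add]
      rw [e3] at e0
      refine le_trans (mul_le_mul_of_nonneg_left (mul_le_mul_of_nonneg_left e0 hN0.le) (Nat.cast_nonneg _)) ?_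
      push_cast
      push_cast at hJ
      calc ((Nat.log 2 N : ℝ) + 1) * ((N : ℝ) * (2 * N / (L ^ (2 * A + 4) * L ^ 2))) ≤
            L ^ 2 * ((N : ℝ) * (2 * N / (L ^ (2 * A + 4) * L ^ 2))) := mul_le_mul_of_nonneg_right hJ (by positivity)
        _ = (N : ℝ) / L ^ (2 * A + 4) * (4 * N) / 2 := by
            field_simp
            ring) (by
      have e1 : N < 2 ^ (Nat.log 2 N + 1) := Nat.lt_pow_succ_log_self (by norm_num) N
      have e2 : (N : ℝ) < 2 ^ (Nat.log 2 N + 1) := by exact_mod_cast e1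
      have e3 : (N : ℝ) = √(N : ℝ) * √(N : ℝ) := (Real.mul_self_sqrt hN0.le).symm
      have hsq : 0 < √(N : ℝ) := Real.sqrt_pos.2 hN0
      have e9 : √(y : ℝ) ≤ √(N : ℝ) := Real.sqrt_le_sqrt (by exact_mod_cast hy)
      refine lt_of_le_of_lt (mul_le_mul_of_nonneg_left e9 (by positivity)) ?_
      rw [div_mul_eq_mul_div, div_div, div_lt_div_iff₀ (by positivity) (by positivity)]
      calc (N : ℝ) * √(N : ℝ) * (L ^ (2 * A + 4) * 2) = N * (√(N : ℝ) * (2 * L ^ (2 * A + 4))) := by ring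
        _ ≤ N * (√(N : ℝ) * √(N : ℝ)) := by
            apply mul_le_mul_of_nonneg_left _ hN0.le
            exact mul_le_mul_of_nonneg_left hJ2 hsq.le
        _ = N * N := by rw [← e3]
        _ < N * 2 ^ (Nat.log 2 N + 1) := mul_lt_mul_of_pos_left e2 hN0)
    (lev_card N hN f L (by linarith) hf2) (by
      have e1 : L ^ (8 * A + 44) = (L ^ (4 * A + 12)) ^ 2 * L ^ 20 := by
        rw [← pow_mul, ← pow_add]; congr 1; ring
      rw [e1]
      have e2 : 2 * (1 / L ^ (4 * A + 12)) ^ 2 * ((L ^ (4 * A + 12)) ^ 2 * L ^ 20) = 2 * L ^ 20 := by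
        field_simp
      rw [e2]
      have e3 : (L ^ 9) ^ 2 = L ^ 18 := by rw [← pow_mul]
      have e4 : L ^ 20 = L ^ 18 * L ^ 2 := by rw [← pow_add]
      rw [e3, e4]
      have e5 : L ^ 1 ≤ L ^ 2 := pow_le_pow_right₀ hL1 (by norm_num)
      rw [pow_one] at e5
      have e6 : 0 < L ^ 18 := by positivity
      nlinarith)
  refine ⟨j, hj1, ?_⟩
  refine le_trans (le_of_eq ?_) hj2
  rw [div_pow, one_pow, ← pow_mul, show (4 * A + 12) * 2 = 8 * A + 24 by ring]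
  field_simp

theorem coreW (A C : ℕ) (η ρ : ℝ) (hη0 : 0 < η) (hη1 : η ≤ 1) (hρ0 : 0 < ρ) :
    ∃ U N₀ : ℕ, ∀ N : ℕ, N₀ ≤ N → ∀ f : ℕ → ℝ, FM f N U → ∀ Q : ℕ, 1 ≤ Q → (Q : ℝ) ≤ (N : ℝ) ^ (2 / 3 - ρ) →
      ∀ R : Finset ℕ, R.Nonempty → (∀ q ∈ R, Q ≤ q ∧ q < 2 * Q) → (∀ q ∈ R, BadW f N A Q q) →
      ∃ d : ℕ, Real.log N ^ C < d ∧ R.card * (d : ℝ) ^ (-η) ≤ ((R.filter (fun q => d ∣ q)).card : ℝ) := by
  classical
  obtain ⟨θ, hθ⟩ : ∃ θ : ℝ, θ = min (η / 400) (ρ / 2) := ⟨_, rfl⟩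
  have hθ0 : 0 < θ := by rw [hθ]; exact lt_min (by positivity) (by positivity)
  have hθη : θ ≤ η / 400 := by rw [hθ]; exact min_le_left _ _
  have hθρ : θ ≤ ρ / 2 := by rw [hθ]; exact min_le_right _ _
  obtain ⟨U₀, hU₀⟩ := exists_nat_ge ((8 * A + 45 : ℝ) / η)
  obtain ⟨U, hU⟩ : ∃ U, U = 8 * A + 43 + C + U₀ := ⟨_, rfl⟩
  obtain ⟨n3, h3⟩ := ev_L' 100000
  obtain ⟨n4, h4⟩ := ev_log_rpow (40 * A + 200) 1 θ hθ0
  obtain ⟨C0, hC0, hdivb⟩ := Pool.Agent.Helper112.divisor_bound (θ / 2) (by positivity)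
  obtain ⟨n5, h5⟩ := tendsto_pow_log (C0 * 4 ^ (θ / 2)) (θ / 2) (by positivity)
  obtain ⟨n6, h6⟩ := tendsto_pow_log 100 (1 / 1000) (by norm_num)
  obtain ⟨n7, h7⟩ := tendsto_pow_log 8 ρ hρ0
  obtain ⟨n8, h8⟩ := ev_log_rpow (8 * A + 98) 19 (1 / 100) (by norm_num)
  obtain ⟨n9, h9⟩ := ev_log' (2 * A + 4) 2
  obtain ⟨n10, h10⟩ := ev_log_rpow C 2 (1 / 80) (by norm_num)
  refine ⟨U, n3 + n4 + n5 + n6 + n7 + n8 + n9 + n10 + 16, fun N hN f hf Q hQ hQN R hRne hR hbad => ?_⟩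
  have a3 := h3 N (by omega)
  have a4 := h4 N (by omega)
  have a5 := h5 N (by omega)
  have a6 := h6 N (by omega)
  have a7 := h7 N (by omega)
  have a8 := h8 N (by omega)
  have a9 := h9 N (by omega)
  have a10 := h10 N (by omega)
  have hN16 : 16 ≤ N := by omega
  have hN1 : 1 ≤ N := by omega
  have hN0 : (0 : ℝ) < N := by exact_mod_cast hN1
  have hN1r : (1 : ℝ) ≤ N := by exact_mod_cast hN1
  obtain ⟨hf2, hf3, hf4⟩ := hf
  obtain ⟨L, hLd⟩ : ∃ L, L = Real.log (N : ℝ) := ⟨_, rfl⟩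
  rw [← hLd] at a3 a4 a8 a9 a10 hf2 hf3 hf4 ⊢
  rw [one_mul] at a4
  have hL0 : 0 < L := by linarith
  have hL1 : 1 ≤ L := by linarith
  obtain ⟨X, hX⟩ : ∃ X : ℝ, X = (N : ℝ) ^ θ := ⟨_, rfl⟩
  rw [← hX] at a4
  have hX1 : 1 ≤ X := (one_le_pow₀ hL1).trans a4
  have hX0 : 0 < X := by linarith
  have hXk : ∀ k : ℕ, X ^ k = (N : ℝ) ^ (k * θ) := by
    intro k
    rw [hX, ← Real.rpow_natCast, ← Real.rpow_mul hN0.le]
    congr 1
    ring
  have hsup : ∀ t, FF f N t ≤ N / L ^ U := fun t => hf3 (-(t : ℝ) / (4 * N : ℕ))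
  have hsupN : ∀ t, FF f N t ≤ N := by
    intro t
    refine (hsup t).trans ?_
    exact div_le_self hN0.le (one_le_pow₀ hL1)
  have hrat : ∀ K : ℝ, 1 ≤ K → K ≤ (N : ℝ) ^ (17 / 100 : ℝ) → ∀ t : ℕ, N / K < FF f N t →
      ∃ x : ℚ, (x.den : ℝ) ≤ K ^ 2 * L ^ 18 ∧ |(t : ℝ) / (4 * N : ℕ) - x| ≤ K ^ 2 * L ^ 18 / (x.den * N) := by
    intro K hK1 hK2 t ht
    obtain ⟨x, hx1, hx2⟩ := hf4 K hK1 hK2 (-(t : ℝ) / (4 * N : ℕ)) ht
    refine ⟨-x, ?_, ?_⟩
    · rw [Rat.neg_den]; exact hx1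
    · rw [Rat.neg_den]
      refine le_trans (le_of_eq ?_) hx2
      rw [← abs_neg]
      congr 1
      push_cast
      ring
  -- numerical facts
  have hlog : ((Nat.log 2 N : ℕ) : ℝ) + 1 ≤ L ^ 2 := by
    have e1 : (Nat.log 2 N : ℝ) ≤ Real.logb 2 N := by
      have := Real.natLog_le_logb N 2
      exact_mod_cast this
    have e2 : Real.logb 2 N ≤ 2 * L := by
      rw [Real.logb, ← hLd, div_le_iff₀ (Real.log_pos (by norm_num))]
      have h2 : (1 : ℝ) ≤ 2 * Real.log 2 := by linarith [Real.log_two_gt_d9]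
      calc L = L * 1 := (mul_one L).symm
        _ ≤ L * (2 * Real.log 2) := mul_le_mul_of_nonneg_left h2 hL0.le
        _ = 2 * L * Real.log 2 := by ring
    have e3 : 3 * L ≤ L * L := mul_le_mul_of_nonneg_right (by linarith) hL0.le
    rw [pow_two]
    linarith
  have hQN' : Q ≤ N := by
    have : (Q : ℝ) ≤ (N : ℝ) ^ (1 : ℝ) := hQN.trans (rpow_step _ _ _ hN1r (by linarith))
    rw [Real.rpow_one] at this
    exact_mod_cast this
  obtain ⟨P, hP⟩ : ∃ P, P = N / Q := ⟨_, rfl⟩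
  have hP1 : 1 ≤ P := by rw [hP]; exact Nat.div_pos hQN' (by omega)
  have hMN : P * Q ≤ N := by rw [hP]; exact Nat.div_mul_le_self _ _
  have hNM : N < (P + 1) * Q := by
    rw [hP]
    exact Nat.lt_mul_of_div_lt (Nat.lt_succ_self _) (by omega)
  have hNM2 : N ≤ 2 * P * Q := by
    calc N ≤ (P + 1) * Q := hNM.le
      _ ≤ (2 * P) * Q := Nat.mul_le_mul_right _ (by omega)
  have hP0 : (0 : ℝ) < P := by exact_mod_cast hP1
  have hQ0 : (0 : ℝ) < Q := by exact_mod_cast hQ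
  have hPlow : (N : ℝ) ^ (1 / 3 : ℝ) / 2 ≤ P := by
    have h1 : (Q : ℝ) ≤ (N : ℝ) ^ (2 / 3 : ℝ) := hQN.trans (rpow_step _ _ _ hN1r (by linarith))
    have h2 : (N : ℝ) ^ (1 / 3 : ℝ) * (N : ℝ) ^ (2 / 3 : ℝ) = N := by
      rw [← Real.rpow_add hN0]
      norm_num
    have hNP : (N : ℝ) ≤ 2 * P * Q := by exact_mod_cast hNM2
    have h3 : (N : ℝ) ^ (1 / 3 : ℝ) * (N : ℝ) ^ (2 / 3 : ℝ) ≤ (2 * P) * (N : ℝ) ^ (2 / 3 : ℝ) := by
      rw [h2]
      exact hNP.trans (mul_le_mul_of_nonneg_left h1 (by positivity))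
    have h4 := le_of_mul_le_mul_right h3 (by positivity)
    linarith
  have hTP : 4 * L ^ (8 * A + 44) ≤ P := by
    have e1 : L ^ (8 * A + 44) ≤ L ^ (8 * A + 98) := pow_le_pow_right₀ hL1 (by omega)
    have e2 : (N : ℝ) ^ (1 / 100 : ℝ) ≤ (N : ℝ) ^ (1 / 3 : ℝ) := rpow_step _ _ _ hN1r (by norm_num)
    have e3 : 0 < L ^ (8 * A + 98) := by positivity
    linarith
  have hpar : Par (4 * N) N Q P 4 (L ^ (8 * A + 44)) :=
    ⟨hQ, hP1, hMN, hNM2, by omega, by push_cast; exact le_rfl, one_le_pow₀ hL1, hTP⟩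
  have hdiv : ∀ n : ℕ, 1 ≤ n → n ≤ 4 * N → (n.divisors.card : ℝ) ≤ X := by
    intro n hn1 hn2
    refine (hdivb n hn1).trans ?_
    have e1 : (n : ℝ) ^ (θ / 2) ≤ (4 * N : ℝ) ^ (θ / 2) := by
      apply Real.rpow_le_rpow (Nat.cast_nonneg _) (by exact_mod_cast hn2) (by positivity)
    calc C0 * (n : ℝ) ^ (θ / 2) ≤ C0 * (4 * N : ℝ) ^ (θ / 2) := mul_le_mul_of_nonneg_left e1 hC0.le
      _ = (C0 * 4 ^ (θ / 2)) * (N : ℝ) ^ (θ / 2) := by rw [Real.mul_rpow (by norm_num) hN0.le]; ring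
      _ ≤ (N : ℝ) ^ (θ / 2) * (N : ℝ) ^ (θ / 2) := mul_le_mul_of_nonneg_right a5 (by positivity)
      _ = X := by rw [hX, ← Real.rpow_add hN0]; congr 1; ring
  have hlvl : ∀ s ∈ R, ∃ j < Nat.log 2 N + 1, 16 ^ j / (6 * L ^ (8 * A + 24)) ≤
      ((clp (4 * N) P s (L ^ (8 * A + 44)) (lev (FF f N) (4 * N) N j)).card : ℝ) := by
    intro q hq
    have := lvlW N Q q A L hN1 hQ hQN' (hR q hq) f hLd a3 hf2 hsupN (by push_cast; exact hlog) a9 (hbad q hq)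
    rw [← hP] at this
    exact this
  choose! jj hjj using hlvl
  have hSc : (0 : ℝ) < R.card := by exact_mod_cast hRne.card_pos
  have hJ0 : (0 : ℝ) < ((Nat.log 2 N + 1 : ℕ) : ℝ) := by positivity
  obtain ⟨j, hjJ, hjc⟩ := exists_le_card_fiber_of_nsmul_le_card_of_maps_to (M := ℝ)
    (b := (R.card : ℝ) / ((Nat.log 2 N + 1 : ℕ) : ℝ)) (s := R) (t := range (Nat.log 2 N + 1)) (f := jj)
    (fun s hs => mem_range.2 (hjj s hs).1) (nonempty_range_iff.2 (by omega)) (by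
      rw [card_range, nsmul_eq_mul, mul_div_cancel₀ _ hJ0.ne'])
  obtain ⟨S2, hS2⟩ : ∃ S2, S2 = R.filter (fun s => jj s = j) := ⟨_, rfl⟩
  rw [← hS2] at hjc
  have hS2c : (R.card : ℝ) ≤ L ^ 2 * S2.card := by
    rw [div_le_iff₀ hJ0] at hjc
    refine hjc.trans ?_
    rw [mul_comm]
    apply mul_le_mul_of_nonneg_right _ (Nat.cast_nonneg _)
    push_cast
    exact hlog
  have hS2ne : S2.Nonempty := by
    rw [← card_pos]
    have : 0 < (R.card : ℝ) / ((Nat.log 2 N + 1 : ℕ) : ℝ) := by positivity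
    have : (0 : ℝ) < S2.card := lt_of_lt_of_le this hjc
    exact_mod_cast this
  have hyp : Hyp A N Q P j L (lev (FF f N) (4 * N) N j) S2 := by
    refine ⟨hpar, a3, ?_, lev_card N hN1 f L (by linarith) hf2 j, ?_, ?_⟩
    · intro t ht
      unfold lev at ht
      rw [mem_filter, mem_range] at ht
      exact ht.1
    · intro s hs
      rw [hS2, mem_filter] at hs
      have := hR s hs.1
      omega
    · intro s hs
      rw [hS2, mem_filter] at hs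
      have := (hjj s hs.1).2
      rw [hs.2] at this
      exact this
  have hX4 : X ^ 4 ≤ (N : ℝ) ^ (1 / 100 : ℝ) := by
    rw [hXk 4]
    apply rpow_step _ _ _ hN1r
    push_cast
    linarith
  have hXρ : X ^ 4 ≤ (N : ℝ) ^ (2 * ρ) := by
    rw [hXk 4]
    apply rpow_step _ _ _ hN1r
    push_cast
    linarith
  -- the transfer to `R`
  have htr : ∀ d : ℕ, ((S2.filter (fun s => d ∣ s)).card : ℝ) ≤
      ((R.filter (fun q => d ∣ q)).card : ℝ) := by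
    intro d
    have h6 : S2.filter (fun s => d ∣ s) ⊆ R.filter (fun q => d ∣ q) := by
      rw [hS2]
      exact filter_subset_filter _ (filter_subset _ _)
    exact_mod_cast card_le_card h6
  have hrc : (0 : ℝ) ≤ R.card := Nat.cast_nonneg _
  rcases level_step A N Q P j U L X ((N : ℝ) ^ (1 / 40 : ℝ)) ρ f S2 hyp (by omega) hN1 hρ0 hQN rfl a4 hX4 hXρ
    a6 a7 a8 hdiv hlog hsup hrat hS2ne with ⟨e, hd1, hd2⟩ | ⟨e, hd1, hd2⟩
  · have h1 := htr e
    have h3 : L ^ (U - (8 * A + 42)) < e := by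
      refine lt_of_le_of_lt ?_ hd1
      exact pow_le_pow_right₀ hL1 (by omega)
    have he0 : (0 : ℝ) < e := lt_trans (by positivity) h3
    refine ⟨e, ?_, ?_⟩
    · refine lt_of_le_of_lt ?_ h3
      exact pow_le_pow_right₀ hL1 (by omega)
    · have h4 : L ^ (8 * A + 45) ≤ (e : ℝ) ^ η := by
        calc L ^ (8 * A + 45) = L ^ ((8 * A + 45 : ℕ) : ℝ) := (Real.rpow_natCast _ _).symm
          _ ≤ L ^ (((U - (8 * A + 42) : ℕ) : ℝ) * η) := by
              apply Real.rpow_le_rpow_of_exponent_le hL1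
              rw [div_le_iff₀ hη0] at hU₀
              have : ((U₀ : ℕ) : ℝ) ≤ ((U - (8 * A + 42) : ℕ) : ℝ) := by
                have : U₀ ≤ U - (8 * A + 42) := by omega
                exact_mod_cast this
              have e9 : (U₀ : ℝ) * η ≤ ((U - (8 * A + 42) : ℕ) : ℝ) * η := mul_le_mul_of_nonneg_right this hη0.le
              push_cast at hU₀ e9 ⊢
              linarith
          _ = (L ^ (U - (8 * A + 42))) ^ η := by rw [Real.rpow_mul hL0.le, Real.rpow_natCast]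
          _ ≤ (e : ℝ) ^ η := Real.rpow_le_rpow (by positivity) h3.le hη0.le
      rw [Real.rpow_neg he0.le, ← div_eq_mul_inv, div_le_iff₀ (Real.rpow_pos_of_pos he0 _)]
      calc (R.card : ℝ) ≤ L ^ 2 * S2.card := hS2c
        _ ≤ L ^ 2 * (L ^ (8 * A + 43) * (S2.filter (fun s => e ∣ s)).card) := mul_le_mul_of_nonneg_left hd2 (by positivity)
        _ = (S2.filter (fun s => e ∣ s)).card * L ^ (8 * A + 45) := by
            rw [show 8 * A + 45 = 2 + (8 * A + 43) by ring, pow_add]; ring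
        _ ≤ (R.filter (fun q => e ∣ q)).card * (e : ℝ) ^ η := mul_le_mul h1 h4 (by positivity) (Nat.cast_nonneg _)
  · have h1 := htr e
    have h3 : (N : ℝ) ^ (1 / 80 : ℝ) ≤ e := by
      refine le_trans ?_ hd1
      exact rpow_step _ _ _ hN1r (by norm_num)
    have he0 : (0 : ℝ) < e := lt_of_lt_of_le (by positivity) h3
    refine ⟨e, ?_, ?_⟩
    · refine lt_of_lt_of_le ?_ h3
      have : 0 < L ^ C := by positivity
      linarith
    · have h4 : X ^ 5 ≤ (e : ℝ) ^ η := by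
        calc X ^ 5 = (N : ℝ) ^ (((5 : ℕ) : ℝ) * θ) := hXk 5
          _ ≤ (N : ℝ) ^ ((1 / 80 : ℝ) * η) := by
              apply rpow_step _ _ _ hN1r
              push_cast
              linarith
          _ = ((N : ℝ) ^ (1 / 80 : ℝ)) ^ η := Real.rpow_mul hN0.le _ _
          _ ≤ (e : ℝ) ^ η := Real.rpow_le_rpow (by positivity) h3 hη0.le
      have h5 : L ^ 2 ≤ X := (pow_le_pow_right₀ hL1 (by omega)).trans a4
      rw [Real.rpow_neg he0.le, ← div_eq_mul_inv, div_le_iff₀ (Real.rpow_pos_of_pos he0 _)]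
      calc (R.card : ℝ) ≤ L ^ 2 * S2.card := hS2c
        _ ≤ X * (X ^ 4 * (S2.filter (fun s => e ∣ s)).card) :=
            mul_le_mul h5 hd2 (Nat.cast_nonneg _) hX0.le
        _ = (S2.filter (fun s => e ∣ s)).card * X ^ 5 := by ring
        _ ≤ (R.filter (fun q => e ∣ q)).card * (e : ℝ) ^ η := mul_le_mul h1 h4 (by positivity) (Nat.cast_nonneg _)

end Pool.Agent.Y883.T4
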