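import Pool.Agent.Y883.T4.Far

set_option autoImplicit false

/-! Sums with arbitrary bounded weights over the residue classes of large moduli: a large set of moduli
with large sums has many members with a common divisor. -/

namespace Pool.Agent.Y883.T4

open Finset
open Pool.Agent.H807R2.Dav
open Pool.Agent.H373R2.T7 (fz parseval_Icc ev_L' ev_log')
open Pool.Agent.Y883.T3

theorem coreB (A C : ℕ) (η : ℝ) (hη0 : 0 < η) :
    ∃ c U N₀ : ℕ, ∀ N : ℕ, N₀ ≤ N → ∀ f : ℕ → ℝ, FM f N U → ∀ Q : ℕ, 1 ≤ Q → Q ≤ N →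
      ∀ R : Finset ℕ, (∀ q ∈ R, Q ≤ q ∧ q < 2 * Q) → (∀ q ∈ R, BadW f N A Q q) →
      (Q : ℝ) ^ 2 * Real.log N ^ c < R.card * N →
      ∃ d : ℕ, Real.log N ^ C < d ∧ R.card * (d : ℝ) ^ (-η) ≤ ((R.filter (fun q => d ∣ q)).card : ℝ) := by
  classical
  obtain ⟨C₀, hC₀⟩ := exists_nat_ge ((8 * A + 45 : ℝ) / η)
  obtain ⟨C', hC'⟩ : ∃ C', C' = C + C₀ := ⟨_, rfl⟩
  obtain ⟨U, hU⟩ : ∃ U, U = C' + 8 * A + 39 := ⟨_, rfl⟩
  obtain ⟨c, hc⟩ : ∃ c, c = 16 * A + 89 := ⟨_, rfl⟩
  obtain ⟨n3, h3⟩ := ev_L' 100000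
  obtain ⟨n9, h9⟩ := ev_log' (2 * A + 4) 2
  refine ⟨c, U, n3 + n9 + 16, fun N hN f hf Q hQ hQN' R hR hbad hbig => ?_⟩
  have a3 := h3 N (by omega)
  have a9 := h9 N (by omega)
  have hN16 : 16 ≤ N := by omega
  have hN1 : 1 ≤ N := by omega
  have hN0 : (0 : ℝ) < N := by exact_mod_cast hN1
  have hN1r : (1 : ℝ) ≤ N := by exact_mod_cast hN1
  obtain ⟨hf2, hf3, hf4⟩ := hf
  obtain ⟨L, hLd⟩ : ∃ L, L = Real.log (N : ℝ) := ⟨_, rfl⟩
  rw [← hLd] at a3 a9 hf2 hf3 hbig ⊢
  have hL0 : 0 < L := by linarith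
  have hL1 : 1 ≤ L := by linarith
  have hsup : ∀ t, FF f N t ≤ N / L ^ U := fun t => hf3 (-(t : ℝ) / (4 * N : ℕ))
  have hsupN : ∀ t, FF f N t ≤ N := by
    intro t
    refine (hsup t).trans ?_
    exact div_le_self hN0.le (one_le_pow₀ hL1)
  -- numerical facts
  have hlog : ((Nat.log 2 N : ℕ) : ℝ) + 1 ≤ L ^ 2 := by
    have e1 : (Nat.log 2 N : ℝ) ≤ Real.logb 2 N := by
      have := Real.natLog_le_logb N 2
      exact_mod_cast this
    have e2 : Real.logb 2 N ≤ 2 * L := by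
      rw [Real.logb, ← hLd, div_le_iff₀ (Real.log_pos (by norm_num))]
      have h2 : (1 : ℝ) ≤ 2 * Real.log 2 := by linarith [Real.log_two_gt_d9]
      calc L = L * 1 := (mul_one L).symm
        _ ≤ L * (2 * Real.log 2) := mul_le_mul_of_nonneg_left h2 hL0.le
        _ = 2 * L * Real.log 2 := by ring
    have e3 : 3 * L ≤ L * L := mul_le_mul_of_nonneg_right (by linarith) hL0.le
    rw [pow_two]
    linarith
  have hQ0 : (0 : ℝ) < Q := by exact_mod_cast hQ
  have hRQ : (R.card : ℝ) ≤ Q := by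
    have h1 : R ⊆ Ico Q (2 * Q) := by
      intro q hq
      rw [mem_Ico]
      exact hR q hq
    have h2 := card_le_card h1
    rw [Nat.card_Ico] at h2
    have h3 : R.card ≤ Q := by omega
    exact_mod_cast h3
  have hQL : (Q : ℝ) * L ^ c < N := by
    have h1 : (Q : ℝ) * (Q * L ^ c) < Q * N := by
      calc (Q : ℝ) * (Q * L ^ c) = Q ^ 2 * L ^ c := by ring
        _ < R.card * N := hbig
        _ ≤ Q * N := mul_le_mul_of_nonneg_right hRQ hN0.le
    exact lt_of_mul_lt_mul_left h1 hQ0.le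
  obtain ⟨P, hP⟩ : ∃ P, P = N / Q := ⟨_, rfl⟩
  have hP1 : 1 ≤ P := by rw [hP]; exact Nat.div_pos hQN' (by omega)
  have hMN : P * Q ≤ N := by rw [hP]; exact Nat.div_mul_le_self _ _
  have hNM : N < (P + 1) * Q := by
    rw [hP]
    exact Nat.lt_mul_of_div_lt (Nat.lt_succ_self _) (by omega)
  have hNM2 : N ≤ 2 * P * Q := by
    calc N ≤ (P + 1) * Q := hNM.le
      _ ≤ (2 * P) * Q := Nat.mul_le_mul_right _ (by omega)
  have hP0 : (0 : ℝ) < P := by exact_mod_cast hP1
  have hNPQ : (N : ℝ) ≤ 2 * P * Q := by exact_mod_cast hNM2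
  have hTP : 4 * L ^ (8 * A + 44) ≤ P := by
    have e1 : (Q : ℝ) * L ^ c < Q * (2 * P) := by
      calc (Q : ℝ) * L ^ c < N := hQL
        _ ≤ 2 * P * Q := hNPQ
        _ = Q * (2 * P) := by ring
    have e2 := lt_of_mul_lt_mul_left e1 hQ0.le
    have e3 : L * L ^ (8 * A + 44) ≤ L ^ c := by
      rw [← pow_succ']
      exact pow_le_pow_right₀ hL1 (by omega)
    have e4 : 8 * L ^ (8 * A + 44) ≤ L * L ^ (8 * A + 44) :=
      mul_le_mul_of_nonneg_right (by linarith) (by positivity)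
    linarith
  have hpar : Par (4 * N) N Q P 4 (L ^ (8 * A + 44)) :=
    ⟨hQ, hP1, hMN, hNM2, by omega, by push_cast; exact le_rfl, one_le_pow₀ hL1, hTP⟩
  have hlvl : ∀ s ∈ R, ∃ j < Nat.log 2 N + 1, 16 ^ j / (6 * L ^ (8 * A + 24)) ≤
      ((clp (4 * N) P s (L ^ (8 * A + 44)) (lev (FF f N) (4 * N) N j)).card : ℝ) := by
    intro q hq
    have := lvlW N Q q A L hN1 hQ hQN' (hR q hq) f hLd a3 hf2 hsupN (by push_cast; exact hlog) a9 (hbad q hq)
    rw [← hP] at this
    exact this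
  choose! jj hjj using hlvl
  have hSc : (0 : ℝ) < R.card := by
    by_contra h0
    rw [not_lt] at h0
    have h1 : (R.card : ℝ) * N ≤ 0 := mul_nonpos_of_nonpos_of_nonneg h0 hN0.le
    have h2 : 0 ≤ (Q : ℝ) ^ 2 * L ^ c := by positivity
    linarith
  have hJ0 : (0 : ℝ) < ((Nat.log 2 N + 1 : ℕ) : ℝ) := by positivity
  obtain ⟨j, hjJ, hjc⟩ := exists_le_card_fiber_of_nsmul_le_card_of_maps_to (M := ℝ)
    (b := (R.card : ℝ) / ((Nat.log 2 N + 1 : ℕ) : ℝ)) (s := R) (t := range (Nat.log 2 N + 1)) (f := jj)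
    (fun s hs => mem_range.2 (hjj s hs).1) (nonempty_range_iff.2 (by omega)) (by
      rw [card_range, nsmul_eq_mul, mul_div_cancel₀ _ hJ0.ne'])
  obtain ⟨S2, hS2⟩ : ∃ S2, S2 = R.filter (fun s => jj s = j) := ⟨_, rfl⟩
  rw [← hS2] at hjc
  have hS2c : (R.card : ℝ) ≤ L ^ 2 * S2.card := by
    rw [div_le_iff₀ hJ0] at hjc
    refine hjc.trans ?_
    rw [mul_comm]
    apply mul_le_mul_of_nonneg_right _ (Nat.cast_nonneg _)
    push_cast
    exact hlog
  have hS2ne : S2.Nonempty := by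
    rw [← card_pos]
    have : 0 < (R.card : ℝ) / ((Nat.log 2 N + 1 : ℕ) : ℝ) := by positivity
    have : (0 : ℝ) < S2.card := lt_of_lt_of_le this hjc
    exact_mod_cast this
  have hyp : Hyp A N Q P j L (lev (FF f N) (4 * N) N j) S2 := by
    refine ⟨hpar, a3, ?_, lev_card N hN1 f L (by linarith) hf2 j, ?_, ?_⟩
    · intro t ht
      unfold lev at ht
      rw [mem_filter, mem_range] at ht
      exact ht.1
    · intro s hs
      rw [hS2, mem_filter] at hs
      have := hR s hs.1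
      omega
    · intro s hs
      rw [hS2, mem_filter] at hs
      have := (hjj s hs.1).2
      rw [hs.2] at this
      exact this
  have hS2c0 : (0 : ℝ) < S2.card := by exact_mod_cast hS2ne.card_pos
  have hZc := lev_card N hN1 f L (by linarith) hf2 j
  -- the lower bound of the level
  have hlev : L ^ U < 2 ^ (j + 1) := by
    obtain ⟨s, hs⟩ := hS2ne
    have h1 := hyp.hX1 s hs
    have h2 : (lev (FF f N) (4 * N) N j).Nonempty := by
      rw [nonempty_iff_ne_empty]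
      intro h0
      rw [h0] at h1
      unfold clp at h1
      simp at h1
      have : 0 < (16 : ℝ) ^ j / (6 * L ^ (8 * A + 24)) := by positivity
      linarith
    obtain ⟨t, ht⟩ := h2
    unfold lev at ht
    rw [mem_filter] at ht
    have h3 := ht.2.1.trans_le (hsup t)
    rw [div_lt_div_iff₀ (by positivity) (by positivity)] at h3
    exact lt_of_mul_lt_mul_left h3 hN0.le
  have h4j : L ^ (2 * U) ≤ 4 * 4 ^ j := by
    have h1 : (2 : ℝ) ^ (j + 1) * 2 ^ (j + 1) = 4 * 4 ^ j := by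
      rw [← mul_pow, pow_succ]; norm_num; ring
    have h2 : L ^ U * L ^ U ≤ 2 ^ (j + 1) * 2 ^ (j + 1) := mul_le_mul hlev.le hlev.le (by positivity) (by positivity)
    rw [h1, ← pow_add] at h2
    rw [show 2 * U = U + U by ring]
    exact h2
  by_contra hcon
  push Not at hcon
  obtain ⟨z, hz⟩ : ∃ z : ℝ, z = ((lev (FF f N) (4 * N) N j).card : ℝ) := ⟨_, rfl⟩
  have hz0 : 0 ≤ z := by rw [hz]; exact Nat.cast_nonneg _
  rw [← hz] at hZc
  have hz2 : z ^ 2 ≤ L ^ 18 * 16 ^ j := by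
    calc z ^ 2 ≤ (L ^ 9 * 4 ^ j) ^ 2 := pow_le_pow_left₀ hz0 hZc 2
      _ = L ^ 18 * 16 ^ j := by
          rw [mul_pow, ← pow_mul, ← pow_mul, mul_comm j 2, pow_mul 4 2 j]
          norm_num
  have h16 : (0 : ℝ) < 16 ^ j := by positivity
  refine far_case (4 * N) N Q P 4 (L ^ (8 * A + 44)) hpar (lev (FF f N) (4 * N) N j) hyp.hZ S2 hyp.hS hS2ne
    (16 ^ j / (6 * L ^ (8 * A + 24))) (L ^ C') (1 / L ^ (8 * A + 43)) (by positivity) (one_le_pow₀ hL1) hyp.hX1
    (by positivity) ?_ ?_ ?_ ?_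
  · intro d hd
    have hd0 : (0 : ℝ) < d := lt_trans (by positivity) hd
    have h1 : L ^ C < d := lt_of_le_of_lt (pow_le_pow_right₀ hL1 (by omega)) hd
    have h2 := hcon d h1
    have h3 : ((S2.filter (fun s => d ∣ s)).card : ℝ) ≤ ((R.filter (fun q => d ∣ q)).card : ℝ) := by
      have h6 : S2.filter (fun s => d ∣ s) ⊆ R.filter (fun q => d ∣ q) := by
        rw [hS2]
        exact filter_subset_filter _ (filter_subset _ _)
      exact_mod_cast card_le_card h6
    have h4 : (d : ℝ) ^ (-η) ≤ 1 / L ^ (8 * A + 45) := by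
      rw [Real.rpow_neg hd0.le, ← one_div]
      apply one_div_le_one_div_of_le (by positivity)
      calc L ^ (8 * A + 45) = L ^ ((8 * A + 45 : ℕ) : ℝ) := (Real.rpow_natCast _ _).symm
        _ ≤ L ^ ((C' : ℝ) * η) := by
            apply Real.rpow_le_rpow_of_exponent_le hL1
            rw [div_le_iff₀ hη0] at hC₀
            have : (C₀ : ℝ) ≤ C' := by
              have : C₀ ≤ C' := by omega
              exact_mod_cast this
            have e9 : (C₀ : ℝ) * η ≤ (C' : ℝ) * η := mul_le_mul_of_nonneg_right this hη0.le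
            push_cast at hC₀ e9 ⊢
            linarith
        _ = (L ^ C') ^ η := by rw [Real.rpow_mul hL0.le, Real.rpow_natCast]
        _ ≤ (d : ℝ) ^ η := Real.rpow_le_rpow (by positivity) hd.le hη0.le
    have h5 : (R.card : ℝ) * (d : ℝ) ^ (-η) ≤ (L ^ 2 * S2.card) * (1 / L ^ (8 * A + 45)) :=
      mul_le_mul hS2c h4 (by positivity) (by positivity)
    have h6 : (L ^ 2 * (S2.card : ℝ)) * (1 / L ^ (8 * A + 45)) = 1 / L ^ (8 * A + 43) * S2.card := by
      rw [show 8 * A + 45 = 2 + (8 * A + 43) by ring, pow_add]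
      field_simp
    rw [h6] at h5
    exact h3.trans (h2.le.trans h5)
  · -- the generic pairs
    rw [← hz]
    have h1 : (Q : ℝ) ^ 2 * L ^ c < (L ^ 2 * S2.card) * N :=
      hbig.trans_le (mul_le_mul_of_nonneg_right hS2c hN0.le)
    have h2 : (Q : ℝ) / P ≤ 2 * Q ^ 2 / N := by
      rw [div_le_div_iff₀ hP0 hN0]
      nlinarith
    have h3 : (Q : ℝ) ^ 2 / N ≤ S2.card / L ^ (16 * A + 87) := by
      rw [div_le_div_iff₀ hN0 (by positivity)]
      have e1 : L ^ c = L ^ 2 * L ^ (16 * A + 87) := by rw [hc, ← pow_add]; congr 1; ring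
      rw [e1] at h1
      have e2 : L ^ 2 * ((Q : ℝ) ^ 2 * L ^ (16 * A + 87)) ≤ L ^ 2 * (S2.card * N) := by
        refine le_trans (le_of_eq (by ring)) (h1.le.trans (le_of_eq (by ring)))
      exact le_of_mul_le_mul_left e2 (by positivity)
    have h4 : 280 * (Q : ℝ) * L ^ (8 * A + 44) / P ≤ 560 * L ^ (8 * A + 44) * (S2.card / L ^ (16 * A + 87)) := by
      calc 280 * (Q : ℝ) * L ^ (8 * A + 44) / P = 280 * L ^ (8 * A + 44) * (Q / P) := by ring
        _ ≤ 280 * L ^ (8 * A + 44) * (2 * Q ^ 2 / N) := mul_le_mul_of_nonneg_left h2 (by positivity)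
        _ = 560 * L ^ (8 * A + 44) * (Q ^ 2 / N) := by ring
        _ ≤ _ := mul_le_mul_of_nonneg_left h3 (by positivity)
    have h5 : z ^ 2 * (280 * (Q : ℝ) * L ^ (8 * A + 44) / P) ≤
        (L ^ 18 * 16 ^ j) * (560 * L ^ (8 * A + 44) * (S2.card / L ^ (16 * A + 87))) :=
      mul_le_mul hz2 h4 (by positivity) (by positivity)
    refine (mul_le_mul_of_nonneg_left h5 (by norm_num)).trans ?_
    have e1 : 4 * ((L ^ 18 * 16 ^ j) * (560 * L ^ (8 * A + 44) * (S2.card / L ^ (16 * A + 87)))) =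
        (16 ^ j * S2.card) * (2240 * L ^ (8 * A + 62) / L ^ (16 * A + 87)) := by
      rw [show 8 * A + 62 = 18 + (8 * A + 44) by ring, pow_add L 18]
      ring
    have e2 : (16 : ℝ) ^ j / (6 * L ^ (8 * A + 24)) * S2.card = (16 ^ j * S2.card) * (1 / (6 * L ^ (8 * A + 24))) := by
      ring
    rw [e1, e2]
    apply mul_le_mul_of_nonneg_left _ (by positivity)
    rw [div_le_div_iff₀ (by positivity) (by positivity), one_mul]
    calc 2240 * L ^ (8 * A + 62) * (6 * L ^ (8 * A + 24)) = 13440 * L ^ (16 * A + 86) := by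
          rw [show 16 * A + 86 = (8 * A + 62) + (8 * A + 24) by ring, pow_add L (8 * A + 62)]
          ring
      _ ≤ L * L ^ (16 * A + 86) := mul_le_mul_of_nonneg_right (by linarith) (by positivity)
      _ = L ^ (16 * A + 87) := by rw [← pow_succ']
  · rw [← hz]
    have h5 : z ^ 2 * (1 / L ^ (8 * A + 43)) ≤ (L ^ 18 * 16 ^ j) * (1 / L ^ (8 * A + 43)) :=
      mul_le_mul_of_nonneg_right hz2 (by positivity)
    refine (mul_le_mul_of_nonneg_left h5 (by norm_num)).trans ?_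
    have e1 : 4 * ((L ^ 18 * 16 ^ j) * (1 / L ^ (8 * A + 43))) = 16 ^ j * (4 / (L ^ (8 * A + 24) * L)) := by
      have e9 : L ^ (8 * A + 43) = L ^ 18 * L ^ (8 * A + 24) * L := by
        rw [← pow_add, ← pow_succ]
        congr 1
        ring
      rw [e9]
      field_simp
    have e2 : (16 : ℝ) ^ j / (6 * L ^ (8 * A + 24)) = 16 ^ j * (1 / (6 * L ^ (8 * A + 24))) := by ring
    rw [e1, e2]
    apply mul_le_mul_of_nonneg_left _ (by positivity)
    rw [div_le_div_iff₀ (by positivity) (by positivity), one_mul]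
    have e3 : 0 < L ^ (8 * A + 24) := by positivity
    nlinarith
  · rw [← hz]
    have hT1 : 1 ≤ L ^ (8 * A + 44) := one_le_pow₀ hL1
    have e0 : z * (5 * (L ^ C') ^ 2 * (4 * 4 * L ^ (8 * A + 44) + 1)) ≤
        (L ^ 9 * 4 ^ j) * (5 * (L ^ C') ^ 2 * (17 * L ^ (8 * A + 44))) := by
      apply mul_le_mul hZc _ (by positivity) (by positivity)
      apply mul_le_mul_of_nonneg_left _ (by positivity)
      linarith
    refine (mul_le_mul_of_nonneg_left e0 (by norm_num)).trans ?_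
    rw [le_div_iff₀ (by positivity)]
    have e1 : 4 * ((L ^ 9 * 4 ^ j) * (5 * (L ^ C') ^ 2 * (17 * L ^ (8 * A + 44)))) * (6 * L ^ (8 * A + 24)) =
        (2040 * L ^ (2 * C' + 16 * A + 77)) * 4 ^ j := by
      rw [← pow_mul L C' 2, show 2 * C' + 16 * A + 77 = 9 + C' * 2 + (8 * A + 44) + (8 * A + 24) by ring,
        pow_add, pow_add, pow_add]
      ring
    have e2 : (16 : ℝ) ^ j = 4 ^ j * 4 ^ j := by rw [← mul_pow]; norm_num
    rw [e1, e2]
    apply mul_le_mul_of_nonneg_right _ (by positivity)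
    have e3 : L ^ (2 * U) = L * L ^ (2 * C' + 16 * A + 77) := by
      rw [← pow_succ', hU]
      congr 1
      ring
    rw [e3] at h4j
    have e4 : 8160 * L ^ (2 * C' + 16 * A + 77) ≤ L * L ^ (2 * C' + 16 * A + 77) :=
      mul_le_mul_of_nonneg_right (by linarith) (by positivity)
    linarith

end Pool.Agent.Y883.T4
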