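import Mathlib

set_option autoImplicit false

/-! Dividing the members of a sparse set by the divisors of a fixed number. -/

namespace Pool.Agent.Y883.T4

open Finset

/-- the quotients of the members of `D` by the divisors of `a` -/
def divD (a : ℕ) (D : Finset ℕ) : Finset ℕ :=
  D.biUnion (fun e => (a.divisors.filter (· ∣ e)).image (fun g => e / g))

lemma mem_divD {a : ℕ} {D : Finset ℕ} {d : ℕ} : d ∈ divD a D ↔ ∃ e ∈ D, ∃ g ∈ a.divisors, g ∣ e ∧ e / g = d := by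
  unfold divD
  simp only [mem_biUnion, mem_image, mem_filter]
  constructor
  · rintro ⟨e, he, g, ⟨hg, hge⟩, h⟩
    exact ⟨e, he, g, hg, hge, h⟩
  · rintro ⟨e, he, g, hg, hge, h⟩
    exact ⟨e, he, g, ⟨hg, hge⟩, h⟩

lemma divD_lower {a : ℕ} (ha : 1 ≤ a) {D : Finset ℕ} {Lb : ℝ} (h : ∀ e ∈ D, Lb < (e : ℝ)) :
    ∀ d ∈ divD a D, Lb / a < (d : ℝ) := by
  intro d hd
  obtain ⟨e, he, g, hg, hge, rfl⟩ := mem_divD.1 hd
  have ha0 : (0 : ℝ) < a := by exact_mod_cast ha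
  rw [div_lt_iff₀ ha0]
  refine lt_of_lt_of_le (h e he) ?_
  have h1 : e = e / g * g := (Nat.div_mul_cancel hge).symm
  have h2 : g ≤ a := Nat.divisor_le hg
  have h3 : e ≤ e / g * a := by
    calc e = e / g * g := h1
      _ ≤ e / g * a := Nat.mul_le_mul_left _ h2
  exact_mod_cast h3

lemma divD_dvd {a : ℕ} (ha : 1 ≤ a) {D : Finset ℕ} {q : ℕ} (h : ∀ d ∈ divD a D, ¬ d ∣ q) :
    ∀ e ∈ D, ¬ e ∣ a * q := by
  intro e he hdvd
  obtain ⟨g, hg⟩ : ∃ g, g = Nat.gcd e a := ⟨_, rfl⟩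
  have hga : g ∣ a := by rw [hg]; exact Nat.gcd_dvd_right _ _
  have hge : g ∣ e := by rw [hg]; exact Nat.gcd_dvd_left _ _
  have hg0 : 0 < g := Nat.pos_of_dvd_of_pos hga ha
  apply h (e / g) (mem_divD.2 ⟨e, he, g, Nat.mem_divisors.2 ⟨hga, by omega⟩, hge, rfl⟩)
  have h1 : Nat.Coprime (e / g) (a / g) := by
    rw [hg]
    exact Nat.coprime_div_gcd_div_gcd (by rw [← hg]; exact hg0)
  have h2 : e / g ∣ a / g * q := by
    have h3 : g * (e / g) ∣ g * (a / g * q) := by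
      rw [Nat.mul_div_cancel' hge, ← mul_assoc, Nat.mul_div_cancel' hga]
      exact hdvd
    exact Nat.dvd_of_mul_dvd_mul_left hg0 h3
  exact h1.dvd_of_dvd_mul_left h2

lemma divD_card {a : ℕ} (ha : 1 ≤ a) {D : Finset ℕ} {Lb ρ : ℝ} (hρ : 0 < ρ) (hLb0 : 0 < Lb)
    (h : ∀ e ∈ D, Lb < (e : ℝ))
    (hc : ∀ X : ℝ, 1 ≤ X → ((D.filter (fun d : ℕ => (d : ℝ) ≤ X)).card : ℝ) ≤ X ^ (ρ / 2))
    (hL : (a : ℝ) * (a : ℝ) ^ (ρ / 2) ≤ (Lb / a) ^ (ρ / 2)) :
    ∀ X : ℝ, 1 ≤ X → (((divD a D).filter (fun d : ℕ => (d : ℝ) ≤ X)).card : ℝ) ≤ X ^ ρ := by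
  intro X hX
  have ha0 : (0 : ℝ) < a := by exact_mod_cast ha
  have ha1 : (1 : ℝ) ≤ a := by exact_mod_cast ha
  rcases ((divD a D).filter (fun d : ℕ => (d : ℝ) ≤ X)).eq_empty_or_nonempty with h0 | ⟨d, hd⟩
  · rw [h0, card_empty, Nat.cast_zero]
    exact Real.rpow_nonneg (by linarith) _
  have hXL : Lb / a ≤ X := by
    rw [mem_filter] at hd
    exact ((divD_lower ha h d hd.1).le).trans hd.2
  have hsub : (divD a D).filter (fun d : ℕ => (d : ℝ) ≤ X) ⊆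
      a.divisors.biUnion (fun g => (D.filter (fun e : ℕ => (e : ℝ) ≤ a * X)).image (fun e => e / g)) := by
    intro d hd
    rw [mem_filter] at hd
    obtain ⟨hd1, hd2⟩ := hd
    obtain ⟨e, he, g, hg, hge, rfl⟩ := mem_divD.1 hd1
    rw [mem_biUnion]
    refine ⟨g, hg, ?_⟩
    rw [mem_image]
    refine ⟨e, ?_, rfl⟩
    rw [mem_filter]
    refine ⟨he, ?_⟩
    have h1 : e = e / g * g := (Nat.div_mul_cancel hge).symm
    have h2 : g ≤ a := Nat.divisor_le hg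
    have h3 : e ≤ e / g * a := by
      calc e = e / g * g := h1
        _ ≤ e / g * a := Nat.mul_le_mul_left _ h2
    have h4 : (e : ℝ) ≤ ((e / g : ℕ) : ℝ) * a := by exact_mod_cast h3
    calc (e : ℝ) ≤ ((e / g : ℕ) : ℝ) * a := h4
      _ ≤ X * a := mul_le_mul_of_nonneg_right hd2 ha0.le
      _ = a * X := mul_comm _ _
  have h1 := (card_le_card hsub).trans card_biUnion_le
  have h2 : (((divD a D).filter (fun d : ℕ => (d : ℝ) ≤ X)).card : ℝ) ≤
      ∑ g ∈ a.divisors, (((D.filter (fun e : ℕ => (e : ℝ) ≤ a * X)).image (fun e => e / g)).card : ℝ) := by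
    exact_mod_cast h1
  refine h2.trans ?_
  have h3 : ∀ g ∈ a.divisors, (((D.filter (fun e : ℕ => (e : ℝ) ≤ a * X)).image (fun e => e / g)).card : ℝ) ≤
      (a * X) ^ (ρ / 2) := by
    intro g _
    refine le_trans ?_ (hc (a * X) (one_le_mul_of_one_le_of_one_le ha1 hX))
    exact_mod_cast card_image_le
  refine (sum_le_sum h3).trans ?_
  rw [sum_const, nsmul_eq_mul]
  have h4 : ((a.divisors.card : ℕ) : ℝ) ≤ a := by exact_mod_cast Nat.card_divisors_le_self a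
  have hX0 : 0 < X := by linarith
  calc ((a.divisors.card : ℕ) : ℝ) * (a * X) ^ (ρ / 2) ≤ a * (a * X) ^ (ρ / 2) :=
        mul_le_mul_of_nonneg_right h4 (by positivity)
    _ = (a * (a : ℝ) ^ (ρ / 2)) * X ^ (ρ / 2) := by rw [Real.mul_rpow ha0.le hX0.le]; ring
    _ ≤ X ^ (ρ / 2) * X ^ (ρ / 2) := by
        apply mul_le_mul_of_nonneg_right _ (by positivity)
        refine hL.trans ?_
        exact Real.rpow_le_rpow (by positivity) hXL (by positivity)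
    _ = X ^ ρ := by rw [← Real.rpow_add hX0]; ring_nf

end Pool.Agent.Y883.T4
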