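import Pool.Agent.Y883.T4.VinMu
import Pool.Agent.Y883.T4.Core
import Pool.Agent.H373R2.T7.SupLiou

set_option autoImplicit false

/-! The Moebius function and the Liouville function satisfy the hypotheses of the method. -/

namespace Pool.Agent.Y883.T4

open Finset
open Pool.Agent.H807R2.Dav
open Pool.Agent.H373R2.T7
open Pool.Agent.Y883.T3

theorem rat_mu : ∃ N0 : ℕ, ∀ N : ℕ, N0 ≤ N → ∀ K : ℝ, 1 ≤ K → K ≤ (N : ℝ) ^ (9 / 50 : ℝ) → ∀ α : ℝ,
    N / K < ‖∑ n ∈ Icc 1 N, (((ArithmeticFunction.moebius n : ℤ) : ℝ) : ℂ) * ee ((n : ℝ) * α)‖ →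
    ∃ x : ℚ, (x.den : ℝ) ≤ K ^ 2 * Real.log N ^ 13 ∧
      |α - x| ≤ K ^ 2 * Real.log N ^ 13 / (x.den * N) := by
  obtain ⟨n1, h1⟩ := vin_pow_mu
  obtain ⟨n2, h2⟩ := ev_log_rpow 13 1 (1 / 50) (by norm_num)
  obtain ⟨n3, h3⟩ := ev_L' 1
  refine ⟨n1 + n2 + n3 + 16, fun N hN K hK1 hK2 α hbig => ?_⟩
  have a1 := h1 N (by omega) K hK1 hK2
  have a2 := h2 N (by omega)
  have a3 := h3 N (by omega)
  have hN16 : (16 : ℝ) ≤ N := by exact_mod_cast (by omega : 16 ≤ N)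
  have hN0 : (0 : ℝ) < N := by linarith
  obtain ⟨L, hLd⟩ : ∃ L, L = Real.log (N : ℝ) := ⟨_, rfl⟩
  rw [← hLd] at a1 a2 a3 ⊢
  have hL0 : 0 < L := by linarith
  have hK0 : 0 < K := by linarith
  obtain ⟨Y, hY⟩ : ∃ Y, Y = K ^ 2 * L ^ 13 := ⟨_, rfl⟩
  rw [← hY] at a1 ⊢
  have hY1 : 1 ≤ Y := by
    rw [hY]
    exact one_le_mul_of_one_le_of_one_le (one_le_pow₀ hK1) (one_le_pow₀ a3)
  have hY0 : 0 < Y := by linarith
  have hYN : Y ≤ N := by
    rw [one_mul] at a2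
    calc Y = K ^ 2 * L ^ 13 := hY
      _ ≤ ((N : ℝ) ^ (9 / 50 : ℝ)) ^ 2 * (N : ℝ) ^ (1 / 50 : ℝ) := by gcongr
      _ = (N : ℝ) ^ (19 / 50 : ℝ) := by
          rw [← Real.rpow_natCast, ← Real.rpow_mul hN0.le, ← Real.rpow_add hN0]
          norm_num
      _ ≤ (N : ℝ) ^ (1 : ℝ) := Real.rpow_le_rpow_of_exponent_le (by linarith) (by norm_num)
      _ = N := Real.rpow_one _
  obtain ⟨n0, hn0⟩ : ∃ n0, n0 = ⌊(N : ℝ) / Y⌋₊ := ⟨_, rfl⟩
  have hn0pos : 0 < n0 := by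
    rw [hn0]
    apply Nat.floor_pos.2
    rw [le_div_iff₀ hY0, one_mul]
    exact hYN
  have hn0le : (n0 : ℝ) ≤ N / Y := by rw [hn0]; exact Nat.floor_le (by positivity)
  have hn0lt : (N : ℝ) / Y < n0 + 1 := by rw [hn0]; exact Nat.lt_floor_add_one _
  obtain ⟨x, hx1, hx2⟩ := Real.exists_rat_abs_sub_le_and_den_le α hn0pos
  have hden0 : (0 : ℝ) < x.den := by exact_mod_cast x.den_pos
  have hclose : |α - x| ≤ Y / (x.den * N) := by
    refine hx1.trans ?_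
    rw [div_le_div_iff₀ (by positivity) (by positivity), one_mul]
    rw [div_lt_iff₀ hY0] at hn0lt
    calc (x.den : ℝ) * N ≤ x.den * ((n0 + 1) * Y) := mul_le_mul_of_nonneg_left hn0lt.le hden0.le
      _ = Y * ((n0 + 1) * x.den) := by ring
  refine ⟨x, ?_, hclose⟩
  by_contra hcon
  rw [not_le] at hcon
  have hxn0 : (x.den : ℝ) ≤ n0 := by exact_mod_cast hx2
  have hcop : IsCoprime x.num (x.den : ℤ) := by
    rw [Int.isCoprime_iff_gcd_eq_one]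
    have := x.reduced
    unfold Nat.Coprime at this
    rw [Int.gcd_def]
    simpa using this
  have hsq : |α - x.num / (x.den : ℕ)| ≤ 1 / ((x.den : ℕ) : ℝ) ^ 2 := by
    have e1 : (x : ℝ) = x.num / (x.den : ℕ) := Rat.cast_def x
    rw [← e1]
    refine hx1.trans ?_
    rw [div_le_div_iff₀ (by positivity) (by positivity), one_mul, one_mul, pow_two]
    apply mul_le_mul_of_nonneg_right _ hden0.le
    linarith
  have := a1 x.den hcon.le (hxn0.trans hn0le) x.num hcop α hsq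
  linarith

/-- the Moebius function -/
theorem fm_mu (U : ℕ) : ∃ N0 : ℕ, ∀ N : ℕ, N0 ≤ N →
    FM (fun n => ((ArithmeticFunction.moebius n : ℤ) : ℝ)) N U := by
  obtain ⟨n1, h1⟩ := sup_mu U
  obtain ⟨n2, h2⟩ := rat_mu
  obtain ⟨n3, h3⟩ := ev_L' 1
  refine ⟨n1 + n2 + n3 + 16, fun N hN => ⟨?_, h1 N (by omega), fun K hK1 hK2 α hbig => ?_⟩⟩
  · have a3 := h3 N (by omega)
    calc ∑ n ∈ Icc 1 N, (((ArithmeticFunction.moebius n : ℤ) : ℝ)) ^ 2 ≤ ∑ _n ∈ Icc 1 N, (1 : ℝ) := by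
          apply sum_le_sum
          intro n _
          have := muR_abs n
          unfold muR at this
          rw [← sq_abs]
          exact pow_le_one₀ (abs_nonneg _) this
      _ = N * 1 := by rw [sum_const, Nat.card_Icc, nsmul_eq_mul, Nat.add_sub_cancel]
      _ ≤ N * Real.log N ^ 8 := by
          apply mul_le_mul_of_nonneg_left _ (Nat.cast_nonneg _)
          exact one_le_pow₀ a3
  · have a3 := h3 N (by omega)
    have hN1 : (1 : ℝ) ≤ N := by exact_mod_cast (by omega : 1 ≤ N)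
    obtain ⟨x, hx1, hx2⟩ := h2 N (by omega) K hK1
      (hK2.trans (Real.rpow_le_rpow_of_exponent_le hN1 (by norm_num))) α hbig
    have hden0 : (0 : ℝ) < x.den := by exact_mod_cast x.den_pos
    have e1 : K ^ 2 * Real.log N ^ 13 ≤ K ^ 2 * Real.log N ^ 18 := by
      apply mul_le_mul_of_nonneg_left _ (by positivity)
      exact pow_le_pow_right₀ a3 (by norm_num)
    exact ⟨x, hx1.trans e1, hx2.trans (div_le_div_of_nonneg_right e1 (by positivity))⟩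

theorem rat_liou : ∃ N0 : ℕ, ∀ N : ℕ, N0 ≤ N → ∀ K : ℝ, 1 ≤ K → K ≤ (N : ℝ) ^ (17 / 100 : ℝ) → ∀ α : ℝ,
    N / K < ‖∑ n ∈ Icc 1 N, liR n * ee ((n : ℝ) * α)‖ →
    ∃ x : ℚ, (x.den : ℝ) ≤ K ^ 2 * Real.log N ^ 18 ∧
      |α - x| ≤ K ^ 2 * Real.log N ^ 18 / (x.den * N) := by
  obtain ⟨n1, h1⟩ := rat_mu
  obtain ⟨n2, h2⟩ := ev_log_rpow 1 18 (1 / 100) (by norm_num)
  obtain ⟨n3, h3⟩ := ev_L' 4
  refine ⟨n1 * n1 + n2 + n3 + 16, fun N hN K hK1 hK2 α hbig => ?_⟩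
  have a2 := h2 N (by omega)
  have a3 := h3 N (by omega)
  have hN16 : (16 : ℝ) ≤ N := by exact_mod_cast (by omega : 16 ≤ N)
  have hN0 : (0 : ℝ) < N := by linarith
  have hn1N : n1 * n1 ≤ N := by omega
  obtain ⟨L, hLd⟩ : ∃ L, L = Real.log (N : ℝ) := ⟨_, rfl⟩
  rw [← hLd] at a2 a3 ⊢
  rw [pow_one] at a2
  have hL0 : 0 < L := by linarith
  have hK0 : 0 < K := by linarith
  obtain ⟨D, hD⟩ : ∃ D, D = ⌈2 * K⌉₊ := ⟨_, rfl⟩
  have hD1 : 2 * K ≤ D := by rw [hD]; exact Nat.le_ceil _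
  have hD2 : (D : ℝ) ≤ 3 * K := by
    have := (Nat.ceil_lt_add_one (by positivity : (0 : ℝ) ≤ 2 * K)).le
    rw [← hD] at this
    linarith
  have hDpos : 1 ≤ D := by
    have : (1 : ℝ) ≤ D := by linarith
    exact_mod_cast this
  have hD0 : (0 : ℝ) < D := by linarith
  -- the size of D
  have hKq : 18 * K ^ 2 ≤ √(N : ℝ) := by
    have e1 : (18 : ℝ) ≤ (N : ℝ) ^ (1 / 100 : ℝ) := by
      refine le_trans ?_ a2
      nlinarith
    have e2 : K ^ 2 ≤ (N : ℝ) ^ (34 / 100 : ℝ) := by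
      calc K ^ 2 ≤ ((N : ℝ) ^ (17 / 100 : ℝ)) ^ 2 := pow_le_pow_left₀ hK0.le hK2 2
        _ = (N : ℝ) ^ (34 / 100 : ℝ) := by
            rw [← Real.rpow_natCast, ← Real.rpow_mul hN0.le]
            norm_num
    rw [Real.sqrt_eq_rpow]
    calc 18 * K ^ 2 ≤ (N : ℝ) ^ (1 / 100 : ℝ) * (N : ℝ) ^ (34 / 100 : ℝ) := by gcongr
      _ = (N : ℝ) ^ (35 / 100 : ℝ) := by rw [← Real.rpow_add hN0]; norm_num
      _ ≤ (N : ℝ) ^ (1 / 2 : ℝ) := Real.rpow_le_rpow_of_exponent_le (by linarith) (by norm_num)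
  have hsq : √(N : ℝ) * √(N : ℝ) = N := Real.mul_self_sqrt hN0.le
  have hsq1 : 1 ≤ √(N : ℝ) := by
    rw [Real.one_le_sqrt]; linarith
  have hDsq : 2 * (D : ℝ) ^ 2 ≤ √(N : ℝ) := by
    calc 2 * (D : ℝ) ^ 2 ≤ 2 * (3 * K) ^ 2 := by gcongr
      _ = 18 * K ^ 2 := by ring
      _ ≤ _ := hKq
  have hDN : (D : ℝ) ≤ N := by
    have e1 : (1 : ℝ) ≤ D := by exact_mod_cast hDpos
    have e2 : √(N : ℝ) ≤ N := by nlinarith
    nlinarith
  rw [liou_split] at hbig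
  obtain ⟨I, hI⟩ : ∃ I : ℕ → ℂ, I = fun d => ∑ m ∈ Icc 1 (N / d ^ 2), muC m * ee ((m : ℝ) * ((d : ℝ) ^ 2 * α)) := ⟨_, rfl⟩
  have hbig' : (N : ℝ) / K < ‖∑ d ∈ Icc 1 N, I d‖ := by rw [hI]; exact hbig
  have htriv : ∀ d : ℕ, 1 ≤ d → ‖I d‖ ≤ N * ((d : ℝ) ^ 2)⁻¹ := by
    intro d hd
    rw [hI]
    refine (norm_sum_le _ _).trans ?_
    have : ∀ m ∈ Icc 1 (N / d ^ 2), ‖muC m * ee ((m : ℝ) * ((d : ℝ) ^ 2 * α))‖ ≤ 1 := by
      intro m _
      rw [norm_mul, norm_ee, mul_one]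
      exact muC_norm m
    refine (sum_le_sum this).trans ?_
    rw [sum_const, Nat.card_Icc, nsmul_eq_mul, mul_one, Nat.add_sub_cancel]
    have := Nat.cast_div_le (α := ℝ) (m := N) (n := d ^ 2)
    push_cast at this
    rw [← div_eq_mul_inv]
    exact this
  have hsplit : ∑ d ∈ Icc 1 N, ‖I d‖ ≤ ∑ d ∈ Icc 1 D, ‖I d‖ + ∑ d ∈ Ioc D (N + D), ‖I d‖ := by
    rw [← sum_union (by
      rw [disjoint_left]; intro n hn hn'
      rw [mem_Icc] at hn; rw [mem_Ioc] at hn'; omega)]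
    apply sum_le_sum_of_subset_of_nonneg
    · intro d hd
      rw [mem_Icc] at hd
      rw [mem_union, mem_Icc, mem_Ioc]
      omega
    · intro _ _ _; exact norm_nonneg _
  have hB : ∑ d ∈ Ioc D (N + D), ‖I d‖ ≤ N / (2 * K) := by
    have h2 : ∑ d ∈ Ioc D (N + D), ‖I d‖ ≤ ∑ d ∈ Ioc D (N + D), N * ((d : ℝ) ^ 2)⁻¹ := by
      apply sum_le_sum
      intro d hd
      rw [mem_Ioc] at hd
      exact htriv d (by omega)
    refine h2.trans ?_
    rw [← mul_sum]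
    have h3 := sum_Ioc_inv_sq_le_sub (α := ℝ) (k := D) (n := N + D) (by omega) (by omega)
    have h4 : (0 : ℝ) ≤ ((N + D : ℕ) : ℝ)⁻¹ := by positivity
    calc (N : ℝ) * ∑ d ∈ Ioc D (N + D), ((d : ℝ) ^ 2)⁻¹ ≤ N * (D : ℝ)⁻¹ := by
          apply mul_le_mul_of_nonneg_left _ hN0.le
          linarith
      _ ≤ N * (2 * K)⁻¹ := by
          apply mul_le_mul_of_nonneg_left _ hN0.le
          exact inv_anti₀ (by positivity) hD1
      _ = _ := by rw [div_eq_mul_inv]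
  have hhalf : (N : ℝ) / K = N / (2 * K) + N / (2 * K) := by field_simp; norm_num
  have hA : (N : ℝ) / (2 * K) < ∑ d ∈ Icc 1 D, ‖I d‖ := by
    have := norm_sum_le (Icc 1 N) I
    linarith
  -- a large term
  obtain ⟨d, hd, hdbig⟩ : ∃ d ∈ Icc 1 D, (N : ℝ) / (4 * K * L * d) < ‖I d‖ := by
    by_contra hcon
    push Not at hcon
    have h2 : ∑ d ∈ Icc 1 D, ‖I d‖ ≤ ∑ d ∈ Icc 1 D, (N : ℝ) / (4 * K * L) * (1 / (d : ℝ)) := by
      apply sum_le_sum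
      intro d hd
      refine (hcon d hd).trans (le_of_eq ?_)
      rw [div_mul_div_comm, mul_one]
    rw [← mul_sum] at h2
    have h3 : ∑ d ∈ Icc 1 D, 1 / (d : ℝ) ≤ 1 + Real.log D := by
      have := harmonic_le_one_add_log D
      rw [harmonic_eq_sum_Icc] at this
      push_cast at this
      simpa [one_div] using this
    have h4 : 1 + Real.log D ≤ 2 * L := by
      have := Real.log_le_log hD0 hDN
      rw [← hLd] at this
      linarith
    have h5 : (N : ℝ) / (4 * K * L) * ∑ d ∈ Icc 1 D, 1 / (d : ℝ) ≤ N / (4 * K * L) * (2 * L) := by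
      apply mul_le_mul_of_nonneg_left (h3.trans h4) (by positivity)
    have h6 : (N : ℝ) / (4 * K * L) * (2 * L) = N / (2 * K) := by field_simp; norm_num
    linarith
  rw [mem_Icc] at hd
  have hd0 : (0 : ℝ) < d := by exact_mod_cast hd.1
  have hd1 : (1 : ℝ) ≤ d := by exact_mod_cast hd.1
  have hdD : (d : ℝ) ≤ D := by exact_mod_cast hd.2
  have hdr : (d : ℝ) ^ 2 ≤ D ^ 2 := by gcongr
  obtain ⟨M, hM⟩ : ∃ M, M = N / d ^ 2 := ⟨_, rfl⟩
  have hd2pos : 0 < d ^ 2 := pow_pos (by omega) 2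
  have hMN : M ≤ N := by rw [hM]; exact Nat.div_le_self _ _
  have hMle : (M : ℝ) ≤ N / (d : ℝ) ^ 2 := by
    have := Nat.cast_div_le (α := ℝ) (m := N) (n := d ^ 2)
    push_cast at this
    rw [hM]
    exact this
  have hMlt : (N : ℝ) / (d : ℝ) ^ 2 < M + 1 := by
    rw [div_lt_iff₀ (by positivity)]
    have h3 : N < (M + 1) * d ^ 2 := by
      rw [hM]
      exact Nat.lt_mul_of_div_lt (Nat.lt_succ_self _) hd2pos
    exact_mod_cast h3
  have h4 : 2 * √(N : ℝ) ≤ (N : ℝ) / (d : ℝ) ^ 2 := by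
    rw [le_div_iff₀ (by positivity)]
    calc 2 * √(N : ℝ) * (d : ℝ) ^ 2 ≤ 2 * √(N : ℝ) * D ^ 2 := by gcongr
      _ = √(N : ℝ) * (2 * (D : ℝ) ^ 2) := by ring
      _ ≤ √(N : ℝ) * √(N : ℝ) := by gcongr
      _ = N := hsq
  have hMlow : √(N : ℝ) ≤ M := by linarith
  have hMhalf : (N : ℝ) / (2 * (d : ℝ) ^ 2) ≤ M := by
    have e1 : (N : ℝ) / (2 * (d : ℝ) ^ 2) = (N : ℝ) / (d : ℝ) ^ 2 / 2 := by field_simp
    rw [e1]
    linarith
  have hM0 : (0 : ℝ) < M := by linarith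
  have hMn1 : n1 ≤ M := by
    have h5 : (n1 : ℝ) ≤ √(N : ℝ) := by
      apply Real.le_sqrt_of_sq_le
      have : ((n1 * n1 : ℕ) : ℝ) ≤ N := by exact_mod_cast hn1N
      push_cast at this
      rw [pow_two]; exact this
    have h3 : (n1 : ℝ) ≤ M := h5.trans hMlow
    exact_mod_cast h3
  obtain ⟨K', hK'⟩ : ∃ K', K' = 4 * K * L / d := ⟨_, rfl⟩
  have hK'1 : 1 ≤ K' := by
    rw [hK', le_div_iff₀ hd0]
    nlinarith
  have hK'0 : 0 < K' := by linarith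
  have hK'2 : K' ≤ (M : ℝ) ^ (9 / 50 : ℝ) := by
    have e1 : (N : ℝ) ^ (9 / 50 : ℝ) / (2 * d) ≤ (M : ℝ) ^ (9 / 50 : ℝ) := by
      calc (N : ℝ) ^ (9 / 50 : ℝ) / (2 * d) ≤ (N : ℝ) ^ (9 / 50 : ℝ) / (2 * (d : ℝ) ^ 2) ^ (9 / 50 : ℝ) := by
            apply div_le_div_of_nonneg_left (by positivity) (by positivity)
            have e2 : (1 : ℝ) ≤ 2 * (d : ℝ) ^ 2 := by nlinarith
            calc (2 * (d : ℝ) ^ 2) ^ (9 / 50 : ℝ) ≤ (2 * (d : ℝ) ^ 2) ^ (1 / 2 : ℝ) :=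
                  Real.rpow_le_rpow_of_exponent_le e2 (by norm_num)
              _ = √(2 * (d : ℝ) ^ 2) := by rw [Real.sqrt_eq_rpow]
              _ ≤ √((2 * (d : ℝ)) ^ 2) := by
                  apply Real.sqrt_le_sqrt
                  nlinarith
              _ = 2 * d := Real.sqrt_sq (by positivity)
        _ = ((N : ℝ) / (2 * (d : ℝ) ^ 2)) ^ (9 / 50 : ℝ) := by
            rw [Real.div_rpow hN0.le (by positivity)]
        _ ≤ (M : ℝ) ^ (9 / 50 : ℝ) := Real.rpow_le_rpow (by positivity) hMhalf (by norm_num)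
    refine le_trans ?_ e1
    rw [hK', div_le_div_iff₀ hd0 (by positivity)]
    have e3 : 8 * K * L ≤ (N : ℝ) ^ (9 / 50 : ℝ) := by
      calc 8 * K * L = K * (8 * L) := by ring
        _ ≤ (N : ℝ) ^ (17 / 100 : ℝ) * (N : ℝ) ^ (1 / 100 : ℝ) := by
            apply mul_le_mul hK2 _ (by positivity) (by positivity)
            linarith
        _ = (N : ℝ) ^ (9 / 50 : ℝ) := by rw [← Real.rpow_add hN0]; norm_num
    calc 4 * K * L * (2 * d) = (8 * K * L) * d := by ring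
      _ ≤ (N : ℝ) ^ (9 / 50 : ℝ) * d := mul_le_mul_of_nonneg_right e3 hd0.le
  have hbigM : (M : ℝ) / K' < ‖∑ n ∈ Icc 1 M, (((ArithmeticFunction.moebius n : ℤ) : ℝ) : ℂ) * ee ((n : ℝ) * ((d : ℝ) ^ 2 * α))‖ := by
    have e1 : (M : ℝ) / K' ≤ N / (4 * K * L * d) := by
      rw [hK']
      calc (M : ℝ) / (4 * K * L / d) ≤ (N / (d : ℝ) ^ 2) / (4 * K * L / d) := by gcongr
        _ = N / (4 * K * L * d) := by field_simp
    refine lt_of_le_of_lt e1 (lt_of_lt_of_le hdbig (le_of_eq ?_))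
    rw [hI, hM]
    simp only [muC]
    push_cast
    rfl
  obtain ⟨x, hx1, hx2⟩ := h1 M hMn1 K' hK'1 hK'2 ((d : ℝ) ^ 2 * α) hbigM
  have hlogM : Real.log M ≤ L := by
    rw [hLd]
    exact Real.log_le_log hM0 (by exact_mod_cast hMN)
  have hlogM0 : 0 ≤ Real.log M := Real.log_natCast_nonneg M
  have hlog13 : Real.log M ^ 13 ≤ L ^ 13 := pow_le_pow_left₀ hlogM0 hlogM 13
  have hxden0 : (0 : ℝ) < x.den := by exact_mod_cast x.den_pos
  -- the rational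
  obtain ⟨x', hx'⟩ : ∃ x' : ℚ, x' = x * ((d ^ 2 : ℕ) : ℚ)⁻¹ := ⟨_, rfl⟩
  have hden : (x'.den : ℝ) ≤ x.den * (d : ℝ) ^ 2 := by
    have e1 : x'.den ∣ x.den * (((d ^ 2 : ℕ) : ℚ)⁻¹).den := by
      rw [hx']; exact Rat.mul_den_dvd _ _
    rw [Rat.inv_natCast_den_of_pos hd2pos] at e1
    have e2 : x'.den ≤ x.den * d ^ 2 := Nat.le_of_dvd (Nat.mul_pos x.den_pos hd2pos) e1
    exact_mod_cast e2
  have hx'den0 : (0 : ℝ) < x'.den := by exact_mod_cast x'.den_pos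
  have hx'r : (x' : ℝ) = x / (d : ℝ) ^ 2 := by
    rw [hx']; push_cast; rw [div_eq_mul_inv]
  have hK'd : K' ^ 2 * (d : ℝ) ^ 2 = 16 * K ^ 2 * L ^ 2 := by
    rw [hK']; field_simp; norm_num
  have hL32 : 32 ≤ L ^ 3 := by
    calc (32 : ℝ) ≤ 4 ^ 3 := by norm_num
      _ ≤ L ^ 3 := pow_le_pow_left₀ (by norm_num) a3 3
  have hL15 : 32 * K ^ 2 * L ^ 15 ≤ K ^ 2 * L ^ 18 := by
    calc 32 * K ^ 2 * L ^ 15 = 32 * (K ^ 2 * L ^ 15) := by ring
      _ ≤ L ^ 3 * (K ^ 2 * L ^ 15) := mul_le_mul_of_nonneg_right hL32 (by positivity)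
      _ = K ^ 2 * L ^ 18 := by ring
  refine ⟨x', ?_, ?_⟩
  · calc (x'.den : ℝ) ≤ x.den * (d : ℝ) ^ 2 := hden
      _ ≤ (K' ^ 2 * L ^ 13) * (d : ℝ) ^ 2 := by
          apply mul_le_mul_of_nonneg_right _ (by positivity)
          exact hx1.trans (mul_le_mul_of_nonneg_left hlog13 (by positivity))
      _ = (K' ^ 2 * (d : ℝ) ^ 2) * L ^ 13 := by ring
      _ = 16 * K ^ 2 * L ^ 15 := by rw [hK'd]; ring
      _ ≤ 32 * K ^ 2 * L ^ 15 := by
          have : 0 ≤ K ^ 2 * L ^ 15 := by positivity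
          linarith
      _ ≤ K ^ 2 * L ^ 18 := hL15
  · have e1 : |α - x'| = |(d : ℝ) ^ 2 * α - x| / (d : ℝ) ^ 2 := by
      rw [hx'r]
      have e2 : α - x / (d : ℝ) ^ 2 = ((d : ℝ) ^ 2 * α - x) / (d : ℝ) ^ 2 := by field_simp
      rw [e2, abs_div, abs_of_pos (show (0 : ℝ) < (d : ℝ) ^ 2 by positivity)]
    rw [e1]
    calc |(d : ℝ) ^ 2 * α - x| / (d : ℝ) ^ 2 ≤ (K' ^ 2 * L ^ 13 / (x.den * M)) / (d : ℝ) ^ 2 := by
          apply div_le_div_of_nonneg_right _ (by positivity)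
          refine hx2.trans ?_
          apply div_le_div_of_nonneg_right _ (by positivity)
          exact mul_le_mul_of_nonneg_left hlog13 (by positivity)
      _ ≤ (K' ^ 2 * L ^ 13 / (x.den * (N / (2 * (d : ℝ) ^ 2)))) / (d : ℝ) ^ 2 := by
          apply div_le_div_of_nonneg_right _ (by positivity)
          apply div_le_div_of_nonneg_left (by positivity) (by positivity)
          exact mul_le_mul_of_nonneg_left hMhalf hxden0.le
      _ = 2 * (K' ^ 2 * (d : ℝ) ^ 2) * L ^ 13 / ((x.den * (d : ℝ) ^ 2) * N) := by field_simp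
      _ = 32 * K ^ 2 * L ^ 15 / ((x.den * (d : ℝ) ^ 2) * N) := by rw [hK'd]; ring_nf
      _ ≤ 32 * K ^ 2 * L ^ 15 / (x'.den * N) := by
          apply div_le_div_of_nonneg_left (by positivity) (by positivity)
          exact mul_le_mul_of_nonneg_right hden hN0.le
      _ ≤ K ^ 2 * L ^ 18 / (x'.den * N) := div_le_div_of_nonneg_right hL15 (by positivity)

/-- the Liouville function as a real function -/
noncomputable def liou (n : ℕ) : ℝ := (-1 : ℝ) ^ (ArithmeticFunction.cardFactors n)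

lemma liou_cast (n : ℕ) : ((liou n : ℝ) : ℂ) = liR n := by
  unfold liou liR
  push_cast
  rfl

lemma liou_abs (n : ℕ) : |liou n| = 1 := by
  unfold liou
  rw [abs_pow, abs_neg, abs_one, one_pow]

/-- the Liouville function -/
theorem fm_liou (U : ℕ) : ∃ N0 : ℕ, ∀ N : ℕ, N0 ≤ N → FM liou N U := by
  obtain ⟨n1, h1⟩ := sup_liou U
  obtain ⟨n2, h2⟩ := rat_liou
  obtain ⟨n3, h3⟩ := ev_L' 1
  refine ⟨n1 + n2 + n3 + 16, fun N hN => ⟨?_, fun α => ?_, fun K hK1 hK2 α hbig => ?_⟩⟩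
  · have a3 := h3 N (by omega)
    calc ∑ n ∈ Icc 1 N, liou n ^ 2 = ∑ _n ∈ Icc 1 N, (1 : ℝ) := by
          apply sum_congr rfl
          intro n _
          rw [← sq_abs, liou_abs, one_pow]
      _ = N * 1 := by rw [sum_const, Nat.card_Icc, nsmul_eq_mul, Nat.add_sub_cancel]
      _ ≤ N * Real.log N ^ 8 := by
          apply mul_le_mul_of_nonneg_left _ (Nat.cast_nonneg _)
          exact one_le_pow₀ a3
  · simp_rw [liou_cast]
    exact h1 N (by omega) α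
  · simp_rw [liou_cast] at hbig
    exact h2 N (by omega) K hK1 hK2 α hbig

end Pool.Agent.Y883.T4
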