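import Pool.Agent.Y883.T4.Core
import Pool.Agent.Y883.Spec

set_option autoImplicit false

/-! Close pairs for many moduli. -/

namespace Pool.Agent.Y883.T4

open Finset
open Pool.Agent.Y883.T3

open Classical in
/-- the number of points near fractions with small denominators -/
lemma few_small (M N Q P : ℕ) (κ T : ℝ) (hp : Par M N Q P κ T) (R0 : ℝ) (hR0 : 1 ≤ R0) (t' : ℕ) (ht' : t' < M)
    (V : Finset ℕ) (hV : ∀ t ∈ V, t < M ∧ ∃ x : ℚ, (x.den : ℝ) ≤ R0 ∧
      |((t : ℝ) - t') / M - x| * Q ≤ T / P) : (V.card : ℝ) ≤ 5 * R0 ^ 2 * (4 * κ * T + 1) := by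
  have hP0 : (0 : ℝ) < P := by exact_mod_cast hp.hP
  have hQ0 : (0 : ℝ) < Q := by exact_mod_cast hp.hQ
  have hQ1 : (1 : ℝ) ≤ Q := by exact_mod_cast hp.hQ
  have hN1 : 1 ≤ N := by have := hp.hPQ; have := Nat.mul_pos hp.hP hp.hQ; omega
  have hM1 : 1 ≤ M := hN1.trans hp.hNM
  have hM0 : (0 : ℝ) < M := by exact_mod_cast hM1
  have hκ := hp.kap
  choose! x hx using fun t (ht : t ∈ V) => (hV t ht).2
  obtain ⟨W, hW⟩ : ∃ W : Finset (ℕ × ℤ), W = (Icc 1 ⌊R0⌋₊).biUnion (fun d : ℕ => (Icc (-(2 * d : ℤ)) (2 * d)).image (fun a => (d, a))) := ⟨_, rfl⟩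
  have hWc : (W.card : ℝ) ≤ 5 * R0 ^ 2 := by
    have h1 : W.card ≤ ∑ d ∈ Icc 1 ⌊R0⌋₊, (4 * d + 1) := by
      rw [hW]
      refine card_biUnion_le.trans (sum_le_sum fun d _ => ?_)
      refine card_image_le.trans ?_
      rw [Int.card_Icc]
      omega
    have h2 := h1.trans (sum_five ⌊R0⌋₊)
    have h3 : (W.card : ℝ) ≤ 5 * (⌊R0⌋₊ : ℝ) ^ 2 := by exact_mod_cast h2
    refine h3.trans ?_
    apply mul_le_mul_of_nonneg_left _ (by norm_num)
    exact pow_le_pow_left₀ (Nat.cast_nonneg _) (Nat.floor_le (by linarith)) 2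
  have himg : V.image (fun t => ((x t).den, (x t).num)) ⊆ W := by
    intro y hy
    rw [mem_image] at hy
    obtain ⟨t, ht, rfl⟩ := hy
    obtain ⟨h1, h2⟩ := hx t ht
    obtain ⟨h3, -⟩ := hV t ht
    rw [hW, mem_biUnion]
    refine ⟨(x t).den, ?_, ?_⟩
    · rw [mem_Icc]
      exact ⟨(x t).den_pos, Nat.le_floor h1⟩
    · rw [mem_image]
      refine ⟨(x t).num, ?_, rfl⟩
      have h4 : |((t : ℝ) - t') / M - x t| ≤ 1 / 4 := by
        have h5 := h2.trans hp.TP
        have h6 : |((t : ℝ) - t') / M - x t| * 1 ≤ |((t : ℝ) - t') / M - x t| * Q :=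
          mul_le_mul_of_nonneg_left hQ1 (abs_nonneg _)
        linarith
      have h5 : |((t : ℝ) - t') / M| ≤ 1 := by
        rw [abs_div, abs_of_pos hM0, div_le_one hM0, abs_le]
        have e1 : (t : ℝ) < M := by exact_mod_cast h3
        have e2 : (t' : ℝ) < M := by exact_mod_cast ht'
        have e3 : (0 : ℝ) ≤ t := Nat.cast_nonneg _
        have e4 : (0 : ℝ) ≤ t' := Nat.cast_nonneg _
        constructor <;> linarith
      have h6 : |((x t : ℚ) : ℝ)| ≤ 2 := by
        have h7 : ((x t : ℚ) : ℝ) = ((t : ℝ) - t') / M - (((t : ℝ) - t') / M - x t) := by ring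
        rw [h7]
        refine (abs_sub _ _).trans ?_
        linarith
      have hd0 : (0 : ℝ) < (x t).den := by exact_mod_cast (x t).den_pos
      have h7 : |((x t).num : ℝ)| ≤ 2 * (x t).den := by
        have h8 : ((x t : ℚ) : ℝ) = (x t).num / (x t).den := Rat.cast_def _
        rw [h8, abs_div, abs_of_pos hd0, div_le_iff₀ hd0] at h6
        exact h6
      have h8 : |(x t).num| ≤ 2 * ((x t).den : ℤ) := by exact_mod_cast h7
      rw [mem_Icc]
      exact abs_le.1 h8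
  have h1 := card_le_image V (fun t => ((x t).den, (x t).num)) (4 * κ * T + 1) (by
    intro y hy
    rw [mem_image] at hy
    obtain ⟨t0, ht0, rfl⟩ := hy
    apply hp.near Q le_rfl _ ((Q : ℝ) * ((t' : ℝ) / M + x t0))
    intro t ht
    rw [mem_filter] at ht
    obtain ⟨ht1, ht2⟩ := ht
    rw [Prod.mk.injEq] at ht2
    have h3 : x t = x t0 := Rat.ext ht2.2 ht2.1
    have h4 := (hx t ht1).2
    rw [h3] at h4
    have h5 : (Q : ℝ) * ((t : ℝ) / M) - Q * ((t' : ℝ) / M + x t0) = (((t : ℝ) - t') / M - x t0) * Q := by ring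
    rw [h5, abs_mul, abs_of_pos hQ0]
    exact h4)
  refine h1.trans ?_
  apply mul_le_mul_of_nonneg_right _ (by linarith)
  refine le_trans ?_ hWc
  exact_mod_cast card_le_card himg

open Classical in
theorem far_case (M N Q P : ℕ) (κ T : ℝ) (hp : Par M N Q P κ T) (Z : Finset ℕ) (hZ : ∀ t ∈ Z, t < M)
    (S : Finset ℕ) (hS : ∀ s ∈ S, Q ≤ s ∧ s < 4 * Q) (hne : S.Nonempty) (X1 R0 θ : ℝ) (hX10 : 0 < X1)
    (hR0 : 1 ≤ R0) (hX1 : ∀ s ∈ S, X1 ≤ (clp M P s T Z).card) (hθ : 0 ≤ θ)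
    (hno : ∀ d : ℕ, R0 < d → ((S.filter (fun s => d ∣ s)).card : ℝ) ≤ θ * S.card)
    (h1 : 4 * ((Z.card : ℝ) ^ 2 * (280 * Q * T / P)) ≤ X1 * S.card)
    (h2 : 4 * ((Z.card : ℝ) ^ 2 * θ) ≤ X1)
    (h3 : 4 * ((Z.card : ℝ) * (5 * R0 ^ 2 * (4 * κ * T + 1))) ≤ X1) : False := by
  have hP0 : (0 : ℝ) < P := by exact_mod_cast hp.hP
  have hQ0 : (0 : ℝ) < Q := by exact_mod_cast hp.hQ
  have hT0 : 0 < T := by linarith [hp.hT]
  have hn0 : (0 : ℝ) < S.card := by exact_mod_cast hne.card_pos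
  obtain ⟨F, hF⟩ : ∃ F : ℕ × ℕ → Finset ℕ, F = fun p => S.filter (fun s => Cl M P s T p.1 p.2) := ⟨_, rfl⟩
  obtain ⟨sm, hsm⟩ : ∃ sm : ℕ × ℕ → Prop, sm = fun p => ∃ x : ℚ, (x.den : ℝ) ≤ R0 ∧
      |((p.1 : ℝ) - p.2) / M - x| * Q ≤ T / P := ⟨_, rfl⟩
  -- double counting
  have hdc : ∑ s ∈ S, ((clp M P s T Z).card : ℝ) = ∑ p ∈ Z ×ˢ Z, ((F p).card : ℝ) := by
    have e1 : ∀ s ∈ S, ((clp M P s T Z).card : ℝ) =
        ∑ p ∈ Z ×ˢ Z, (if Cl M P s T p.1 p.2 then (1 : ℝ) else 0) := by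
      intro s _
      unfold clp
      rw [sum_boole]
    have e2 : ∀ p ∈ Z ×ˢ Z, ((F p).card : ℝ) = ∑ s ∈ S, (if Cl M P s T p.1 p.2 then (1 : ℝ) else 0) := by
      intro p _
      rw [hF, sum_boole]
    rw [sum_congr rfl e1, sum_congr rfl e2, sum_comm]
  have hpt : ∀ p ∈ Z ×ˢ Z, ((F p).card : ℝ) ≤ (280 * Q * T / P + θ * S.card) +
      (if sm p then (S.card : ℝ) else 0) := by
    intro p _
    have hFS : F p ⊆ S := by rw [hF]; exact filter_subset _ _
    have hFc : ((F p).card : ℝ) ≤ S.card := by exact_mod_cast card_le_card hFS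
    have hpos : (0 : ℝ) ≤ 280 * Q * T / P := by positivity
    have hpos2 : 0 ≤ θ * (S.card : ℝ) := by positivity
    rcases le_or_gt ((F p).card : ℝ) (280 * Q * T / P) with hc | hc
    · have : (0 : ℝ) ≤ if sm p then (S.card : ℝ) else 0 := by split_ifs <;> positivity
      linarith
    · obtain ⟨x, hx1, hx2⟩ := spec Q P hp.hQ hp.hP T hT0 (((p.1 : ℝ) - p.2) / M) (F p) (by
        intro s hs
        rw [hF, mem_filter] at hs
        refine ⟨(hS s hs.1).2, ?_⟩
        have h4 := hs.2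
        unfold Cl at h4
        rw [mul_comm ((((p.1 : ℕ) : ℝ) - p.2) / M) (s : ℝ)]
        exact h4) hc
      by_cases hden : (x.den : ℝ) ≤ R0
      · have : sm p := by
          rw [hsm]
          refine ⟨x, hden, ?_⟩
          have hFne : (F p).Nonempty := by
            rw [← card_pos]
            have : (0 : ℝ) < (F p).card := lt_of_le_of_lt hpos hc
            exact_mod_cast this
          obtain ⟨s, hs⟩ := hFne
          have h4 := (hx2 s hs).2
          have h5 : (Q : ℝ) ≤ s := by exact_mod_cast (hS s (hFS hs)).1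
          exact (mul_le_mul_of_nonneg_left h5 (abs_nonneg _)).trans h4
        rw [if_pos this]
        linarith
      · rw [not_le] at hden
        have h4 : F p ⊆ S.filter (fun s => x.den ∣ s) := by
          intro s hs
          rw [mem_filter]
          exact ⟨hFS hs, (hx2 s hs).1⟩
        have h5 : ((F p).card : ℝ) ≤ ((S.filter (fun s => x.den ∣ s)).card : ℝ) := by
          exact_mod_cast card_le_card h4
        have h6 := hno x.den hden
        have : (0 : ℝ) ≤ if sm p then (S.card : ℝ) else 0 := by split_ifs <;> positivity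
        linarith
  have hsmall : (((Z ×ˢ Z).filter sm).card : ℝ) ≤ Z.card * (5 * R0 ^ 2 * (4 * κ * T + 1)) := by
    have hmaps : ∀ p ∈ (Z ×ˢ Z).filter sm, p.2 ∈ Z := by
      intro p hp1
      rw [mem_filter, mem_product] at hp1
      exact hp1.1.2
    rw [card_eq_sum_card_fiberwise (fun p hp1 => mem_coe.2 (hmaps p hp1))]
    push_cast
    have hfib : ∀ t' ∈ Z, (((((Z ×ˢ Z).filter sm).filter (fun p => p.2 = t')).card : ℕ) : ℝ) ≤ 5 * R0 ^ 2 * (4 * κ * T + 1) := by
      intro t' ht'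
      obtain ⟨V, hV⟩ : ∃ V, V = (((Z ×ˢ Z).filter sm).filter (fun p => p.2 = t')).image Prod.fst := ⟨_, rfl⟩
      have hc : V.card = (((Z ×ˢ Z).filter sm).filter (fun p => p.2 = t')).card := by
        rw [hV]
        apply card_image_of_injOn
        intro p hp1 p' hp2 h
        rw [mem_coe, mem_filter] at hp1 hp2
        exact Prod.ext h (hp1.2.trans hp2.2.symm)
      rw [← hc]
      apply few_small M N Q P κ T hp R0 hR0 t' (hZ t' ht')
      intro t ht
      rw [hV, mem_image] at ht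
      obtain ⟨p, hp1, rfl⟩ := ht
      rw [mem_filter, mem_filter, mem_product] at hp1
      refine ⟨hZ _ hp1.1.1.1, ?_⟩
      have := hp1.1.2
      rw [hsm] at this
      rw [← hp1.2]
      exact this
    refine (sum_le_sum hfib).trans ?_
    rw [sum_const, nsmul_eq_mul]
  have htot : (S.card : ℝ) * X1 ≤ (Z.card : ℝ) ^ 2 * (280 * Q * T / P + θ * S.card) +
      Z.card * (5 * R0 ^ 2 * (4 * κ * T + 1)) * S.card := by
    calc (S.card : ℝ) * X1 = ∑ _s ∈ S, X1 := by rw [sum_const, nsmul_eq_mul]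
      _ ≤ ∑ s ∈ S, ((clp M P s T Z).card : ℝ) := sum_le_sum hX1
      _ = ∑ p ∈ Z ×ˢ Z, ((F p).card : ℝ) := hdc
      _ ≤ ∑ p ∈ Z ×ˢ Z, ((280 * Q * T / P + θ * S.card) + (if sm p then (S.card : ℝ) else 0)) := sum_le_sum hpt
      _ = (Z.card : ℝ) ^ 2 * (280 * Q * T / P + θ * S.card) + ((Z ×ˢ Z).filter sm).card * S.card := by
          rw [sum_add_distrib, sum_const, nsmul_eq_mul, card_product, ← sum_filter, sum_const, nsmul_eq_mul]
          push_cast
          ring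
      _ ≤ _ := by
          have := mul_le_mul_of_nonneg_right hsmall hn0.le
          linarith
  have e1 : (Z.card : ℝ) ^ 2 * (280 * Q * T / P + θ * S.card) = (Z.card : ℝ) ^ 2 * (280 * Q * T / P) +
      ((Z.card : ℝ) ^ 2 * θ) * S.card := by ring
  rw [e1] at htot
  have e2 := mul_le_mul_of_nonneg_right h2 hn0.le
  have e3 := mul_le_mul_of_nonneg_right h3 hn0.le
  have e4 : 0 < X1 * S.card := mul_pos hX10 hn0
  nlinarith

end Pool.Agent.Y883.T4
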