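import Pool.Agent.Y883.T4.Len

set_option autoImplicit false

/-! Correlations of the Liouville function with arbitrary functions, with shifts in residue classes. -/

namespace Pool.Agent.Y883.T4

open Finset
open Pool.Agent.H373R2.T7 (fz ev_L')
open Pool.Agent.Y883.T3

/-- The Liouville function on the integers, `0` at the integers `m ≤ 0`, with complex values. -/
noncomputable def lamZ (m : ℤ) : ℂ := if 1 ≤ m then (-1) ^ ArithmeticFunction.cardFactors m.toNat else 0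

open Classical in
/-- all residue classes modulo `q` are good for the Liouville function -/
def GoodL (B N A T q : ℕ) : Prop := ∀ c : ℤ, |c| ≤ B * N → ∀ J : ℕ, (J : ℝ) ≤ Real.log N ^ T →
  ∀ (α : ℕ → ℕ) (θ : ℕ → ℕ → ℂ), (∀ l < J, 1 ≤ α l) →
  (∀ l < J, ∀ n, 1 ≤ n → α l * n ≤ B * N → ‖θ l n‖ ≤ Real.log N ^ T) →
  (((Icc 1 (N / q)).filter (fun m : ℕ => ¬ ∀ l < J, ∀ x : ℕ, α l * x ≤ B * N →
    ‖∑ n ∈ Icc 1 x, θ l n * lamZ (((α l * n : ℕ) : ℤ) + (c + q * m))‖ ≤ N / Real.log N ^ A)).card : ℝ) ≤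
    N / (q * Real.log N ^ A)

theorem lam_bad (B A T : ℕ) : ∃ N₀ : ℕ, ∀ N : ℕ, N₀ ≤ N → ∀ q : ℕ, 1 ≤ q → q ≤ N →
    ¬ BadF liou ((2 * B + 2) * N) (4 * (A + T + 1) + T + 20) q → GoodL B N A T q := by
  classical
  obtain ⟨N₁, h1⟩ := max_of_not_bad (A + T + 1) T
  obtain ⟨N₂, h2⟩ := ev_L' (2 * B + 2 + 1)
  refine ⟨N₁ + N₂ + 1, fun N hN q hq1 hqN hbad c hc J hJ α θ hα hθ => ?_⟩
  have hL := h2 N (by omega)
  have hN0 : (0 : ℝ) < N := by exact_mod_cast (by omega : 0 < N)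
  obtain ⟨M, hM⟩ : ∃ M, M = (2 * B + 2) * N := ⟨_, rfl⟩
  rw [← hM] at hbad
  have hNM : N ≤ M := by rw [hM]; exact Nat.le_mul_of_pos_left _ (by omega)
  have hMr : (M : ℝ) = (2 * B + 2) * N := by rw [hM]; push_cast; ring
  have hM0 : (0 : ℝ) < M := by rw [hMr]; positivity
  obtain ⟨L, hLd⟩ : ∃ L, L = Real.log (N : ℝ) := ⟨_, rfl⟩
  obtain ⟨LM, hLMd⟩ : ∃ LM, LM = Real.log (M : ℝ) := ⟨_, rfl⟩
  have hLLM : L ≤ LM := by
    rw [hLd, hLMd]
    exact Real.log_le_log hN0 (by exact_mod_cast hNM)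
  have c1 := h1 M (by omega) liou
  rw [← hLd] at hL hJ hθ ⊢
  rw [← hLMd] at c1
  have hB0 : (0 : ℝ) ≤ B := Nat.cast_nonneg _
  have hL1 : 1 ≤ L := by linarith
  have hL0 : 0 < L := by linarith
  have hLM1 : 1 ≤ LM := by linarith
  have hLM0 : 0 < LM := by linarith
  have hLT : 0 < L ^ T := by positivity
  have hl2 : ∑ n ∈ Icc 1 M, liou n ^ 2 ≤ M * LM ^ 8 := by
    calc ∑ n ∈ Icc 1 M, liou n ^ 2 = ∑ _n ∈ Icc 1 M, (1 : ℝ) := by
          apply sum_congr rfl
          intro n _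
          rw [← sq_abs, liou_abs, one_pow]
      _ = M * 1 := by rw [sum_const, Nat.card_Icc, nsmul_eq_mul, Nat.add_sub_cancel]
      _ ≤ M * LM ^ 8 := mul_le_mul_of_nonneg_left (one_le_pow₀ hLM1) hM0.le
  have hBM : B * N ≤ M := by rw [hM]; exact Nat.mul_le_mul_right _ (by omega)
  have hBM' : (B : ℤ) * N ≤ M := by exact_mod_cast hBM
  have hc' := abs_le.1 hc
  have hM0' : (0 : ℤ) ≤ M := by positivity
  obtain ⟨G, hG⟩ : ∃ G : ℕ → ℕ → ℂ, G = fun l t => if α l ∣ t ∧ 1 ≤ t ∧ t ≤ B * N then θ l (t / α l) / (L : ℂ) ^ T else 0 :=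
    ⟨_, rfl⟩
  have hG1 : ∀ l < J, ∀ t, ‖G l t‖ ≤ 1 := by
    intro l hl t
    rw [hG]
    simp only
    split_ifs with h
    · obtain ⟨⟨n, rfl⟩, h3, h4⟩ := h
      have h5 := hα l hl
      rw [Nat.mul_div_cancel_left _ h5, norm_div, norm_pow, Complex.norm_real, Real.norm_eq_abs, abs_of_pos hL0,
        div_le_one hLT]
      apply hθ l hl n _ h4
      rcases Nat.eq_zero_or_pos n with h0 | h0
      · subst h0; simp at h3
      · exact h0
    · simp
  have c2 := c1 hl2 q hq1 (hqN.trans hNM) hbad c (by linarith) (by linarith) J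
    (hJ.trans (pow_le_pow_left₀ hL0.le hLLM T)) G hG1
  have hcount : (M : ℝ) / (q * LM ^ (A + T + 1)) ≤ N / (q * L ^ A) := by
    have hq0 : (0 : ℝ) < q := by exact_mod_cast hq1
    calc (M : ℝ) / (q * LM ^ (A + T + 1)) ≤ M / (q * L ^ (A + 1)) := by
          apply div_le_div_of_nonneg_left hM0.le (by positivity)
          apply mul_le_mul_of_nonneg_left _ hq0.le
          calc L ^ (A + 1) ≤ LM ^ (A + 1) := pow_le_pow_left₀ hL0.le hLLM _
            _ ≤ LM ^ (A + T + 1) := pow_le_pow_right₀ hLM1 (by omega)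
      _ = ((2 * B + 2) / L) * (N / (q * L ^ A)) := by rw [hMr, pow_succ]; field_simp
      _ ≤ 1 * (N / (q * L ^ A)) := by
          apply mul_le_mul_of_nonneg_right _ (by positivity)
          rw [div_le_one hL0]
          linarith
      _ = _ := one_mul _
  have hthr : (M : ℝ) / LM ^ (A + T + 1) ≤ N / L ^ (A + T) := by
    calc (M : ℝ) / LM ^ (A + T + 1) ≤ M / L ^ (A + T + 1) := by
          apply div_le_div_of_nonneg_left hM0.le (by positivity)
          exact pow_le_pow_left₀ hL0.le hLLM _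
      _ = ((2 * B + 2) / L) * (N / L ^ (A + T)) := by rw [hMr, pow_succ]; field_simp
      _ ≤ 1 * (N / L ^ (A + T)) := by
          apply mul_le_mul_of_nonneg_right _ (by positivity)
          rw [div_le_one hL0]
          linarith
      _ = _ := one_mul _
  refine le_trans ?_ (c2.trans hcount)
  apply Nat.cast_le.2
  apply card_le_card
  intro m hm
  rw [mem_filter] at hm ⊢
  obtain ⟨hm1, hm2⟩ := hm
  refine ⟨(Icc_subset_Icc_right (Nat.div_le_div_right hNM)) hm1, ?_⟩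
  push Not at hm2
  obtain ⟨l, hl, x, hx, hbig⟩ := hm2
  refine ⟨l, hl, α l * x, hx.trans hBM, ?_⟩
  rw [mem_Icc] at hm1
  have hqm : q * m ≤ N := by
    calc q * m ≤ q * (N / q) := Nat.mul_le_mul_left _ hm1.2
      _ ≤ N := Nat.mul_div_le _ _
  have e1 : ∑ a ∈ Icc 1 (α l * x), G l a * fz (fun k => ((liou k : ℝ) : ℂ)) M ((a : ℤ) + ((q : ℤ) * m + c)) =
      (∑ n ∈ Icc 1 x, θ l n * lamZ (((α l * n : ℕ) : ℤ) + (c + q * m))) / (L : ℂ) ^ T := by
    rw [sum_div, ← Len.sum_mult (hα l hl) (fun n => θ l n * lamZ (((α l * n : ℕ) : ℤ) + (c + q * m)) / (L : ℂ) ^ T)]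
    apply sum_congr rfl
    intro t ht
    rw [mem_Icc] at ht
    have h3 : t ≤ B * N := ht.2.trans hx
    rw [hG]
    simp only
    by_cases hd : α l ∣ t
    · rw [if_pos ⟨hd, ht.1, h3⟩, if_pos hd]
      have h4 : ((α l * (t / α l) : ℕ) : ℤ) = t := by rw [Nat.mul_div_cancel' hd]
      have h5 : ((α l * (t / α l) : ℕ) : ℤ) + (c + q * m) = (t : ℤ) + ((q : ℤ) * m + c) := by rw [h4]; ring
      rw [h5]
      have h6 : fz (fun k => ((liou k : ℝ) : ℂ)) M ((t : ℤ) + ((q : ℤ) * m + c)) = lamZ ((t : ℤ) + ((q : ℤ) * m + c)) := by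
        unfold fz lamZ
        have h7 : (t : ℤ) + ((q : ℤ) * m + c) ≤ M := by
          rw [hM]
          have h8 : (t : ℤ) ≤ B * N := by exact_mod_cast h3
          have h9 : (q : ℤ) * m ≤ N := by exact_mod_cast hqm
          push_cast
          nlinarith [hc'.2]
        by_cases h8 : 1 ≤ (t : ℤ) + ((q : ℤ) * m + c)
        · rw [if_pos ⟨h8, h7⟩, if_pos h8]
          unfold liou
          push_cast
          rfl
        · rw [if_neg (fun h => h8 h.1), if_neg h8]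
      rw [h6]
      ring
    · rw [if_neg (fun h => hd h.1), if_neg hd, zero_mul]
  rw [e1, norm_div, norm_pow, Complex.norm_real, Real.norm_eq_abs, abs_of_pos hL0]
  refine lt_of_le_of_lt hthr ?_
  rw [lt_div_iff₀ hLT]
  refine lt_of_le_of_lt (le_of_eq ?_) hbig
  rw [pow_add]
  field_simp

end Pool.Agent.Y883.T4
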