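import Pool.Agent.Y883.T4.TupB
import Pool.Agent.Y883.T4.LamW
import Pool.Agent.Y883.T3.Mod

set_option autoImplicit false

/-! Joint correlations of the von Mangoldt and Liouville functions with shifts in residue classes. -/

namespace Pool.Agent.Y883.T4

open Finset
open Pool.Agent.H373R2.T7
open Pool.Agent.Y883.T3

/-- the union of two sparse sets -/
lemma union_card {D₁ D₂ : Finset ℕ} {Lb ρ : ℝ} (hρ : 0 < ρ) (hLb0 : 0 < Lb)
    (h₁ : ∀ e ∈ D₁, Lb < (e : ℝ)) (h₂ : ∀ e ∈ D₂, Lb < (e : ℝ))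
    (hc₁ : ∀ X : ℝ, 1 ≤ X → ((D₁.filter (fun d : ℕ => (d : ℝ) ≤ X)).card : ℝ) ≤ X ^ (ρ / 2))
    (hc₂ : ∀ X : ℝ, 1 ≤ X → ((D₂.filter (fun d : ℕ => (d : ℝ) ≤ X)).card : ℝ) ≤ X ^ (ρ / 2))
    (hL : 2 ≤ Lb ^ (ρ / 2)) :
    ∀ X : ℝ, 1 ≤ X → (((D₁ ∪ D₂).filter (fun d : ℕ => (d : ℝ) ≤ X)).card : ℝ) ≤ X ^ ρ := by
  intro X hX
  have hX0 : 0 < X := by linarith
  rcases ((D₁ ∪ D₂).filter (fun d : ℕ => (d : ℝ) ≤ X)).eq_empty_or_nonempty with h0 | ⟨d, hd⟩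
  · rw [h0, card_empty, Nat.cast_zero]
    exact Real.rpow_nonneg (by linarith) _
  have hXL : Lb ≤ X := by
    rw [mem_filter, mem_union] at hd
    rcases hd.1 with h | h
    · exact (h₁ d h).le.trans hd.2
    · exact (h₂ d h).le.trans hd.2
  rw [filter_union]
  have h1 : (((D₁.filter (fun d : ℕ => (d : ℝ) ≤ X)) ∪ (D₂.filter (fun d : ℕ => (d : ℝ) ≤ X))).card : ℝ) ≤
      (D₁.filter (fun d : ℕ => (d : ℝ) ≤ X)).card + (D₂.filter (fun d : ℕ => (d : ℝ) ≤ X)).card := by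
    exact_mod_cast card_union_le _ _
  have h2 := hc₁ X hX
  have h3 := hc₂ X hX
  calc _ ≤ X ^ (ρ / 2) + X ^ (ρ / 2) := h1.trans (add_le_add h2 h3)
    _ = 2 * X ^ (ρ / 2) := by ring
    _ ≤ X ^ (ρ / 2) * X ^ (ρ / 2) := by
        apply mul_le_mul_of_nonneg_right _ (by positivity)
        exact hL.trans (Real.rpow_le_rpow hLb0.le hXL (by positivity))
    _ = X ^ ρ := by rw [← Real.rpow_add hX0]; ring_nf

theorem joint (k : ℕ) (hk : 1 ≤ k) (B A T : ℕ) (ρ : ℝ) (hρ : 0 < ρ) :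
    ∃ c N₀ : ℕ, ∀ N : ℕ, N₀ ≤ N → ∃ D : Finset ℕ,
      (∀ d ∈ D, Real.log N ^ A < (d : ℝ)) ∧
      (∀ X : ℝ, 1 ≤ X → ((D.filter (fun d : ℕ => (d : ℝ) ≤ X)).card : ℝ) ≤ X ^ ρ) ∧
      (∀ q : ℕ, 1 ≤ q → (q : ℝ) ≤ (N : ℝ) ^ (2 / 3 - ρ) → (∀ d ∈ D, ¬ d ∣ q) → GoodT k B N A q ∧ GoodL B N A T q) ∧
      ∀ X : ℕ, X ≤ N → ∀ F : Finset ℕ, (∀ q ∈ F, 1 ≤ q ∧ q ≤ X ∧ (∀ d ∈ D, ¬ d ∣ q) ∧
        ¬ (GoodT k B N A q ∧ GoodL B N A T q)) →
        (F.card : ℝ) * N ≤ (X : ℝ) ^ 2 * Real.log N ^ c := by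
  classical
  obtain ⟨ρ', hρ'⟩ : ∃ ρ' : ℝ, ρ' = min ρ (1 / 3) := ⟨_, rfl⟩
  have hρ0 : 0 < ρ' := by rw [hρ']; exact lt_min hρ (by norm_num)
  have hρ1 : ρ' ≤ ρ := by rw [hρ']; exact min_le_left _ _
  have hρ2 : ρ' ≤ 1 / 3 := by rw [hρ']; exact min_le_right _ _
  obtain ⟨A₁, hA₁⟩ : ∃ A₁, A₁ = 2 * A + k + 6 := ⟨_, rfl⟩
  obtain ⟨A₂, hA₂⟩ : ∃ A₂, A₂ = 4 * (A + T + 1) + T + 20 := ⟨_, rfl⟩
  obtain ⟨c₁, U₁, N₁, h1⟩ := mainW (ρ' / 2) (by positivity) A₁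
  obtain ⟨c₂, U₂, N₂, h2⟩ := mainW (ρ' / 2) (by positivity) A₂
  obtain ⟨U', hU'⟩ : ∃ U', U' = max U₁ A₁ := ⟨_, rfl⟩
  obtain ⟨B₀, hB₀⟩ := model U'
  obtain ⟨E, hE⟩ : ∃ E, E = B₀ + 1 + (A + k + 6) := ⟨_, rfl⟩
  obtain ⟨N₃, h3⟩ := hB₀ (E + 1)
  obtain ⟨N₄, h4⟩ := tup_bad k hk B A E (by omega)
  obtain ⟨N₅, h5⟩ := lam_bad B A T
  obtain ⟨N₆, h6⟩ := fm_liou U₂
  obtain ⟨R, hR⟩ : ∃ R, R = 2 * B + 2 := ⟨_, rfl⟩
  obtain ⟨N₇, h7⟩ := ev_L' ((2 : ℝ) ^ (2 / ρ') + Real.log R + 2 ^ B₀ + 2 ^ c₁ + 2 ^ c₂ + 2 * R ^ 2 + 16)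
  obtain ⟨N₈, h8⟩ := ev_log_rpow (A + 4) 1 (1 / 3) (by norm_num)
  refine ⟨c₁ + c₂ + A + 6, N₁ + N₂ + N₃ + N₄ + N₅ + N₆ + N₇ + N₈ + 3, fun N hN => ?_⟩
  have hL := h7 N (by omega)
  have c8 := h8 N (by omega)
  rw [one_mul] at c8
  have hN1 : 1 ≤ N := by omega
  have hN0 : (0 : ℝ) < N := by exact_mod_cast hN1
  have hN1r : (1 : ℝ) ≤ N := by exact_mod_cast hN1
  obtain ⟨M, hM⟩ : ∃ M, M = R * N := ⟨_, rfl⟩
  have hNM : N ≤ M := by rw [hM]; exact Nat.le_mul_of_pos_left _ (by omega)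
  have hMr : (M : ℝ) = R * N := by rw [hM]; push_cast; ring
  have hR1 : (1 : ℝ) ≤ R := by exact_mod_cast (by omega : 1 ≤ R)
  have hR0 : (0 : ℝ) < R := by linarith
  have hM0 : (0 : ℝ) < M := by rw [hMr]; positivity
  have hNMr : (N : ℝ) ≤ M := by exact_mod_cast hNM
  obtain ⟨L, hLd⟩ : ∃ L, L = Real.log (N : ℝ) := ⟨_, rfl⟩
  obtain ⟨LM, hLMd⟩ : ∃ LM, LM = Real.log (M : ℝ) := ⟨_, rfl⟩
  have hLLM : L ≤ LM := by
    rw [hLd, hLMd]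
    exact Real.log_le_log hN0 hNMr
  have hlR : 0 ≤ Real.log R := Real.log_nonneg hR1
  have hp1 : (0 : ℝ) ≤ (2 : ℝ) ^ (2 / ρ') := by positivity
  have hp2 : (0 : ℝ) ≤ 2 ^ B₀ := by positivity
  have hp3 : (0 : ℝ) ≤ 2 ^ c₁ := by positivity
  have hp4 : (0 : ℝ) ≤ 2 ^ c₂ := by positivity
  have hp5 : (0 : ℝ) ≤ 2 * (R : ℝ) ^ 2 := by positivity
  have f3 := h3 M (by omega)
  have f4 := h4 N (by omega)
  have f5 := h5 N (by omega)
  rw [← hR, ← hM, ← hA₁] at f4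
  rw [← hR, ← hM, ← hA₂] at f5
  rw [← hLd] at hL c8 f4 ⊢
  rw [← hLMd] at f3 f4
  have hL16 : 16 ≤ L := by linarith
  have hL0 : 0 < L := by linarith
  have hL1 : 1 ≤ L := by linarith
  have hLM0 : 0 < LM := by linarith
  have hLM1 : 1 ≤ LM := by linarith
  have hLM2 : LM ≤ 2 * L := by
    rw [hLMd, hMr, Real.log_mul hR0.ne' hN0.ne', ← hLd]
    linarith
  -- the parameter `z`
  obtain ⟨z, hz⟩ : ∃ z, z = ⌈L ^ E⌉₊ := ⟨_, rfl⟩
  have hzlo : L ^ E ≤ z := by rw [hz]; exact Nat.le_ceil _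
  have hL1E : 1 ≤ L ^ E := one_le_pow₀ hL1
  have hzhi : (z : ℝ) ≤ L ^ (E + 1) := by
    have := Nat.ceil_lt_add_one (show 0 ≤ L ^ E by positivity)
    rw [← hz] at this
    calc (z : ℝ) ≤ L ^ E + 1 := this.le
      _ ≤ L ^ E + L ^ E := by linarith
      _ = 2 * L ^ E := by ring
      _ ≤ L * L ^ E := mul_le_mul_of_nonneg_right (by linarith) (by positivity)
      _ = L ^ (E + 1) := by ring
  have hzB : LM ^ B₀ ≤ z := by
    calc LM ^ B₀ ≤ (2 * L) ^ B₀ := pow_le_pow_left₀ hLM0.le hLM2 _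
      _ = 2 ^ B₀ * L ^ B₀ := by rw [mul_pow]
      _ ≤ L * L ^ B₀ := mul_le_mul_of_nonneg_right (by linarith) (by positivity)
      _ = L ^ (B₀ + 1) := by ring
      _ ≤ L ^ E := pow_le_pow_right₀ hL1 (by omega)
      _ ≤ z := hzlo
  have hzE : (z : ℝ) ≤ LM ^ (E + 1) := hzhi.trans (pow_le_pow_left₀ hL0.le hLLM _)
  obtain ⟨f, hf1, hf2, hf3, hf4⟩ := f3 z hzB hzE
  have hU1 : LM ^ U₁ ≤ LM ^ U' := pow_le_pow_right₀ hLM1 (by rw [hU']; exact le_max_left _ _)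
  have hU2 : LM ^ A₁ ≤ LM ^ U' := pow_le_pow_right₀ hLM1 (by rw [hU']; exact le_max_right _ _)
  have hFM : FM f M U₁ := by
    refine ⟨by rw [← hLMd]; exact hf2, ?_, by rw [← hLMd]; exact hf4⟩
    intro α
    rw [← hLMd]
    exact (hf3 α).trans (div_le_div_of_nonneg_left hM0.le (by positivity) hU1)
  have hf1' : ∑ n ∈ Icc 1 M, |(ArithmeticFunction.vonMangoldt n - lamz z n) - f n| ≤ M / LM ^ A₁ :=
    hf1.trans (div_le_div_of_nonneg_left hM0.le (by positivity) hU2)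
  have g4 := f4 z hzlo hzhi f hf1'
  obtain ⟨D₁, hD11, hD12, hD13, hD14⟩ := h1 M (by omega) f hFM
  obtain ⟨D₂, hD21, hD22, hD23, hD24⟩ := h2 M (by omega) liou (h6 M (by omega))
  rw [← hLMd] at hD11 hD14 hD21 hD24
  -- sizes of the members
  have hLA : ∀ a, A + 1 ≤ a → L ^ (A + 1) ≤ LM ^ a := by
    intro a ha
    calc L ^ (A + 1) ≤ LM ^ (A + 1) := pow_le_pow_left₀ hL0.le hLLM _
      _ ≤ LM ^ a := pow_le_pow_right₀ hLM1 ha
  have hm1 : ∀ e ∈ D₁, L ^ (A + 1) < (e : ℝ) := fun e he => lt_of_le_of_lt (hLA A₁ (by omega)) (hD11 e he)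
  have hm2 : ∀ e ∈ D₂, L ^ (A + 1) < (e : ℝ) := fun e he => lt_of_le_of_lt (hLA A₂ (by omega)) (hD21 e he)
  have hkey : 2 ≤ (L ^ (A + 1)) ^ (ρ' / 2) := by
    have e1 : (2 : ℝ) ^ (2 / ρ') ≤ L ^ (A + 1) := by
      calc (2 : ℝ) ^ (2 / ρ') ≤ L := by linarith
        _ = L ^ 1 := (pow_one L).symm
        _ ≤ L ^ (A + 1) := pow_le_pow_right₀ hL1 (by omega)
    calc (2 : ℝ) = ((2 : ℝ) ^ (2 / ρ')) ^ (ρ' / 2) := by
          rw [← Real.rpow_mul (by norm_num)]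
          have : 2 / ρ' * (ρ' / 2) = 1 := by field_simp
          rw [this, Real.rpow_one]
      _ ≤ (L ^ (A + 1)) ^ (ρ' / 2) := Real.rpow_le_rpow (by positivity) e1 (by positivity)
  refine ⟨D₁ ∪ D₂, ?_, ?_, ?_, ?_⟩
  · intro d hd
    have e1 : L ^ A ≤ L ^ (A + 1) := pow_le_pow_right₀ hL1 (by omega)
    rcases mem_union.1 hd with h | h
    · exact lt_of_le_of_lt e1 (hm1 d h)
    · exact lt_of_le_of_lt e1 (hm2 d h)
  · intro X hX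
    refine (union_card hρ0 (by positivity) hm1 hm2 hD12 hD22 hkey X hX).trans ?_
    exact Real.rpow_le_rpow_of_exponent_le hX hρ1
  · intro q hq1 hq2 hq3
    have e1 : (q : ℝ) ≤ (N : ℝ) ^ (2 / 3 - ρ' / 2) :=
      hq2.trans (Real.rpow_le_rpow_of_exponent_le hN1r (by linarith))
    have e2 : (q : ℝ) ≤ (M : ℝ) ^ (2 / 3 - ρ' / 2) := e1.trans (Real.rpow_le_rpow hN0.le hNMr (by linarith))
    have e3 : (q : ℝ) * L ^ (A + 4) ≤ N := by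
      calc (q : ℝ) * L ^ (A + 4) ≤ (N : ℝ) ^ (2 / 3 - ρ' / 2) * (N : ℝ) ^ (1 / 3 : ℝ) :=
            mul_le_mul e1 c8 (by positivity) (by positivity)
        _ ≤ (N : ℝ) ^ (2 / 3 : ℝ) * (N : ℝ) ^ (1 / 3 : ℝ) := by
            apply mul_le_mul_of_nonneg_right _ (by positivity)
            exact Real.rpow_le_rpow_of_exponent_le hN1r (by linarith)
        _ = N := by rw [← Real.rpow_add hN0]; norm_num
    have e4 : q ≤ N := by
      have h9 : (1 : ℝ) ≤ L ^ (A + 4) := one_le_pow₀ hL1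
      have : (q : ℝ) ≤ N := (le_mul_of_one_le_right (Nat.cast_nonneg _) h9).trans e3
      exact_mod_cast this
    refine ⟨g4 q hq1 e3 (hD13 q hq1 e2 fun d hd => hq3 d (mem_union_left _ hd)),
      f5 q hq1 e4 (hD23 q hq1 e2 fun d hd => hq3 d (mem_union_right _ hd))⟩
  · intro X hX F hF
    have hX0 : (0 : ℝ) ≤ X := Nat.cast_nonneg _
    rcases le_or_gt ((X : ℝ) * L ^ (A + 4)) N with hXL | hXL
    · obtain ⟨F₁, hF₁⟩ : ∃ F₁, F₁ = F.filter (fun q => BadF f M A₁ q) := ⟨_, rfl⟩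
      obtain ⟨F₂, hF₂⟩ : ∃ F₂, F₂ = F.filter (fun q => BadF liou M A₂ q) := ⟨_, rfl⟩
      have hsub : F ⊆ F₁ ∪ F₂ := by
        intro q hq
        obtain ⟨b1, b2, b3, b4⟩ := hF q hq
        rw [mem_union, hF₁, hF₂, mem_filter, mem_filter]
        by_contra hcon
        push Not at hcon
        apply b4
        refine ⟨g4 q b1 ?_ (hcon.1 hq), f5 q b1 (b2.trans hX) (hcon.2 hq)⟩
        refine le_trans ?_ hXL
        apply mul_le_mul_of_nonneg_right _ (by positivity)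
        exact_mod_cast b2
      have e1 := hD14 X (hX.trans hNM) F₁ (by
        intro q hq
        rw [hF₁, mem_filter] at hq
        obtain ⟨b1, b2, b3, b4⟩ := hF q hq.1
        exact ⟨b1, b2, fun d hd => b3 d (mem_union_left _ hd), hq.2⟩)
      have e2 := hD24 X (hX.trans hNM) F₂ (by
        intro q hq
        rw [hF₂, mem_filter] at hq
        obtain ⟨b1, b2, b3, b4⟩ := hF q hq.1
        exact ⟨b1, b2, fun d hd => b3 d (mem_union_right _ hd), hq.2⟩)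
      have e3 : (F.card : ℝ) ≤ F₁.card + F₂.card := by
        exact_mod_cast (card_le_card hsub).trans (card_union_le _ _)
      have e4 : ∀ c : ℕ, 2 ^ c ≤ L → (X : ℝ) ^ 2 * LM ^ c ≤ X ^ 2 * L ^ (c + 1) := by
        intro c hc
        apply mul_le_mul_of_nonneg_left _ (by positivity)
        calc LM ^ c ≤ (2 * L) ^ c := pow_le_pow_left₀ hLM0.le hLM2 _
          _ = 2 ^ c * L ^ c := mul_pow _ _ _
          _ ≤ L * L ^ c := mul_le_mul_of_nonneg_right hc (by positivity)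
          _ = L ^ (c + 1) := by ring
      have e5 := e4 c₁ (by linarith)
      have e6 := e4 c₂ (by linarith)
      have e7 : L ^ (c₁ + 1) ≤ L ^ (c₁ + c₂ + A + 5) := pow_le_pow_right₀ hL1 (by omega)
      have e8 : L ^ (c₂ + 1) ≤ L ^ (c₁ + c₂ + A + 5) := pow_le_pow_right₀ hL1 (by omega)
      calc (F.card : ℝ) * N ≤ (F₁.card + F₂.card) * M := mul_le_mul e3 hNMr hN0.le (by positivity)
        _ = F₁.card * M + F₂.card * M := by ring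
        _ ≤ X ^ 2 * L ^ (c₁ + 1) + X ^ 2 * L ^ (c₂ + 1) := add_le_add (e1.trans e5) (e2.trans e6)
        _ ≤ X ^ 2 * L ^ (c₁ + c₂ + A + 5) + X ^ 2 * L ^ (c₁ + c₂ + A + 5) := by gcongr
        _ = 2 * (X ^ 2 * L ^ (c₁ + c₂ + A + 5)) := by ring
        _ ≤ L * (X ^ 2 * L ^ (c₁ + c₂ + A + 5)) := mul_le_mul_of_nonneg_right (by linarith) (by positivity)
        _ = X ^ 2 * L ^ (c₁ + c₂ + A + 6) := by rw [show c₁ + c₂ + A + 6 = (c₁ + c₂ + A + 5) + 1 by ring, pow_succ]; ring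
    · have h9 : F ⊆ Icc 1 X := by
        intro q hq
        obtain ⟨b1, b2, _, _⟩ := hF q hq
        rw [mem_Icc]
        exact ⟨b1, b2⟩
      have h10 : (F.card : ℝ) ≤ X := by
        have := card_le_card h9
        rw [Nat.card_Icc, Nat.add_sub_cancel] at this
        exact_mod_cast this
      calc (F.card : ℝ) * N ≤ X * (X * L ^ (A + 4)) := mul_le_mul h10 hXL.le hN0.le hX0
        _ = (X : ℝ) ^ 2 * L ^ (A + 4) := by ring
        _ ≤ (X : ℝ) ^ 2 * L ^ (c₁ + c₂ + A + 6) := by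
            apply mul_le_mul_of_nonneg_left _ (by positivity)
            exact pow_le_pow_right₀ hL1 (by omega)

end Pool.Agent.Y883.T4
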