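import Pool.Agent.Y883.T4.Max
import Pool.Agent.Y883.T4.FMmu
import Pool.Agent.TH893.CL.Twist

set_option autoImplicit false

/-! Products of consecutive values of the Liouville function, with lengths in residue classes to large moduli. The
pairing of neighbouring products is `Pool.Agent.TH893.CL.twist_le`; its preparation for correlations along a
progression is adapted from `Pool.Agent.Y867.SL`. -/

namespace Pool.Agent.Y883.T4.Len

open Finset
open Pool.Agent.H373R2.T7 (fz ev_L')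
open Pool.Agent.Y883.T3
open Pool.Agent.TH893.CL (Pk twist_le)

/-- The Liouville function along a progression. -/
noncomputable def lr (a b n : ℕ) : ℝ := (-1 : ℝ) ^ ArithmeticFunction.cardFactors (a * n + b)

lemma lr_pm (a b n : ℕ) : lr a b n = 1 ∨ lr a b n = -1 := neg_one_pow_eq_or ℝ _

lemma lr_abs (a b n : ℕ) : |lr a b n| = 1 := by
  rcases lr_pm a b n with h | h <;> rw [h] <;> norm_num

lemma fz_liou {m : ℤ} {k M : ℕ} (hk : 1 ≤ k) (hM : k ≤ M) (h : m = k) :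
    fz (fun k => ((liou k : ℝ) : ℂ)) M m = (((-1 : ℝ) ^ ArithmeticFunction.cardFactors k : ℝ) : ℂ) := by
  subst h
  unfold fz liou
  rw [if_pos ⟨by exact_mod_cast hk, by exact_mod_cast hM⟩]
  simp

lemma sum_Ioc_sub {E : Type*} [AddCommGroup E] (f : ℕ → E) {Y X : ℕ} (h : Y ≤ X) :
    ∑ n ∈ Ioc Y X, f n = ∑ n ∈ Icc 1 X, f n - ∑ n ∈ Icc 1 Y, f n := by
  have h1 : ∀ Z : ℕ, Icc 1 Z = Ioc 0 Z := by intro Z; ext n; simp only [mem_Icc, mem_Ioc]; omega
  rw [h1, h1, ← sum_Ioc_consecutive f (Nat.zero_le Y) h]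
  abel

/-- the product of the values of the Liouville function at `k` consecutive terms of a progression -/
noncomputable def prodL (a b k n : ℕ) : ℝ := ∏ j ∈ range k, (-1 : ℝ) ^ ArithmeticFunction.cardFactors (a * (n + j) + b)

/-- the real and the imaginary part -/
noncomputable def part (i : ℕ) (z : ℂ) : ℝ := if i = 0 then z.re else z.im

lemma part_abs {z : ℂ} (hz : ‖z‖ ≤ 1) (i : ℕ) : |part i z| ≤ 1 := by
  unfold part
  split_ifs
  · exact (Complex.abs_re_le_norm _).trans hz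
  · exact (Complex.abs_im_le_norm _).trans hz

/-- the weights of the correlations, on the multiples of `a` -/
noncomputable def G (a b : ℕ) (ξ : ℕ → ℂ) (i j m : ℕ) : ℂ :=
  if a ∣ m then ((part i (ξ (m / a)) * part j (ξ (m / a + 1)) * lr a b (m / a) : ℝ) : ℂ) else 0

lemma G_norm (a b : ℕ) {ξ : ℕ → ℂ} (hξ : ∀ n, ‖ξ n‖ ≤ 1) (i j m : ℕ) : ‖G a b ξ i j m‖ ≤ 1 := by
  unfold G
  split_ifs
  · rw [Complex.norm_real, Real.norm_eq_abs, abs_mul, abs_mul, lr_abs, mul_one]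
    exact mul_le_one₀ (part_abs (hξ _) _) (abs_nonneg _) (part_abs (hξ _) _)
  · simp

lemma sum_mult {a : ℕ} (ha : 1 ≤ a) (h : ℕ → ℂ) (X : ℕ) :
    ∑ m ∈ Icc 1 (a * X), (if a ∣ m then h (m / a) else 0) = ∑ n ∈ Icc 1 X, h n := by
  rw [← sum_filter]
  symm
  apply sum_bij (fun n _ => a * n)
  · intro n hn
    rw [mem_Icc] at hn
    rw [mem_filter, mem_Icc]
    exact ⟨⟨Nat.mul_pos ha hn.1, Nat.mul_le_mul_left a hn.2⟩, dvd_mul_right _ _⟩
  · intro n _ m _ h
    exact Nat.eq_of_mul_eq_mul_left ha h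
  · intro m hm
    rw [mem_filter, mem_Icc] at hm
    obtain ⟨⟨h1, h2⟩, n, rfl⟩ := hm
    refine ⟨n, mem_Icc.2 ⟨?_, Nat.le_of_mul_le_mul_left h2 ha⟩, rfl⟩
    rcases Nat.eq_zero_or_pos n with h0 | h0
    · subst h0; omega
    · exact h0
  · intro n _
    rw [Nat.mul_div_cancel_left _ ha]

/-- the correlations on the multiples of `a` -/
lemma corr_eq {a : ℕ} (ha : 1 ≤ a) (b : ℕ) (ξ : ℕ → ℂ) (i j k X M : ℕ) (hM : a * (X + k) + b ≤ M) (e : ℤ)
    (he : e = b + a * k) :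
    ∑ m ∈ Icc 1 (a * X), G a b ξ i j m * fz (fun k => ((liou k : ℝ) : ℂ)) M ((m : ℤ) + e) =
      ∑ n ∈ Icc 1 X, (((part i (ξ n) * part j (ξ (n + 1)) * lr a b n) * lr a b (n + k) : ℝ) : ℂ) := by
  rw [← sum_mult ha (fun n => (((part i (ξ n) * part j (ξ (n + 1)) * lr a b n) * lr a b (n + k) : ℝ) : ℂ))]
  apply sum_congr rfl
  intro m hm
  rw [mem_Icc] at hm
  unfold G
  split_ifs with h
  · obtain ⟨n, rfl⟩ := h
    rw [Nat.mul_div_cancel_left _ ha]
    have h0 : n ≤ X := Nat.le_of_mul_le_mul_left hm.2 ha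
    have h1 : 1 ≤ a * (n + k) + b := by
      have : a * (n + k) = a * n + a * k := by ring
      omega
    have h2 : a * (n + k) + b ≤ M := by
      have : a * (n + k) ≤ a * (X + k) := Nat.mul_le_mul_left _ (by omega)
      omega
    rw [fz_liou (k := a * (n + k) + b) h1 h2 (by rw [he]; push_cast; ring)]
    unfold lr
    push_cast
    ring
  · rw [zero_mul]

/-- The pairing of neighbouring products: four correlations imply the bound with one half. -/
lemma half_of_corr {a : ℕ} (ha : 1 ≤ a) (b k N M : ℕ) (hM : a * (N + k) + b ≤ M) (e : ℤ) (he : e = b + a * k)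
    {ξ : ℕ → ℂ} (hξ : ∀ n, ‖ξ n‖ ≤ 1)
    {δ : ℝ} (h : ∀ i < 2, ∀ j < 2, ∀ N' ≤ a * N, ‖∑ m ∈ Icc 1 N', G a b ξ i j m *
      fz (fun k => ((liou k : ℝ) : ℂ)) M ((m : ℤ) + e)‖ ≤ δ)
    {Y X : ℕ} (hYX : Y ≤ X) (hX : X ≤ N) :
    ‖∑ n ∈ Ioc Y X, ξ n * (prodL a b k n : ℂ)‖ ≤ ((X : ℝ) - Y) / 2 + 4 * δ + 1 := by
  have key : ∀ i < 2, ∀ j < 2,
      |∑ n ∈ Ioc Y X, ((part i (ξ n) * part j (ξ (n + 1)) * lr a b n) * lr a b (n + k))| ≤ 2 * δ := by
    intro i hi j hj
    have h1 := h i hi j hj (a * X) (Nat.mul_le_mul_left a hX)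
    have h2 := h i hi j hj (a * Y) (Nat.mul_le_mul_left a (hYX.trans hX))
    have hMX : a * (X + k) + b ≤ M := by
      have : a * (X + k) ≤ a * (N + k) := Nat.mul_le_mul_left _ (by omega)
      omega
    have hMY : a * (Y + k) + b ≤ M := by
      have : a * (Y + k) ≤ a * (X + k) := Nat.mul_le_mul_left _ (by omega)
      omega
    rw [corr_eq ha b ξ i j k _ M hMX e he] at h1
    rw [corr_eq ha b ξ i j k _ M hMY e he] at h2
    have h3 := sum_Ioc_sub
      (fun n => (((part i (ξ n) * part j (ξ (n + 1)) * lr a b n) * lr a b (n + k) : ℝ) : ℂ)) hYX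
    have h4 : ‖∑ n ∈ Ioc Y X, (((part i (ξ n) * part j (ξ (n + 1)) * lr a b n) * lr a b (n + k) : ℝ) : ℂ)‖ ≤ 2 * δ := by
      rw [h3]
      refine (norm_sub_le _ _).trans ?_
      linarith
    rw [← Complex.ofReal_sum, Complex.norm_real, Real.norm_eq_abs] at h4
    exact h4
  have h1 := twist_le (l := lr a b) (lr_pm a b) k hξ hYX (key 0 (by norm_num) 0 (by norm_num))
    (key 0 (by norm_num) 1 (by norm_num)) (key 1 (by norm_num) 0 (by norm_num)) (key 1 (by norm_num) 1 (by norm_num))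
  have h2 : ∀ n, prodL a b k n = Pk (lr a b) k n := fun n => rfl
  simp only [h2]
  linarith

/-- half of the trivial bound on all intervals up to `N` -/
def Half (a b N : ℕ) (δ : ℝ) (ξ : ℕ → ℂ) (k : ℕ) : Prop :=
  ∀ Y X : ℕ, Y ≤ X → X ≤ N → ‖∑ n ∈ Ioc Y X, ξ n * (prodL a b k n : ℂ)‖ ≤ ((X : ℝ) - Y) / 2 + δ

open Classical in
/-- all residue classes modulo `q` are good -/
def GoodQ (a N A T q : ℕ) : Prop := ∀ b : ℕ, b ≤ N → ∀ r J : ℕ, (J : ℝ) ≤ Real.log N ^ T → ∀ ξ : ℕ → ℕ → ℂ,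
  (∀ l n, ‖ξ l n‖ ≤ 1) →
  (((Icc 1 N).filter (fun k => k ≡ r [MOD q] ∧ ¬ ∀ l < J, Half a b N (N / Real.log N ^ A) (ξ l) k)).card : ℝ) ≤
    N / (q * Real.log N ^ A)

theorem good_of (a : ℕ) (ha : 1 ≤ a) (A T : ℕ) : ∃ N₀ : ℕ, ∀ N : ℕ, N₀ ≤ N → ∀ q : ℕ, 1 ≤ q → a * q ≤ N →
    ¬ BadF liou ((2 * a + 1) * N) (4 * (A + 1) + (T + 1) + 20) (a * q) → GoodQ a N A T q := by
  classical
  obtain ⟨N₁, h1⟩ := max_of_not_bad (A + 1) (T + 1)
  obtain ⟨N₂, h2⟩ := ev_L' (8 * (2 * a + 1))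
  obtain ⟨N₃, h3⟩ := ev_log_rpow A 2 1 (by norm_num)
  refine ⟨N₁ + N₂ + N₃ + 1, fun N hN q hq1 hqN hbad b hb r J hJ ξ hξ => ?_⟩
  have hL := h2 N (by omega)
  have hLN := h3 N (by omega)
  have hN0 : (0 : ℝ) < N := by exact_mod_cast (by omega : 0 < N)
  have hN1r : (1 : ℝ) ≤ N := by exact_mod_cast (by omega : 1 ≤ N)
  obtain ⟨M, hM⟩ : ∃ M, M = (2 * a + 1) * N := ⟨_, rfl⟩
  rw [← hM] at hbad
  have hNM : N ≤ M := by rw [hM]; exact Nat.le_mul_of_pos_left _ (by omega)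
  have hMr : (M : ℝ) = (2 * a + 1) * N := by rw [hM]; push_cast; ring
  have hM0 : (0 : ℝ) < M := by rw [hMr]; positivity
  obtain ⟨L, hLd⟩ : ∃ L, L = Real.log (N : ℝ) := ⟨_, rfl⟩
  obtain ⟨LM, hLMd⟩ : ∃ LM, LM = Real.log (M : ℝ) := ⟨_, rfl⟩
  have hLLM : L ≤ LM := by
    rw [hLd, hLMd]
    exact Real.log_le_log hN0 (by exact_mod_cast hNM)
  have ha1 : (1 : ℝ) ≤ a := by exact_mod_cast ha
  have ha0 : (0 : ℝ) < a := by linarith
  have c1 := h1 M (by omega) liou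
  rw [← hLd] at hL hLN hJ ⊢
  rw [← hLMd] at c1
  rw [Real.rpow_one] at hLN
  have hL24 : 24 ≤ L := by linarith
  have hL0 : 0 < L := by linarith
  have hL1 : 1 ≤ L := by linarith
  have hLM0 : 0 < LM := by linarith
  have hLM1 : 1 ≤ LM := by linarith
  have hl2 : ∑ n ∈ Icc 1 M, liou n ^ 2 ≤ M * LM ^ 8 := by
    calc ∑ n ∈ Icc 1 M, liou n ^ 2 = ∑ _n ∈ Icc 1 M, (1 : ℝ) := by
          apply sum_congr rfl
          intro n _
          rw [← sq_abs, liou_abs, one_pow]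
      _ = M * 1 := by rw [sum_const, Nat.card_Icc, nsmul_eq_mul, Nat.add_sub_cancel]
      _ ≤ M * LM ^ 8 := mul_le_mul_of_nonneg_left (one_le_pow₀ hLM1) hM0.le
  -- the class
  obtain ⟨r1, hr1, hrq, hrr⟩ : ∃ r1 : ℕ, 1 ≤ r1 ∧ r1 ≤ q ∧ r1 ≡ r [MOD q] := by
    rcases Nat.eq_zero_or_pos (r % q) with h | h
    · refine ⟨q, hq1, le_rfl, ?_⟩
      unfold Nat.ModEq
      rw [Nat.mod_self, h]
    · exact ⟨r % q, h, (Nat.mod_lt _ hq1).le, Nat.mod_modEq _ _⟩
  obtain ⟨c0, hc0⟩ : ∃ c0 : ℤ, c0 = (b : ℤ) + a * ((r1 : ℤ) - q) := ⟨_, rfl⟩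
  have hqN' : ((a * q : ℕ) : ℤ) ≤ N := by exact_mod_cast hqN
  push_cast at hqN'
  have hNM' : (N : ℤ) ≤ M := by exact_mod_cast hNM
  have hbN' : (b : ℤ) ≤ N := by exact_mod_cast hb
  have har : (a : ℤ) * ((r1 : ℤ) - q) ≤ 0 := by
    apply mul_nonpos_of_nonneg_of_nonpos (by positivity)
    have : (r1 : ℤ) ≤ q := by exact_mod_cast hrq
    linarith
  have har2 : -(a * q : ℤ) ≤ (a : ℤ) * ((r1 : ℤ) - q) := by
    have : (0 : ℤ) ≤ a * r1 := by positivity
    linarith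
  have hlow : -(2 * (M : ℤ)) ≤ c0 := by
    rw [hc0]
    have : (0 : ℤ) ≤ b := by positivity
    linarith
  have hup : c0 ≤ M := by rw [hc0]; linarith
  have c2 := c1 hl2 (a * q) (Nat.mul_pos ha hq1) (hqN.trans hNM) hbad c0 hlow hup (4 * J) (by
    push_cast
    have e1 : L ^ T ≤ LM ^ T := pow_le_pow_left₀ hL0.le hLLM T
    rw [pow_succ]
    have e2 : (0 : ℝ) ≤ LM ^ T := by positivity
    nlinarith) (fun l => G a b (ξ (l / 4)) (l % 4 / 2) (l % 2)) (fun l _ n => G_norm a b (hξ _) _ _ n)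
  -- the error terms
  have hLA : 0 < L ^ A := by positivity
  have hδ : 4 * ((M : ℝ) / LM ^ (A + 1)) + 1 ≤ N / L ^ A := by
    have e1 : (M : ℝ) / LM ^ (A + 1) ≤ N / L ^ A / 8 := by
      calc (M : ℝ) / LM ^ (A + 1) ≤ M / L ^ (A + 1) := by
            apply div_le_div_of_nonneg_left hM0.le (by positivity)
            exact pow_le_pow_left₀ hL0.le hLLM _
        _ = (2 * a + 1) / L * (N / L ^ A) := by rw [hMr, pow_succ]; field_simp
        _ ≤ 1 / 8 * (N / L ^ A) := by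
            apply mul_le_mul_of_nonneg_right _ (by positivity)
            rw [div_le_div_iff₀ hL0 (by norm_num)]
            linarith
        _ = _ := by ring
    have e2 : (2 : ℝ) ≤ N / L ^ A := by
      rw [le_div_iff₀ hLA]; exact hLN
    linarith
  have hcount : (M : ℝ) / (((a * q : ℕ) : ℝ) * LM ^ (A + 1)) ≤ N / (q * L ^ A) := by
    have hq0 : (0 : ℝ) < q := by exact_mod_cast hq1
    push_cast
    calc (M : ℝ) / (a * q * LM ^ (A + 1)) ≤ M / (a * q * L ^ (A + 1)) := by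
          apply div_le_div_of_nonneg_left hM0.le (by positivity)
          apply mul_le_mul_of_nonneg_left _ (by positivity)
          exact pow_le_pow_left₀ hL0.le hLLM _
      _ = ((2 * a + 1) / (a * L)) * (N / (q * L ^ A)) := by rw [hMr, pow_succ]; field_simp
      _ ≤ 1 * (N / (q * L ^ A)) := by
          apply mul_le_mul_of_nonneg_right _ (by positivity)
          rw [div_le_one (by positivity)]
          nlinarith
      _ = _ := one_mul _
  refine le_trans ?_ (c2.trans hcount)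
  -- the injection
  apply Nat.cast_le.2
  apply card_le_card_of_injOn (fun k => (k - r1) / q + 1)
  · intro k hk
    rw [mem_coe, mem_filter, mem_Icc] at hk
    obtain ⟨⟨hk1, hkN⟩, hkr, hkbad⟩ := hk
    have hkr1 : r1 ≤ k := by
      by_contra hcon
      rw [not_le] at hcon
      have h4 : k ≡ r1 [MOD q] := hkr.trans hrr.symm
      have h5 := (Nat.modEq_iff_dvd' hcon.le).1 h4
      have h6 := Nat.le_of_dvd (by omega) h5
      omega
    have hdvd : q ∣ k - r1 := (Nat.modEq_iff_dvd' hkr1).1 ((hkr.trans hrr.symm).symm)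
    have hdm : q * ((k - r1) / q) = k - r1 := Nat.mul_div_cancel' hdvd
    rw [mem_coe, mem_filter, mem_Icc]
    have hMq : (k - r1) / q + 1 ≤ M / (a * q) := by
      rw [Nat.le_div_iff_mul_le (Nat.mul_pos ha hq1)]
      have e1 : (k - r1) / q * q ≤ k - r1 := Nat.div_mul_le_self _ _
      calc ((k - r1) / q + 1) * (a * q) = a * ((k - r1) / q * q) + a * q := by ring
        _ ≤ a * N + N := Nat.add_le_add (Nat.mul_le_mul_left _ (by omega)) hqN
        _ ≤ M := by rw [hM]; nlinarith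
    refine ⟨⟨Nat.le_add_left 1 _, hMq⟩, ?_⟩
    have hshift : ((a * q : ℕ) : ℤ) * (((k - r1) / q + 1 : ℕ) : ℤ) + c0 = (b : ℤ) + a * k := by
      rw [hc0]
      have e1 : (q : ℤ) * (((k - r1) / q : ℕ) : ℤ) = (k : ℤ) - r1 := by
        have : ((q * ((k - r1) / q) : ℕ) : ℤ) = ((k - r1 : ℕ) : ℤ) := by rw [hdm]
        rw [Nat.cast_sub hkr1] at this
        push_cast at this ⊢
        exact this
      push_cast at e1 ⊢
      linear_combination (a : ℤ) * e1
    by_contra hcon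
    push Not at hcon
    apply hkbad
    intro l hl Y X hYX hX
    have h4 := half_of_corr ha b k N M (by
      rw [hM]
      nlinarith) (((a * q : ℕ) : ℤ) * (((k - r1) / q + 1 : ℕ) : ℤ) + c0) hshift (hξ l)
      (δ := M / LM ^ (A + 1)) (by
      intro i hi j hj N' hN'
      have h3 : 4 * l + (2 * i + j) < 4 * J := by omega
      have h5 := hcon (4 * l + (2 * i + j)) h3 N' (hN'.trans (by rw [hM]; nlinarith))
      have e1 : (4 * l + (2 * i + j)) / 4 = l := by omega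
      have e2 : (4 * l + (2 * i + j)) % 4 / 2 = i := by omega
      have e3 : (4 * l + (2 * i + j)) % 2 = j := by omega
      rw [e1, e2, e3] at h5
      exact h5) hYX hX
    linarith
  · intro k hk k' hk' hkk
    rw [mem_coe, mem_filter, mem_Icc] at hk hk'
    have hcl : ∀ k : ℕ, 1 ≤ k → k ≡ r [MOD q] → q * ((k - r1) / q) + r1 = k := by
      intro k hk1 hkr
      have hkr1 : r1 ≤ k := by
        by_contra hcon
        rw [not_le] at hcon
        have h4 : k ≡ r1 [MOD q] := hkr.trans hrr.symm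
        have h5 := (Nat.modEq_iff_dvd' hcon.le).1 h4
        have h6 := Nat.le_of_dvd (by omega) h5
        omega
      have hdvd : q ∣ k - r1 := (Nat.modEq_iff_dvd' hkr1).1 ((hkr.trans hrr.symm).symm)
      rw [Nat.mul_div_cancel' hdvd]
      omega
    simp only at hkk
    rw [← hcl k hk.1.1 hk.2.1, ← hcl k' hk'.1.1 hk'.2.1]
    have : (k - r1) / q = (k' - r1) / q := by omega
    rw [this]

end Pool.Agent.Y883.T4.Len
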