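import Pool.Agent.Y883.T4.Len
import Pool.Agent.Y883.T4.DivD

set_option autoImplicit false

/-! Products of consecutive values of the Liouville function: the theorem on lengths in residue classes. -/

namespace Pool.Agent.Y883.T4.Len

open Finset
open Pool.Agent.H373R2.T7 (fz ev_L')
open Pool.Agent.Y883.T3

theorem lengths (a : ℕ) (ha : 1 ≤ a) (ρ : ℝ) (hρ : 0 < ρ) (A T : ℕ) :
    ∃ c N₀ : ℕ, ∀ N : ℕ, N₀ ≤ N → ∃ D : Finset ℕ,
      (∀ d ∈ D, Real.log N ^ A < (d : ℝ)) ∧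
      (∀ X : ℝ, 1 ≤ X → ((D.filter (fun d : ℕ => (d : ℝ) ≤ X)).card : ℝ) ≤ X ^ ρ) ∧
      (∀ q : ℕ, 1 ≤ q → (q : ℝ) ≤ (N : ℝ) ^ (2 / 3 - ρ) → (∀ d ∈ D, ¬ d ∣ q) → GoodQ a N A T q) ∧
      ∀ X : ℕ, X ≤ N → ∀ F : Finset ℕ, (∀ q ∈ F, 1 ≤ q ∧ q ≤ X ∧ (∀ d ∈ D, ¬ d ∣ q) ∧ ¬ GoodQ a N A T q) →
        (F.card : ℝ) * N ≤ (X : ℝ) ^ 2 * Real.log N ^ c := by
  classical
  obtain ⟨ρ', hρ'⟩ : ∃ ρ' : ℝ, ρ' = min ρ (1 / 3) := ⟨_, rfl⟩
  have hρ0 : 0 < ρ' := by rw [hρ']; exact lt_min hρ (by norm_num)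
  have hρ1 : ρ' ≤ ρ := by rw [hρ']; exact min_le_left _ _
  have hρ2 : ρ' ≤ 1 / 3 := by rw [hρ']; exact min_le_right _ _
  obtain ⟨A', hA'⟩ : ∃ A', A' = 4 * (A + 1) + (T + 1) + 20 := ⟨_, rfl⟩
  obtain ⟨c, U, N₁, h1⟩ := mainW (ρ' / 2) (by positivity) A'
  obtain ⟨N₂, h2⟩ := fm_liou U
  obtain ⟨N₃, h3⟩ := good_of a ha A T
  have ha0 : (0 : ℝ) < a := by exact_mod_cast ha
  have ha1 : (1 : ℝ) ≤ a := by exact_mod_cast ha
  obtain ⟨C₀, hC₀⟩ : ∃ C₀ : ℝ, C₀ = a * (a * (a : ℝ) ^ (ρ' / 2)) ^ (2 / ρ') := ⟨_, rfl⟩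
  obtain ⟨N₄, h4⟩ := ev_L' (C₀ + 4 * a ^ 2 * 2 ^ c + 4 * a + 4)
  obtain ⟨N₅, h5⟩ := ev_log_rpow 0 a (ρ' / 2) (by positivity)
  refine ⟨c + 1, N₁ + N₂ + N₃ + N₄ + N₅ + 1, fun N hN => ?_⟩
  have hL := h4 N (by omega)
  have a5 := h5 N (by omega)
  rw [pow_zero, mul_one] at a5
  have hN0 : (0 : ℝ) < N := by exact_mod_cast (by omega : 0 < N)
  have hN1r : (1 : ℝ) ≤ N := by exact_mod_cast (by omega : 1 ≤ N)
  obtain ⟨M, hM⟩ : ∃ M, M = (2 * a + 1) * N := ⟨_, rfl⟩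
  have hNM : N ≤ M := by rw [hM]; exact Nat.le_mul_of_pos_left _ (by omega)
  have hMr : (M : ℝ) = (2 * a + 1) * N := by rw [hM]; push_cast; ring
  have hM0 : (0 : ℝ) < M := by rw [hMr]; positivity
  have hNMr : (N : ℝ) ≤ M := by exact_mod_cast hNM
  have hfm := h2 M (by omega)
  obtain ⟨D, hD1, hD2, hD3, hD4⟩ := h1 M (by omega) liou hfm
  have a3 := h3 N (by omega)
  rw [← hM, ← hA'] at a3
  obtain ⟨L, hLd⟩ : ∃ L, L = Real.log (N : ℝ) := ⟨_, rfl⟩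
  obtain ⟨LM, hLMd⟩ : ∃ LM, LM = Real.log (M : ℝ) := ⟨_, rfl⟩
  have hLLM : L ≤ LM := by
    rw [hLd, hLMd]
    exact Real.log_le_log hN0 hNMr
  rw [← hLd] at hL ⊢
  rw [← hLMd] at hD1 hD4
  have hC0 : 0 ≤ C₀ := by rw [hC₀]; positivity
  have hc0 : (0 : ℝ) ≤ 4 * a ^ 2 * 2 ^ c := by positivity
  have hL4 : 4 ≤ L := by linarith
  have hL0 : 0 < L := by linarith
  have hL1 : 1 ≤ L := by linarith
  have hLM1 : 1 ≤ LM := by linarith
  have hLM2 : LM ≤ 2 * L := by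
    have e1 : Real.log (2 * a + 1) ≤ L := by
      have e2 : Real.log (2 * a + 1) ≤ 2 * a + 1 - 1 := Real.log_le_sub_one_of_pos (by positivity)
      linarith
    rw [hLMd, hMr, Real.log_mul (by positivity) hN0.ne', ← hLd]
    linarith
  have hLb : L ≤ LM ^ A' := by
    calc L ≤ LM := hLLM
      _ = LM ^ 1 := (pow_one _).symm
      _ ≤ LM ^ A' := pow_le_pow_right₀ hLM1 (by omega)
  have hLbA : L ^ (A + 1) ≤ LM ^ A' := by
    calc L ^ (A + 1) ≤ LM ^ (A + 1) := pow_le_pow_left₀ hL0.le hLLM _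
      _ ≤ LM ^ A' := pow_le_pow_right₀ hLM1 (by omega)
  have hLb0 : 0 < LM ^ A' := by positivity
  have hkey : (a : ℝ) * (a : ℝ) ^ (ρ' / 2) ≤ (LM ^ A' / a) ^ (ρ' / 2) := by
    have e1 : (a * (a : ℝ) ^ (ρ' / 2)) ^ (2 / ρ') ≤ LM ^ A' / a := by
      rw [le_div_iff₀ ha0, mul_comm, ← hC₀]
      linarith
    calc (a : ℝ) * (a : ℝ) ^ (ρ' / 2) = ((a * (a : ℝ) ^ (ρ' / 2)) ^ (2 / ρ')) ^ (ρ' / 2) := by
          rw [← Real.rpow_mul (by positivity)]
          have : 2 / ρ' * (ρ' / 2) = 1 := by field_simp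
          rw [this, Real.rpow_one]
      _ ≤ (LM ^ A' / a) ^ (ρ' / 2) := Real.rpow_le_rpow (by positivity) e1 (by positivity)
  refine ⟨divD a D, ?_, ?_, ?_, ?_⟩
  · intro d hd
    refine lt_of_le_of_lt ?_ (divD_lower ha hD1 d hd)
    rw [le_div_iff₀ ha0]
    refine le_trans ?_ hLbA
    rw [pow_succ]
    exact mul_le_mul_of_nonneg_left (by linarith) (by positivity)
  · intro X hX
    refine (divD_card ha hρ0 hLb0 hD1 hD2 hkey X hX).trans ?_
    exact Real.rpow_le_rpow_of_exponent_le hX hρ1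
  · intro q hq1 hq2 hq3
    have e1 : ((a * q : ℕ) : ℝ) ≤ (N : ℝ) ^ (2 / 3 - ρ' / 2) := by
      push_cast
      calc (a : ℝ) * q ≤ (N : ℝ) ^ (ρ' / 2) * (N : ℝ) ^ (2 / 3 - ρ') := by
            apply mul_le_mul a5 (hq2.trans _) (Nat.cast_nonneg _) (by positivity)
            exact Real.rpow_le_rpow_of_exponent_le hN1r (by linarith)
        _ = (N : ℝ) ^ (2 / 3 - ρ' / 2) := by rw [← Real.rpow_add hN0]; ring_nf
    have e2 : a * q ≤ N := by
      have : ((a * q : ℕ) : ℝ) ≤ N := by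
        refine e1.trans ?_
        calc (N : ℝ) ^ (2 / 3 - ρ' / 2) ≤ (N : ℝ) ^ (1 : ℝ) := Real.rpow_le_rpow_of_exponent_le hN1r (by linarith)
          _ = N := Real.rpow_one _
      exact_mod_cast this
    apply a3 q hq1 e2
    apply hD3 (a * q) (Nat.mul_pos ha hq1)
    · refine e1.trans ?_
      exact Real.rpow_le_rpow hN0.le hNMr (by linarith)
    · exact divD_dvd ha hq3
  · intro X hX F hF
    have hX0 : (0 : ℝ) ≤ X := Nat.cast_nonneg _
    have hLc : 1 ≤ L ^ c := one_le_pow₀ hL1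
    rcases le_or_gt (a * X) N with haX | haX
    · have e1 := hD4 (a * X) (haX.trans hNM) (F.image (fun q => a * q)) (by
        intro q' hq'
        rw [mem_image] at hq'
        obtain ⟨q, hq, rfl⟩ := hq'
        obtain ⟨b1, b2, b3, b4⟩ := hF q hq
        refine ⟨Nat.mul_pos ha b1, Nat.mul_le_mul_left _ b2, divD_dvd ha b3, ?_⟩
        by_contra hcon
        exact b4 (a3 q b1 ((Nat.mul_le_mul_left _ b2).trans haX) hcon))
      rw [card_image_of_injective _ (fun x y h => Nat.eq_of_mul_eq_mul_left ha h)] at e1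
      push_cast at e1
      calc (F.card : ℝ) * N ≤ F.card * M := mul_le_mul_of_nonneg_left hNMr (Nat.cast_nonneg _)
        _ ≤ (a * X) ^ 2 * LM ^ c := e1
        _ ≤ (a * X) ^ 2 * (2 * L) ^ c := by
            apply mul_le_mul_of_nonneg_left _ (by positivity)
            exact pow_le_pow_left₀ (by linarith) hLM2 c
        _ = (a ^ 2 * 2 ^ c) * (X ^ 2 * L ^ c) := by rw [mul_pow, mul_pow]; ring
        _ ≤ L * (X ^ 2 * L ^ c) := by
            apply mul_le_mul_of_nonneg_right _ (by positivity)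
            linarith
        _ = X ^ 2 * L ^ (c + 1) := by rw [pow_succ]; ring
    · have e1 : F ⊆ Icc 1 X := by
        intro q hq
        obtain ⟨b1, b2, _, _⟩ := hF q hq
        rw [mem_Icc]
        exact ⟨b1, b2⟩
      have e2 : (F.card : ℝ) ≤ X := by
        have := card_le_card e1
        rw [Nat.card_Icc, Nat.add_sub_cancel] at this
        exact_mod_cast this
      have e3 : (N : ℝ) ≤ a * X := by exact_mod_cast haX.le
      calc (F.card : ℝ) * N ≤ X * (a * X) := mul_le_mul e2 e3 hN0.le hX0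
        _ = a * X ^ 2 * 1 := by ring
        _ ≤ L * X ^ 2 * L ^ c := by
            apply mul_le_mul _ hLc (by norm_num) (by positivity)
            apply mul_le_mul_of_nonneg_right _ (by positivity)
            linarith
        _ = X ^ 2 * L ^ (c + 1) := by rw [pow_succ]; ring

end Pool.Agent.Y883.T4.Len
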