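import Pool.Agent.Y883.T4.CoreB
import Pool.Agent.Y883.Main

set_option autoImplicit false

/-! All moduli `q ≤ N ^ (2 / 3 - ρ)` outside the multiples of few integers have small sums over all residue
classes, with arbitrary bounded weights, and few of the larger moduli have large sums. -/

namespace Pool.Agent.Y883.T4

open Finset
open Pool.Agent.H373R2.T7 (fz)
open Pool.Agent.Y883.T3

/-- some bounded weights give a large sum over some residue class modulo `q` -/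
def BadF (f : ℕ → ℝ) (N A q : ℕ) : Prop := ∃ (G : ℕ → ℂ) (y : ℕ) (c0 : ℤ), (∀ a, ‖G a‖ ≤ 1) ∧ y ≤ N ∧
  -(2 * (N : ℤ)) ≤ c0 ∧ c0 ≤ N ∧
  (N : ℝ) ^ 2 / (q * Real.log N ^ A) < ∑ m ∈ Icc 1 (N / q), ‖∑ a ∈ Icc 1 y, G a *
    fz (fun k => ((f k : ℝ) : ℂ)) N ((a : ℤ) + ((q : ℤ) * m + c0))‖

theorem mainW (ρ : ℝ) (hρ : 0 < ρ) (A : ℕ) :
    ∃ c U N₀ : ℕ, ∀ N : ℕ, N₀ ≤ N → ∀ f : ℕ → ℝ, FM f N U → ∃ D : Finset ℕ,
      (∀ d ∈ D, Real.log N ^ A < (d : ℝ)) ∧
      (∀ X : ℝ, 1 ≤ X → ((D.filter (fun d : ℕ => (d : ℝ) ≤ X)).card : ℝ) ≤ X ^ ρ) ∧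
      (∀ q : ℕ, 1 ≤ q → (q : ℝ) ≤ (N : ℝ) ^ (2 / 3 - ρ) → (∀ d ∈ D, ¬ d ∣ q) → ¬ BadF f N A q) ∧
      ∀ X : ℕ, X ≤ N → ∀ F : Finset ℕ, (∀ q ∈ F, 1 ≤ q ∧ q ≤ X ∧ (∀ d ∈ D, ¬ d ∣ q) ∧ BadF f N A q) →
        (F.card : ℝ) * N ≤ (X : ℝ) ^ 2 * Real.log N ^ c := by
  classical
  obtain ⟨B, hB⟩ := exists_nat_ge (6 / ρ)
  obtain ⟨A', hA'⟩ : ∃ A', A' = A + B + 1 := ⟨_, rfl⟩
  obtain ⟨η, hη⟩ : ∃ η : ℝ, η = min 1 (ρ / 2) := ⟨_, rfl⟩
  have hη0 : 0 < η := by rw [hη]; exact lt_min (by norm_num) (by positivity)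
  have hη1 : η ≤ 1 := by rw [hη]; exact min_le_left _ _
  have hη2 : η ≤ ρ / 2 := by rw [hη]; exact min_le_right _ _
  have hA0 : (0 : ℝ) < A' := by rw [hA']; push_cast; positivity
  have hA1 : 3 / (A' : ℝ) ≤ ρ / 2 := by
    rw [div_le_div_iff₀ hA0 (by norm_num)]
    rw [div_le_iff₀ hρ] at hB
    have : (B : ℝ) ≤ A' := by rw [hA']; push_cast; linarith [(Nat.cast_nonneg A : (0 : ℝ) ≤ A)]
    nlinarith
  obtain ⟨U, N₄, h4⟩ := coreW A A' η ρ hη0 hη1 hρ
  obtain ⟨c, U₁, N₁, h1⟩ := coreB A A' η hη0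
  obtain ⟨N₂, h2⟩ := Pool.Agent.H373R2.T7.ev_L' 20
  refine ⟨c + 1, max U U₁, N₁ + N₂ + N₄ + 1, fun N hN f hf => ?_⟩
  have hL := h2 N (by omega)
  have hL1' : 1 ≤ Real.log (N : ℝ) := by linarith
  have c4 := h4 N (by omega) f (hf.mono (le_max_left _ _) hL1')
  have c1 := h1 N (by omega) f (hf.mono (le_max_right _ _) hL1')
  obtain ⟨L, hLd⟩ : ∃ L, L = Real.log (N : ℝ) := ⟨_, rfl⟩
  rw [← hLd] at hL c4 c1 ⊢
  have hL0 : 0 < L := by linarith
  have hL1 : 1 ≤ L := by linarith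
  have hN0 : (0 : ℝ) < N := by exact_mod_cast (by omega : 0 < N)
  have hN1r : (1 : ℝ) ≤ N := by exact_mod_cast (by omega : 1 ≤ N)
  have hY : 1 ≤ L ^ A' := one_le_pow₀ hL1
  obtain ⟨Rj, hRj⟩ : ∃ Rj : ℕ → Finset ℕ, Rj = fun j => (Icc 1 N).filter (fun q : ℕ =>
    2 ^ j ≤ q ∧ q < 2 * 2 ^ j ∧ BadW f N A (2 ^ j) q) := ⟨_, rfl⟩
  have hmem : ∀ j : ℕ, ∀ q ∈ Rj j, (q ∈ Icc 1 N) ∧ 2 ^ j ≤ q ∧ q < 2 * 2 ^ j ∧
      BadW f N A (2 ^ j) q := by
    intro j q hq
    rw [hRj, mem_filter] at hq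
    exact hq
  obtain ⟨Jf, hJf⟩ : ∃ Jf : ℕ → ℝ, Jf = fun j => if (2 : ℝ) ^ j ≤ (N : ℝ) ^ (2 / 3 - ρ) then 0 else
    (4 : ℝ) ^ j * L ^ c / N := ⟨_, rfl⟩
  have hJf0 : ∀ j, 0 ≤ Jf j := by
    intro j
    rw [hJf]
    simp only
    split_ifs
    · exact le_rfl
    · positivity
  have hJf1 : ∀ j, Jf j ≤ (4 : ℝ) ^ j * L ^ c / N := by
    intro j
    rw [hJf]
    simp only
    split_ifs
    · positivity
    · exact le_rfl
  have hst : ∀ j : ℕ, ∃ D : Finset ℕ, (∀ d ∈ D, L ^ A' < d) ∧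
        (((Rj j).filter (fun q => ∀ d ∈ D, ¬ d ∣ q)).card : ℝ) ≤ Jf j ∧
        ∀ X : ℝ, 1 ≤ X → ((D.filter (fun d : ℕ => (d : ℝ) ≤ X)).card : ℝ) ≤
          X ^ η * Real.log (Rj j).card + 1 := by
    intro j
    apply struct2 (L ^ A') η (Jf j) hY hη0 (hJf0 j) (Rj j).card (Rj j) le_rfl
    intro R' hR' hbig
    have hne : R'.Nonempty := by
      rw [← card_pos]
      have : (0 : ℝ) < R'.card := lt_of_le_of_lt (hJf0 j) hbig
      exact_mod_cast this
    by_cases hc : (2 : ℝ) ^ j ≤ (N : ℝ) ^ (2 / 3 - ρ)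
    · exact c4 (2 ^ j) Nat.one_le_two_pow (by push_cast; exact hc) R' hne
        (fun q hq => ⟨(hmem j q (hR' hq)).2.1, (hmem j q (hR' hq)).2.2.1⟩)
        (fun q hq => (hmem j q (hR' hq)).2.2.2)
    · obtain ⟨q0, hq0⟩ := hne
      have hq1 := hmem j q0 (hR' hq0)
      apply c1 (2 ^ j) Nat.one_le_two_pow (hq1.2.1.trans (mem_Icc.1 hq1.1).2) R'
        (fun q hq => ⟨(hmem j q (hR' hq)).2.1, (hmem j q (hR' hq)).2.2.1⟩)
        (fun q hq => (hmem j q (hR' hq)).2.2.2)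
      rw [hJf] at hbig
      simp only at hbig
      rw [if_neg hc, div_lt_iff₀ hN0] at hbig
      have e : (((2 ^ j : ℕ) : ℝ)) ^ 2 = (4 : ℝ) ^ j := by
        push_cast
        rw [← pow_mul, mul_comm, pow_mul]
        norm_num
      rw [e]
      exact hbig
  choose Dj hDj using hst
  obtain ⟨J, hJ⟩ : ∃ J, J = Nat.log 2 N + 1 := ⟨_, rfl⟩
  have hJL : (J : ℝ) ≤ 2 * L + 1 := by
    rw [hJ]
    push_cast
    have h3 : (Nat.log 2 N : ℝ) ≤ Real.logb 2 N := by
      have := Real.natLog_le_logb N 2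
      exact_mod_cast this
    have h4 : Real.logb 2 N ≤ 2 * L := by
      rw [Real.logb, ← hLd, div_le_iff₀ (Real.log_pos (by norm_num))]
      have h2 : (1 : ℝ) ≤ 2 * Real.log 2 := by linarith [Real.log_two_gt_d9]
      calc L = L * 1 := (mul_one L).symm
        _ ≤ L * (2 * Real.log 2) := mul_le_mul_of_nonneg_left h2 hL0.le
        _ = 2 * L * Real.log 2 := by ring
    linarith
  have hcardlog : ∀ j, Real.log (Rj j).card ≤ L := by
    intro j
    rcases Nat.eq_zero_or_pos (Rj j).card with h0 | h0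
    · rw [h0]; simp; linarith
    · rw [hLd]
      apply Real.log_le_log (by exact_mod_cast h0)
      have : (Rj j).card ≤ N := by
        calc (Rj j).card ≤ (Icc 1 N).card := by rw [hRj]; exact card_filter_le _ _
          _ = N := by simp
      exact_mod_cast this
  have hlogj : ∀ q : ℕ, q ≤ N → Nat.log 2 q ∈ range J := by
    intro q hq
    rw [mem_range, hJ]
    have := Nat.log_mono_right (b := 2) hq
    omega
  -- a bad modulus without a divisor in the set is in the leftover of its block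
  have hleft : ∀ q : ℕ, 1 ≤ q → q ≤ N → (∀ d ∈ (range J).biUnion Dj, ¬ d ∣ q) → BadF f N A q →
      q ∈ (Rj (Nat.log 2 q)).filter (fun q' => ∀ d ∈ Dj (Nat.log 2 q), ¬ d ∣ q') := by
    intro q hq1 hqN' hqD hb
    have hq0 : (0 : ℝ) < q := by exact_mod_cast hq1
    obtain ⟨j, hj⟩ : ∃ j, j = Nat.log 2 q := ⟨_, rfl⟩
    have hj1 : 2 ^ j ≤ q := by rw [hj]; exact Nat.pow_log_le_self 2 (by omega)
    have hj2 : q < 2 * 2 ^ j := by
      have := Nat.lt_pow_succ_log_self (by norm_num : 1 < 2) q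
      rw [pow_succ] at this
      rw [hj]
      omega
    rw [← hj]
    obtain ⟨G, y, c0, hG, hy, hc1, hc2, hsum⟩ := hb
    rw [← hLd] at hsum
    rw [mem_filter, hRj, mem_filter, mem_Icc]
    refine ⟨⟨⟨hq1, hqN'⟩, hj1, hj2, G, y, c0, hG, hy, hc1, hc2, ?_⟩, ?_⟩
    · rw [← hLd]
      have hsub : Icc 1 (N / q) ⊆ Icc 1 (N / 2 ^ j) := by
        apply Icc_subset_Icc le_rfl
        exact Nat.div_le_div_left hj1 (by positivity)
      refine le_trans ?_ (hsum.le.trans (sum_le_sum_of_subset_of_nonneg hsub (fun _ _ _ => norm_nonneg _)))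
      have h10 : ((N / 2 ^ j : ℕ) : ℝ) ≤ 2 * (N / q) := by
        have h11 : ((N / 2 ^ j : ℕ) : ℝ) ≤ (N : ℝ) / ((2 ^ j : ℕ) : ℝ) := Nat.cast_div_le
        refine h11.trans ?_
        have h12 : (0 : ℝ) < ((2 ^ j : ℕ) : ℝ) := by positivity
        have h13 : (q : ℝ) ≤ 2 * ((2 ^ j : ℕ) : ℝ) := by exact_mod_cast hj2.le
        rw [← mul_div_assoc, div_le_div_iff₀ h12 hq0]
        nlinarith
      calc ((N : ℝ) / L ^ (2 * A + 4)) * (N / 2 ^ j : ℕ) ≤ ((N : ℝ) / L ^ (2 * A + 4)) * (2 * (N / q)) :=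
            mul_le_mul_of_nonneg_left h10 (by positivity)
        _ = (N : ℝ) ^ 2 / (q * L ^ A) * (2 / L ^ (A + 4)) := by
            rw [show 2 * A + 4 = A + (A + 4) by ring, pow_add]
            field_simp
        _ ≤ (N : ℝ) ^ 2 / (q * L ^ A) * 1 := by
            apply mul_le_mul_of_nonneg_left _ (by positivity)
            rw [div_le_one (by positivity)]
            calc (2 : ℝ) ≤ L := by linarith
              _ = L ^ 1 := (pow_one L).symm
              _ ≤ L ^ (A + 4) := pow_le_pow_right₀ hL1 (by omega)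
        _ = _ := mul_one _
    · intro d hd
      apply hqD
      exact mem_biUnion.2 ⟨j, by rw [hj]; exact hlogj q hqN', hd⟩
  refine ⟨(range J).biUnion Dj, ?_, ?_, ?_, ?_⟩
  · intro d hd
    obtain ⟨j, _, hj⟩ := mem_biUnion.1 hd
    have h3 := (hDj j).1 d hj
    refine lt_of_le_of_lt ?_ h3
    apply pow_le_pow_right₀ hL1
    omega
  · intro X hX
    have hX0 : 0 < X := by linarith
    rcases le_or_gt X (L ^ A') with hXY | hXY
    · have h3 : ((range J).biUnion Dj).filter (fun d : ℕ => (d : ℝ) ≤ X) = ∅ := by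
        rw [filter_eq_empty_iff]
        intro d hd hdX
        obtain ⟨j, _, hj⟩ := mem_biUnion.1 hd
        have h3 := (hDj j).1 d hj
        linarith
      rw [h3]
      simp
      positivity
    · have h3 : (((range J).biUnion Dj).filter (fun d : ℕ => (d : ℝ) ≤ X)).card ≤
          ∑ j ∈ range J, ((Dj j).filter (fun d : ℕ => (d : ℝ) ≤ X)).card := by
        rw [filter_biUnion]
        exact card_biUnion_le
      have hXη1 : 1 ≤ X ^ η := Real.one_le_rpow hX hη0.le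
      calc ((((range J).biUnion Dj).filter (fun d : ℕ => (d : ℝ) ≤ X)).card : ℝ)
          ≤ ((∑ j ∈ range J, ((Dj j).filter (fun d : ℕ => (d : ℝ) ≤ X)).card : ℕ) : ℝ) := by
            exact_mod_cast h3
        _ = ∑ j ∈ range J, (((Dj j).filter (fun d : ℕ => (d : ℝ) ≤ X)).card : ℝ) := by push_cast; rfl
        _ ≤ ∑ _j ∈ range J, (X ^ η * L + 1) := by
            apply sum_le_sum
            intro j _
            refine ((hDj j).2.2 X hX).trans ?_
            have := mul_le_mul_of_nonneg_left (hcardlog j) (by positivity : 0 ≤ X ^ η)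
            linarith
        _ = J * (X ^ η * L + 1) := by rw [sum_const, card_range, nsmul_eq_mul]
        _ ≤ (2 * L + 1) * (X ^ η * L + 1) := mul_le_mul_of_nonneg_right hJL (by positivity)
        _ ≤ (3 * L) * (X ^ η * L + X ^ η * L) := by
            apply mul_le_mul (by linarith) _ (by positivity) (by positivity)
            nlinarith
        _ = 6 * (L ^ 2 * X ^ η) := by ring
        _ ≤ L * (L ^ 2 * X ^ η) := mul_le_mul_of_nonneg_right (by linarith) (by positivity)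
        _ = L ^ 3 * X ^ η := by ring
        _ ≤ X ^ (3 / (A' : ℝ)) * X ^ η := by
            apply mul_le_mul_of_nonneg_right _ (by positivity)
            have e1 : L ^ 3 = (L ^ A') ^ (3 / (A' : ℝ)) := by
              rw [← Real.rpow_natCast L A', ← Real.rpow_mul hL0.le, mul_div_cancel₀ _ hA0.ne']
              norm_num
            rw [e1]
            exact Real.rpow_le_rpow (by positivity) hXY.le (by positivity)
        _ = X ^ (3 / (A' : ℝ) + η) := by rw [Real.rpow_add hX0]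
        _ ≤ X ^ ρ := Real.rpow_le_rpow_of_exponent_le hX (by linarith)
  · intro q hq1 hqN hqD hb
    have hqN' : q ≤ N := by
      have : (q : ℝ) ≤ (N : ℝ) ^ (1 : ℝ) := hqN.trans (rpow_step _ _ _ hN1r (by linarith))
      rw [Real.rpow_one] at this
      exact_mod_cast this
    have h5 := hleft q hq1 hqN' hqD hb
    have h6 := (hDj (Nat.log 2 q)).2.1
    have h7 : Jf (Nat.log 2 q) = 0 := by
      rw [hJf]
      simp only
      rw [if_pos]
      refine le_trans ?_ hqN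
      exact_mod_cast Nat.pow_log_le_self 2 (by omega)
    rw [h7] at h6
    have h8 := card_pos.2 ⟨q, h5⟩
    have h9 := (Nat.cast_pos (α := ℝ)).2 h8
    exact absurd h6 (not_le.2 (by convert h9))
  · intro X hXN F hF
    rcases Nat.eq_zero_or_pos X with hX0 | hX0
    · have : F = ∅ := by
        rw [eq_empty_iff_forall_notMem]
        intro q hq
        have := hF q hq
        omega
      rw [this]
      simp
      positivity
    have hX0r : (0 : ℝ) < X := by exact_mod_cast hX0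
    obtain ⟨n, hn⟩ : ∃ n, n = Nat.log 2 X := ⟨_, rfl⟩
    have hsub : F ⊆ (range (n + 1)).biUnion (fun j => (Rj j).filter (fun q => ∀ d ∈ Dj j, ¬ d ∣ q)) := by
      intro q hq
      obtain ⟨hq1, hqX, hqD, hqb⟩ := hF q hq
      rw [mem_biUnion]
      refine ⟨Nat.log 2 q, ?_, hleft q hq1 (hqX.trans hXN) hqD hqb⟩
      rw [mem_range, hn]
      have := Nat.log_mono_right (b := 2) hqX
      omega
    have h4 : (F.card : ℝ) ≤ ∑ j ∈ range (n + 1), (4 : ℝ) ^ j * L ^ c / N := by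
      refine le_trans (?_ : _ ≤ ((∑ j ∈ range (n + 1), ((Rj j).filter (fun q => ∀ d ∈ Dj j, ¬ d ∣ q)).card : ℕ) : ℝ)) ?_
      · exact_mod_cast (card_le_card hsub).trans card_biUnion_le
      · push_cast
        exact sum_le_sum fun j _ => ((hDj j).2.1).trans (hJf1 j)
    have h5 : ∑ j ∈ range (n + 1), (4 : ℝ) ^ j * L ^ c / N =
        (∑ j ∈ range (n + 1), (4 : ℝ) ^ j) * (L ^ c / N) := by
      rw [sum_mul]
      apply sum_congr rfl
      intro j _
      ring
    have h6 : (4 : ℝ) ^ n ≤ (X : ℝ) ^ 2 := by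
      have h7 : 2 ^ n ≤ X := by rw [hn]; exact Nat.pow_log_le_self 2 (by omega)
      have h8 : ((2 : ℝ) ^ n) ≤ X := by exact_mod_cast h7
      calc (4 : ℝ) ^ n = ((2 : ℝ) ^ n) ^ 2 := by
            rw [← pow_mul, mul_comm n 2, pow_mul]; norm_num
        _ ≤ (X : ℝ) ^ 2 := pow_le_pow_left₀ (by positivity) h8 2
    have h7 := sum_four n
    calc (F.card : ℝ) * N ≤
          ((∑ j ∈ range (n + 1), (4 : ℝ) ^ j) * (L ^ c / N)) * N := by
          rw [← h5]
          exact mul_le_mul_of_nonneg_right h4 hN0.le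
      _ = (∑ j ∈ range (n + 1), (4 : ℝ) ^ j) * L ^ c := by
          field_simp
      _ ≤ (2 * (X : ℝ) ^ 2) * L ^ c := by
          apply mul_le_mul_of_nonneg_right _ (by positivity)
          linarith
      _ = (X : ℝ) ^ 2 * (2 * L ^ c) := by ring
      _ ≤ (X : ℝ) ^ 2 * (L * L ^ c) := by
          apply mul_le_mul_of_nonneg_left _ (by positivity)
          exact mul_le_mul_of_nonneg_right (by linarith) (by positivity)
      _ = (X : ℝ) ^ 2 * L ^ (c + 1) := by rw [← pow_succ']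

end Pool.Agent.Y883.T4
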