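import Pool.Agent.Y883.T4.Main

set_option autoImplicit false

/-! From a small mean value to all but few shifts in a residue class, uniformly in the length of the sum
and for many weights. -/

namespace Pool.Agent.Y883.T4

open Finset
open Pool.Agent.H373R2.T7 (fz ev_L')
open Pool.Agent.Y883.T3

/-- the sum over an interval of the translates -/
lemma fz_sum_le (f : ℕ → ℝ) (N : ℕ) (S W : ℝ) (hS : ∑ n ∈ Icc 1 N, f n ^ 2 ≤ S) (s : ℤ) (y y' : ℕ) (hW : 0 ≤ W)
    (hyy : (y' : ℝ) ≤ y + W) :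
    ∑ a ∈ Ioc y y', ‖fz (fun k => ((f k : ℝ) : ℂ)) N ((a : ℤ) + s)‖ ≤ √(W * S) := by
  have hS0 : 0 ≤ S := (sum_nonneg fun n _ => sq_nonneg _).trans hS
  have h1 := sum_mul_sq_le_sq_mul_sq (Ioc y y') (fun _ => (1 : ℝ))
    (fun a => ‖fz (fun k => ((f k : ℝ) : ℂ)) N ((a : ℤ) + s)‖)
  simp only [one_mul, one_pow] at h1
  have h2 : ∑ a ∈ Ioc y y', ‖fz (fun k => ((f k : ℝ) : ℂ)) N ((a : ℤ) + s)‖ ^ 2 ≤ S := by
    refine le_trans ?_ hS
    have e1 : ∀ a ∈ Ioc y y', ‖fz (fun k => ((f k : ℝ) : ℂ)) N ((a : ℤ) + s)‖ ^ 2 =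
        if 1 ≤ (a : ℤ) + s ∧ (a : ℤ) + s ≤ N then f ((a : ℤ) + s).toNat ^ 2 else 0 := by
      intro a _
      unfold fz
      split_ifs
      · rw [Complex.norm_real, Real.norm_eq_abs, sq_abs]
      · rw [norm_zero]; norm_num
    rw [sum_congr rfl e1, ← sum_filter]
    have e2 : ∑ a ∈ (Ioc y y').filter (fun a : ℕ => 1 ≤ (a : ℤ) + s ∧ (a : ℤ) + s ≤ N), f ((a : ℤ) + s).toNat ^ 2 =
        ∑ n ∈ ((Ioc y y').filter (fun a : ℕ => 1 ≤ (a : ℤ) + s ∧ (a : ℤ) + s ≤ N)).image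
          (fun a : ℕ => ((a : ℤ) + s).toNat), f n ^ 2 := by
      rw [sum_image]
      intro a ha b hb hab
      rw [mem_coe, mem_filter] at ha hb
      simp only at hab
      have h3 : (a : ℤ) + s = (b : ℤ) + s := by
        have h4 : ((((a : ℤ) + s).toNat : ℕ) : ℤ) = ((((b : ℤ) + s).toNat : ℕ) : ℤ) := by exact_mod_cast hab
        rw [Int.toNat_of_nonneg (by omega), Int.toNat_of_nonneg (by omega)] at h4
        exact h4
      omega
    rw [e2]
    apply sum_le_sum_of_subset_of_nonneg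
    · intro n hn
      rw [mem_image] at hn
      obtain ⟨a, ha, rfl⟩ := hn
      rw [mem_filter] at ha
      rw [mem_Icc]
      omega
    · intro n _ _
      exact sq_nonneg _
  have h3 : ∑ _a ∈ Ioc y y', (1 : ℝ) ≤ W := by
    rw [sum_const, Nat.card_Ioc, nsmul_eq_mul, mul_one]
    rcases le_total y y' with h | h
    · rw [Nat.cast_sub h]; linarith
    · rw [Nat.sub_eq_zero_of_le h]; simpa using hW
  apply Real.le_sqrt_of_sq_le
  refine h1.trans ?_
  exact mul_le_mul h3 h2 (sum_nonneg fun _ _ => sq_nonneg _) hW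

open Classical in
theorem max_of_not_bad (A T : ℕ) : ∃ N₀ : ℕ, ∀ N : ℕ, N₀ ≤ N → ∀ f : ℕ → ℝ,
    (∑ n ∈ Icc 1 N, f n ^ 2 ≤ N * Real.log N ^ 8) → ∀ q : ℕ, 1 ≤ q → q ≤ N → ¬ BadF f N (4 * A + T + 20) q →
    ∀ c0 : ℤ, -(2 * (N : ℤ)) ≤ c0 → c0 ≤ N → ∀ J : ℕ, (J : ℝ) ≤ Real.log N ^ T → ∀ G : ℕ → ℕ → ℂ,
    (∀ l < J, ∀ a, ‖G l a‖ ≤ 1) →
    (((Icc 1 (N / q)).filter (fun m : ℕ => ∃ l < J, ∃ y ≤ N, (N : ℝ) / Real.log N ^ A <
      ‖∑ a ∈ Icc 1 y, G l a * fz (fun k => ((f k : ℝ) : ℂ)) N ((a : ℤ) + ((q : ℤ) * m + c0))‖)).card : ℝ) ≤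
      N / (q * Real.log N ^ A) := by
  obtain ⟨N₁, h1⟩ := ev_L' 16
  obtain ⟨N₂, h2⟩ := ev_log_rpow (2 * A + 12) 2 1 (by norm_num)
  refine ⟨N₁ + N₂ + 1, fun N hN f hf q hq1 hqN hbad c0 hc1 hc2 J hJ G hG => ?_⟩
  have hL := h1 N (by omega)
  have hLN := h2 N (by omega)
  have hN0 : (0 : ℝ) < N := by exact_mod_cast (by omega : 0 < N)
  have hN1r : (1 : ℝ) ≤ N := by exact_mod_cast (by omega : 1 ≤ N)
  obtain ⟨L, hLd⟩ : ∃ L, L = Real.log (N : ℝ) := ⟨_, rfl⟩
  unfold BadF at hbad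
  rw [← hLd] at hL hLN hf hJ hbad ⊢
  rw [Real.rpow_one] at hLN
  have hL0 : 0 < L := by linarith
  have hL1 : 1 ≤ L := by linarith
  have hq0 : (0 : ℝ) < q := by exact_mod_cast hq1
  push Not at hbad
  -- the grid
  obtain ⟨W, hW⟩ : ∃ W, W = (N : ℝ) / L ^ (2 * A + 12) := ⟨_, rfl⟩
  have hW2 : 2 ≤ W := by
    rw [hW, le_div_iff₀ (by positivity)]
    exact hLN
  have hW0 : 0 < W := by linarith
  obtain ⟨h, hh⟩ : ∃ h, h = ⌊W⌋₊ := ⟨_, rfl⟩
  have hh1 : (h : ℝ) ≤ W := by rw [hh]; exact Nat.floor_le hW0.le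
  have hh2 : W / 2 ≤ h := by
    have := Nat.lt_floor_add_one W
    rw [← hh] at this
    linarith
  have hhpos : 0 < h := by
    have : (0 : ℝ) < h := by linarith
    exact_mod_cast this
  have hh0 : (0 : ℝ) < h := by exact_mod_cast hhpos
  obtain ⟨Kg, hKg⟩ : ∃ Kg, Kg = N / h + 1 := ⟨_, rfl⟩
  have hKgr : (Kg : ℝ) ≤ 3 * L ^ (2 * A + 12) := by
    rw [hKg]
    push_cast
    have e1 : ((N / h : ℕ) : ℝ) ≤ N / h := Nat.cast_div_le
    have e2 : (N : ℝ) / h ≤ N / (W / 2) := div_le_div_of_nonneg_left hN0.le (by positivity) hh2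
    have e3 : (N : ℝ) / (W / 2) = 2 * L ^ (2 * A + 12) := by
      rw [hW]
      field_simp
    have e4 : 1 ≤ L ^ (2 * A + 12) := one_le_pow₀ hL1
    linarith
  obtain ⟨S, hS⟩ : ∃ S : ℕ → ℕ → ℕ → ℝ, S = fun l y (m : ℕ) => ‖∑ a ∈ Icc 1 y, G l a *
      fz (fun k => ((f k : ℝ) : ℂ)) N ((a : ℤ) + ((q : ℤ) * m + c0))‖ := ⟨_, rfl⟩
  -- each pair
  obtain ⟨Bp, hBp⟩ : ∃ Bp : ℕ → ℕ → Finset ℕ, Bp = fun l j => (Icc 1 (N / q)).filter
      (fun m : ℕ => (N : ℝ) / (2 * L ^ A) < S l (j * h) m) := ⟨_, rfl⟩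
  have hBpc : ∀ l < J, ∀ j, j * h ≤ N → ((Bp l j).card : ℝ) ≤ 2 * N / (q * L ^ (3 * A + T + 20)) := by
    intro l hl j hj
    have e1 := hbad (G l) (j * h) c0 (hG l hl) hj hc1 hc2
    have e2 : ((Bp l j).card : ℝ) * (N / (2 * L ^ A)) ≤ (N : ℝ) ^ 2 / (q * L ^ (4 * A + T + 20)) := by
      refine le_trans ?_ e1
      rw [← nsmul_eq_mul]
      calc (Bp l j).card • ((N : ℝ) / (2 * L ^ A)) ≤ ∑ m ∈ Bp l j, S l (j * h) m := by
            apply card_nsmul_le_sum
            intro m hm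
            rw [hBp, mem_filter] at hm
            exact hm.2.le
        _ ≤ ∑ m ∈ Icc 1 (N / q), S l (j * h) m := by
            apply sum_le_sum_of_subset_of_nonneg
            · rw [hBp]; exact filter_subset _ _
            · intro m _ _
              rw [hS]; exact norm_nonneg _
        _ = _ := by rw [hS]
    have e3 : (N : ℝ) ^ 2 / (q * L ^ (4 * A + T + 20)) = (2 * N / (q * L ^ (3 * A + T + 20))) * (N / (2 * L ^ A)) := by
      rw [show 4 * A + T + 20 = (3 * A + T + 20) + A by ring, pow_add L (3 * A + T + 20) A]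
      field_simp
    rw [e3] at e2
    exact le_of_mul_le_mul_right e2 (by positivity)
  -- the bad shifts
  have hsub : (Icc 1 (N / q)).filter (fun m : ℕ => ∃ l < J, ∃ y ≤ N, (N : ℝ) / L ^ A < S l y m) ⊆
      (range J ×ˢ (range Kg).filter (fun j => j * h ≤ N)).biUnion (fun p => Bp p.1 p.2) := by
    intro m hm
    rw [mem_filter] at hm
    obtain ⟨hm1, l, hl, y, hy, hbig⟩ := hm
    rw [mem_biUnion]
    obtain ⟨j, hj⟩ : ∃ j, j = y / h := ⟨_, rfl⟩
    have hj1 : j * h ≤ y := by rw [hj]; exact Nat.div_mul_le_self _ _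
    have hj2 : y < j * h + h := by
      rw [hj]
      have := Nat.lt_div_mul_add hhpos (a := y)
      exact this
    refine ⟨(l, j), ?_, ?_⟩
    · rw [mem_product, mem_range, mem_filter, mem_range]
      refine ⟨hl, ?_, hj1.trans hy⟩
      rw [hKg, hj, Nat.lt_succ_iff]
      exact Nat.div_le_div_right hy
    · rw [hBp, mem_filter]
      refine ⟨hm1, ?_⟩
      have e1 : ∑ a ∈ Icc 1 y, G l a * fz (fun k => ((f k : ℝ) : ℂ)) N ((a : ℤ) + ((q : ℤ) * m + c0)) =
          ∑ a ∈ Icc 1 (j * h), G l a * fz (fun k => ((f k : ℝ) : ℂ)) N ((a : ℤ) + ((q : ℤ) * m + c0)) +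
          ∑ a ∈ Ioc (j * h) y, G l a * fz (fun k => ((f k : ℝ) : ℂ)) N ((a : ℤ) + ((q : ℤ) * m + c0)) := by
        rw [← sum_union (by
          rw [disjoint_left]; intro n hn hn'
          rw [mem_Icc] at hn; rw [mem_Ioc] at hn'; omega)]
        congr 1
        ext n
        rw [mem_union, mem_Icc, mem_Icc, mem_Ioc]
        omega
      have e2 : ‖∑ a ∈ Ioc (j * h) y, G l a * fz (fun k => ((f k : ℝ) : ℂ)) N ((a : ℤ) + ((q : ℤ) * m + c0))‖ ≤
          N / (2 * L ^ A) := by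
        refine (norm_sum_le _ _).trans ?_
        have e3 : ∀ a ∈ Ioc (j * h) y, ‖G l a * fz (fun k => ((f k : ℝ) : ℂ)) N ((a : ℤ) + ((q : ℤ) * m + c0))‖ ≤
            ‖fz (fun k => ((f k : ℝ) : ℂ)) N ((a : ℤ) + ((q : ℤ) * m + c0))‖ := by
          intro a _
          rw [norm_mul]
          exact mul_le_of_le_one_left (norm_nonneg _) (hG l hl a)
        refine (sum_le_sum e3).trans ?_
        refine (fz_sum_le f N (N * L ^ 8) W hf _ (j * h) y hW0.le (by
          have : (y : ℝ) ≤ ((j * h + h : ℕ) : ℝ) := by exact_mod_cast hj2.le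
          push_cast at this ⊢
          linarith)).trans ?_
        rw [Real.sqrt_le_left (by positivity), hW]
        calc (N : ℝ) / L ^ (2 * A + 12) * (N * L ^ 8) = (N / L ^ A) ^ 2 * (1 / L ^ 4) := by
              rw [show 2 * A + 12 = A + A + 4 + 8 by ring, pow_add, pow_add, pow_add]
              field_simp
          _ ≤ (N / L ^ A) ^ 2 * (1 / 4) := by
              apply mul_le_mul_of_nonneg_left _ (by positivity)
              apply div_le_div_of_nonneg_left (by norm_num) (by norm_num)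
              have : L ^ 1 ≤ L ^ 4 := pow_le_pow_right₀ hL1 (by norm_num)
              linarith [pow_one L]
          _ = (N / (2 * L ^ A)) ^ 2 := by
              field_simp
              norm_num
      have e3 : (N : ℝ) / L ^ A = N / (2 * L ^ A) + N / (2 * L ^ A) := by
        field_simp
        norm_num
      rw [hS] at hbig ⊢
      simp only at hbig ⊢
      rw [e1] at hbig
      have e4 := norm_add_le
        (∑ a ∈ Icc 1 (j * h), G l a * fz (fun k => ((f k : ℝ) : ℂ)) N ((a : ℤ) + ((q : ℤ) * m + c0)))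
        (∑ a ∈ Ioc (j * h) y, G l a * fz (fun k => ((f k : ℝ) : ℂ)) N ((a : ℤ) + ((q : ℤ) * m + c0)))
      linarith
  have hS' : (Icc 1 (N / q)).filter (fun m : ℕ => ∃ l < J, ∃ y ≤ N, (N : ℝ) / L ^ A <
      ‖∑ a ∈ Icc 1 y, G l a * fz (fun k => ((f k : ℝ) : ℂ)) N ((a : ℤ) + ((q : ℤ) * m + c0))‖) =
      (Icc 1 (N / q)).filter (fun m : ℕ => ∃ l < J, ∃ y ≤ N, (N : ℝ) / L ^ A < S l y m) := by
    rw [hS]
  rw [hS']
  have hc1 : (((Icc 1 (N / q)).filter (fun m : ℕ => ∃ l < J, ∃ y ≤ N, (N : ℝ) / L ^ A < S l y m)).card : ℝ) ≤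
      ∑ p ∈ range J ×ˢ (range Kg).filter (fun j => j * h ≤ N), ((Bp p.1 p.2).card : ℝ) := by
    exact_mod_cast (card_le_card hsub).trans card_biUnion_le
  have hc2 : ∑ p ∈ range J ×ˢ (range Kg).filter (fun j => j * h ≤ N), ((Bp p.1 p.2).card : ℝ) ≤
      ∑ _p ∈ range J ×ˢ (range Kg).filter (fun j => j * h ≤ N), 2 * N / (q * L ^ (3 * A + T + 20)) := by
    apply sum_le_sum
    intro p hp
    rw [mem_product, mem_range, mem_filter] at hp
    exact hBpc p.1 hp.1 p.2 hp.2.2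
  rw [sum_const, nsmul_eq_mul, card_product, card_range] at hc2
  have hc3 : (((J * ((range Kg).filter (fun j => j * h ≤ N)).card : ℕ)) : ℝ) ≤ L ^ T * (3 * L ^ (2 * A + 12)) := by
    push_cast
    apply mul_le_mul hJ _ (by positivity) (by positivity)
    have : ((range Kg).filter (fun j => j * h ≤ N)).card ≤ Kg := by
      refine (card_filter_le _ _).trans ?_
      rw [card_range]
    exact le_trans (by exact_mod_cast this) hKgr
  refine hc1.trans (hc2.trans ?_)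
  calc (((J * ((range Kg).filter (fun j => j * h ≤ N)).card : ℕ)) : ℝ) * (2 * N / (q * L ^ (3 * A + T + 20))) ≤
        L ^ T * (3 * L ^ (2 * A + 12)) * (2 * N / (q * L ^ (3 * A + T + 20))) :=
        mul_le_mul_of_nonneg_right hc3 (by positivity)
    _ = (6 / L ^ 8) * (N / (q * L ^ A)) := by
        rw [show 3 * A + T + 20 = T + (2 * A + 12) + 8 + A by ring, pow_add L (T + (2 * A + 12) + 8) A,
          pow_add L (T + (2 * A + 12)) 8, pow_add L T (2 * A + 12)]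
        field_simp
        norm_num
    _ ≤ 1 * (N / (q * L ^ A)) := by
        apply mul_le_mul_of_nonneg_right _ (by positivity)
        rw [div_le_one (by positivity)]
        have : L ^ 1 ≤ L ^ 8 := pow_le_pow_right₀ hL1 (by norm_num)
        linarith [pow_one L]
    _ = _ := one_mul _

end Pool.Agent.Y883.T4
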