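import Pool.Agent.Y883.T4.Tup

set_option autoImplicit false

/-! Prime tuples with shifts in residue classes: the reduction to sums with bounded weights. -/

namespace Pool.Agent.Y883.T4

open Finset Polynomial
open Pool.Agent.H373R2.T7
open Pool.Agent.Y883.T3

/-- one shift, for a fixed family of weights -/
lemma one_shift (B N M q W z : ℕ) (f : ℕ → ℝ) (hN : 1 ≤ N) (hq : 1 ≤ q) (hqN : q ≤ N) (hM : M = (2 * B + 2) * N)
    (L LM : ℝ) (hLMd : LM = Real.log M) (hLLM : L ≤ LM) (hL1 : 1 ≤ L)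
    (hLbig : 2 * (2 * B + 2 : ℝ) ^ 2 + (2 * B + 2) ≤ L)
    (hf : ∑ p ∈ Icc 1 M, |(ArithmeticFunction.vonMangoldt p - lamz z p) - f p| ≤ M / LM ^ (W + 1))
    (hbad : ¬ BadF f M (W + 1) q) (c : ℕ) (hc : c ≤ B * N) (K : ℝ) (hK : 0 < K) (G : ℕ → ℝ)
    (hG : ∀ n ∈ Icc 1 N, |G n| ≤ K) :
    ∑ v ∈ Icc 1 (N / q), |∑ n ∈ Icc 1 N, G n * (lamI ((n : ℤ) + ((c : ℤ) + q * (v : ℕ))) -
      lamzI z ((n : ℤ) + ((c : ℤ) + q * (v : ℕ))))| ≤ K * ((N / L ^ W) * ((N / q : ℕ) : ℝ)) := by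
  classical
  have hN0 : (0 : ℝ) < N := by exact_mod_cast hN
  have hq0 : (0 : ℝ) < q := by exact_mod_cast hq
  have hL0 : 0 < L := by linarith
  have hLM0 : 0 < LM := by linarith
  have hMr : (M : ℝ) = (2 * B + 2) * N := by rw [hM]; push_cast; ring
  have hM0 : (0 : ℝ) < M := by rw [hMr]; positivity
  have hNM : N ≤ M := by rw [hM]; exact Nat.le_mul_of_pos_left _ (by omega)
  unfold BadF at hbad
  push Not at hbad
  rw [← hLMd] at hbad
  obtain ⟨G', hG'⟩ : ∃ G' : ℕ → ℂ, G' = fun n => if n ∈ Icc 1 N then ((G n / K : ℝ) : ℂ) else 0 := ⟨_, rfl⟩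
  have hG'1 : ∀ a, ‖G' a‖ ≤ 1 := by
    intro a
    rw [hG']
    simp only
    split_ifs with ha
    · rw [Complex.norm_real, Real.norm_eq_abs, abs_div, abs_of_pos hK, div_le_one hK]
      exact hG a ha
    · simp
  have h1 := hbad G' N (c : ℤ) hG'1 hNM (by
    have : (0 : ℤ) ≤ c := by positivity
    have : (0 : ℤ) ≤ M := by positivity
    linarith) (by
    have h2 : c ≤ M := by
      rw [hM]
      calc c ≤ B * N := hc
        _ ≤ (2 * B + 2) * N := Nat.mul_le_mul_right _ (by omega)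
    exact_mod_cast h2)
  -- positions
  have hpos : ∀ n ∈ Icc 1 N, ∀ v ∈ Icc 1 (N / q), 1 ≤ (n : ℤ) + ((c : ℤ) + q * (v : ℕ)) ∧
      (n : ℤ) + ((c : ℤ) + q * (v : ℕ)) ≤ M := by
    intro n hn v hv
    rw [mem_Icc] at hn hv
    have h2 : q * v ≤ N := by
      calc q * v ≤ q * (N / q) := Nat.mul_le_mul_left _ hv.2
        _ ≤ N := Nat.mul_div_le _ _
    have h3 : n + (c + q * v) ≤ M := by
      rw [hM]
      calc n + (c + q * v) ≤ N + (B * N + N) := by omega
        _ ≤ (2 * B + 2) * N := by nlinarith [Nat.zero_le (B * N)]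
    constructor
    · have : 1 ≤ n + (c + q * v) := by omega
      exact_mod_cast this
    · exact_mod_cast h3
  have hterm : ∀ v ∈ Icc 1 (N / q), |∑ n ∈ Icc 1 N, G n * (lamI ((n : ℤ) + ((c : ℤ) + q * (v : ℕ))) -
      lamzI z ((n : ℤ) + ((c : ℤ) + q * (v : ℕ))))| ≤
      K * ‖∑ a ∈ Icc 1 N, G' a * fz (fun k => ((f k : ℝ) : ℂ)) M ((a : ℤ) + ((q : ℤ) * v + c))‖ +
        K * (M / LM ^ (W + 1)) := by
    intro v hv
    obtain ⟨p, hp⟩ : ∃ p : ℕ → ℕ, p = fun n => n + (c + q * v) := ⟨_, rfl⟩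
    have hpp : ∀ n : ℕ, (n : ℤ) + ((c : ℤ) + q * (v : ℕ)) = ((p n : ℕ) : ℤ) := by
      intro n
      rw [hp]
      push_cast
      ring
    have hpM : ∀ n ∈ Icc 1 N, 1 ≤ p n ∧ p n ≤ M := by
      intro n hn
      have := hpos n hn v hv
      rw [hpp] at this
      constructor
      · exact_mod_cast this.1
      · exact_mod_cast this.2
    have h2 : ∀ n ∈ Icc 1 N, lamI ((n : ℤ) + ((c : ℤ) + q * (v : ℕ))) - lamzI z ((n : ℤ) + ((c : ℤ) + q * (v : ℕ))) =
        f (p n) + ((ArithmeticFunction.vonMangoldt (p n) - lamz z (p n)) - f (p n)) := by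
      intro n hn
      have h3 := hpM n hn
      rw [hpp]
      unfold lamI lamzI
      rw [if_pos (by exact_mod_cast h3.1), if_pos (by exact_mod_cast h3.1), Int.toNat_natCast]
      ring
    have h3 : ∑ n ∈ Icc 1 N, G n * (lamI ((n : ℤ) + ((c : ℤ) + q * (v : ℕ))) - lamzI z ((n : ℤ) + ((c : ℤ) + q * (v : ℕ)))) =
        ∑ n ∈ Icc 1 N, G n * f (p n) +
        ∑ n ∈ Icc 1 N, G n * ((ArithmeticFunction.vonMangoldt (p n) - lamz z (p n)) - f (p n)) := by
      rw [← sum_add_distrib]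
      apply sum_congr rfl
      intro n hn
      rw [h2 n hn]
      ring
    rw [h3]
    refine (abs_add_le _ _).trans ?_
    apply add_le_add
    · have h4 : ∑ a ∈ Icc 1 N, G' a * fz (fun k => ((f k : ℝ) : ℂ)) M ((a : ℤ) + ((q : ℤ) * v + c)) =
          (((1 / K) * ∑ n ∈ Icc 1 N, G n * f (p n) : ℝ) : ℂ) := by
        push_cast
        rw [mul_sum]
        apply sum_congr rfl
        intro n hn
        have h5 := hpM n hn
        have h6 : (n : ℤ) + ((q : ℤ) * v + c) = ((p n : ℕ) : ℤ) := by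
          rw [← hpp]; ring
        rw [h6, hG']
        simp only
        rw [if_pos hn]
        unfold fz
        rw [if_pos ⟨by exact_mod_cast h5.1, by exact_mod_cast h5.2⟩, Int.toNat_natCast]
        push_cast
        ring
      rw [h4, Complex.norm_real, Real.norm_eq_abs, abs_mul, abs_of_pos (by positivity : 0 < 1 / K), ← mul_assoc]
      have : K * (1 / K) = 1 := by field_simp
      rw [this, one_mul]
    · refine (abs_sum_le_sum_abs _ _).trans ?_
      have h4 : ∀ n ∈ Icc 1 N, |G n * ((ArithmeticFunction.vonMangoldt (p n) - lamz z (p n)) - f (p n))| ≤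
          K * |(ArithmeticFunction.vonMangoldt (p n) - lamz z (p n)) - f (p n)| := by
        intro n hn
        rw [abs_mul]
        exact mul_le_mul_of_nonneg_right (hG n hn) (abs_nonneg _)
      refine (sum_le_sum h4).trans ?_
      rw [← mul_sum]
      apply mul_le_mul_of_nonneg_left _ hK.le
      refine le_trans ?_ hf
      have h5 : ∑ n ∈ Icc 1 N, |(ArithmeticFunction.vonMangoldt (p n) - lamz z (p n)) - f (p n)| =
          ∑ r ∈ (Icc 1 N).image p, |(ArithmeticFunction.vonMangoldt r - lamz z r) - f r| := by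
        rw [sum_image]
        intro x _ y _ hxy
        rw [hp] at hxy
        simp only at hxy
        omega
      rw [h5]
      apply sum_le_sum_of_subset_of_nonneg
      · intro r hr
        rw [mem_image] at hr
        obtain ⟨n, hn, rfl⟩ := hr
        rw [mem_Icc]
        exact hpM n hn
      · intro _ _ _; exact abs_nonneg _
  refine (sum_le_sum hterm).trans ?_
  rw [sum_add_distrib, ← mul_sum, sum_const, Nat.card_Icc, nsmul_eq_mul, Nat.add_sub_cancel]
  obtain ⟨x, hx⟩ : ∃ x, x = N / q := ⟨_, rfl⟩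
  rw [← hx]
  have hx1 : 1 ≤ x := by rw [hx]; exact Nat.div_pos hqN hq
  have hx0 : (0 : ℝ) < x := by exact_mod_cast hx1
  have hNx : (N : ℝ) / q ≤ 2 * x := by
    rw [div_le_iff₀ hq0]
    have h2 : N < q * (x + 1) := by
      rw [hx]
      exact Nat.lt_mul_div_succ _ hq
    have h3 : N ≤ 2 * x * q := by nlinarith
    exact_mod_cast h3
  have h2 : ∑ v ∈ Icc 1 x, ‖∑ a ∈ Icc 1 N, G' a * fz (fun k => ((f k : ℝ) : ℂ)) M ((a : ℤ) + ((q : ℤ) * v + c))‖ ≤
      (M : ℝ) ^ 2 / (q * LM ^ (W + 1)) := by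
    refine le_trans ?_ h1
    apply sum_le_sum_of_subset_of_nonneg
    · apply Icc_subset_Icc_right
      rw [hx]
      exact Nat.div_le_div_right hNM
    · intro _ _ _; exact norm_nonneg _
  have h3 : (M : ℝ) ^ 2 / (q * LM ^ (W + 1)) ≤ 2 * (2 * B + 2) ^ 2 * (N * x / LM ^ (W + 1)) := by
    calc (M : ℝ) ^ 2 / (q * LM ^ (W + 1)) = (2 * B + 2) ^ 2 * (N * (N / q) / LM ^ (W + 1)) := by
          rw [hMr]; field_simp
      _ ≤ (2 * B + 2) ^ 2 * (N * (2 * x) / LM ^ (W + 1)) := by gcongr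
      _ = _ := by ring
  have h4 : K * ((M : ℝ) / LM ^ (W + 1)) * x = K * ((2 * B + 2) * (N * x / LM ^ (W + 1))) := by
    rw [hMr]; ring
  calc K * ∑ v ∈ Icc 1 x, ‖∑ a ∈ Icc 1 N, G' a * fz (fun k => ((f k : ℝ) : ℂ)) M ((a : ℤ) + ((q : ℤ) * v + c))‖ +
        (x : ℝ) * (K * (M / LM ^ (W + 1))) ≤
        K * (2 * (2 * B + 2) ^ 2 * (N * x / LM ^ (W + 1))) + K * ((2 * B + 2) * (N * x / LM ^ (W + 1))) := by
        apply add_le_add
        · exact mul_le_mul_of_nonneg_left (h2.trans h3) hK.le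
        · rw [← h4]; exact le_of_eq (by ring)
    _ = K * ((2 * (2 * B + 2) ^ 2 + (2 * B + 2)) * (N * x / LM ^ (W + 1))) := by ring
    _ ≤ K * (L * (N * x / L ^ (W + 1))) := by
        apply mul_le_mul_of_nonneg_left _ hK.le
        apply mul_le_mul hLbig _ (by positivity) hL0.le
        apply div_le_div_of_nonneg_left (by positivity) (by positivity)
        exact pow_le_pow_left₀ hL0.le hLLM _
    _ = K * ((N / L ^ W) * x) := by
        rw [pow_succ]
        field_simp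

open Classical in
/-- all tuples of residue classes modulo `q` are good for prime tuples -/
def GoodT (k B N A q : ℕ) : Prop := ∀ c : Fin k → ℕ, (∀ i, c i ≤ B * N) →
  (((Fintype.piFinset (fun _ : Fin k => Icc 1 (N / q))).filter
    (fun m : Fin k → ℕ => ¬ TupOK (fun i => (c i : ℤ) + q * (m i : ℕ)) N A)).card : ℝ) ≤
    ((N : ℝ) / q) ^ k / Real.log N ^ A

theorem tup_bad (k : ℕ) (hk : 1 ≤ k) (B A E : ℕ) (hE : A + k + 6 ≤ E) : ∃ N₀ : ℕ, ∀ N : ℕ, N₀ ≤ N →
    ∀ z : ℕ, Real.log N ^ E ≤ z → (z : ℝ) ≤ Real.log N ^ (E + 1) → ∀ f : ℕ → ℝ,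
    (∑ p ∈ Icc 1 ((2 * B + 2) * N), |(ArithmeticFunction.vonMangoldt p - lamz z p) - f p| ≤
      (((2 * B + 2) * N : ℕ) : ℝ) / Real.log (((2 * B + 2) * N : ℕ) : ℝ) ^ (2 * A + k + 6)) →
    ∀ q : ℕ, 1 ≤ q → (q : ℝ) * Real.log N ^ (A + 4) ≤ N →
    ¬ BadF f ((2 * B + 2) * N) (2 * A + k + 6) q → GoodT k B N A q := by
  classical
  obtain ⟨n1, h1⟩ := tup_det k hk (B + 1) A E hE
  obtain ⟨n2, h2⟩ := Vz_inv_small (E + 1)
  obtain ⟨n3, h3⟩ := ev_L' (Real.log (2 * B + 2) + (2 * (2 * B + 2 : ℝ) ^ 2 + (2 * B + 2)) + (k : ℝ) * 2 ^ k + 4 * (k + k * k) + 4)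
  refine ⟨n1 + n2 + n3 + 3, fun N hN z hz1 hz2 f hf q hq hqN hbad c hc => ?_⟩
  have b1 := h1 N (by omega) z hz1 hz2
  have b2 := h2 N (by omega) z
  have hL := h3 N (by omega)
  have hNr : (3 : ℝ) ≤ N := by exact_mod_cast (by omega : 3 ≤ N)
  have hN0' : (0 : ℝ) < N := by linarith
  have hq0 : (0 : ℝ) < q := by exact_mod_cast hq
  obtain ⟨M, hM⟩ : ∃ M, M = (2 * B + 2) * N := ⟨_, rfl⟩
  have hNM : N ≤ M := by rw [hM]; exact Nat.le_mul_of_pos_left _ (by omega)
  have hMr : (M : ℝ) = (2 * B + 2) * N := by rw [hM]; push_cast; ring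
  have hM0 : (0 : ℝ) < M := by rw [hMr]; positivity
  obtain ⟨L, hLd⟩ : ∃ L, L = Real.log (N : ℝ) := ⟨_, rfl⟩
  obtain ⟨LM, hLMd⟩ : ∃ LM, LM = Real.log (M : ℝ) := ⟨_, rfl⟩
  rw [← hM] at hf hbad
  rw [← hLMd] at hf
  rw [← hLd] at b1 b2 hL hz1 hz2 hqN ⊢
  have hLLM : L ≤ LM := by
    rw [hLd, hLMd]
    exact Real.log_le_log hN0' (by exact_mod_cast hNM)
  have hk0 : (0 : ℝ) ≤ k := Nat.cast_nonneg _
  have hB0 : (0 : ℝ) ≤ B := Nat.cast_nonneg _
  have hl0 : 0 ≤ Real.log (2 * B + 2) := Real.log_nonneg (by linarith)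
  have hs1 : 0 ≤ 2 * (2 * B + 2 : ℝ) ^ 2 + (2 * B + 2) := by positivity
  have hs2 : 0 ≤ (k : ℝ) * 2 ^ k := by positivity
  have hs3 : 0 ≤ 4 * ((k : ℝ) + k * k) := by positivity
  have hL4 : 4 ≤ L := by linarith
  have hL1 : 1 ≤ L := by linarith
  have hL0 : 0 < L := by linarith
  have hLM2 : LM ≤ 2 * L := by
    rw [hLMd, hMr, Real.log_mul (by positivity) hN0'.ne', ← hLd]
    linarith
  have hzn : 1 ≤ z := by
    have : (0 : ℝ) < z := lt_of_lt_of_le (by positivity) hz1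
    exact_mod_cast this
  have hV := b2 hzn hz2
  have hqN' : q ≤ N := by
    have h4 : (1 : ℝ) ≤ L ^ (A + 4) := one_le_pow₀ hL1
    have : (q : ℝ) ≤ N := (le_mul_of_one_le_right hq0.le h4).trans hqN
    exact_mod_cast this
  obtain ⟨x, hx⟩ : ∃ x, x = N / q := ⟨_, rfl⟩
  have hx1 : 1 ≤ x := by rw [hx]; exact Nat.div_pos hqN' hq
  have hx0 : (0 : ℝ) < x := by exact_mod_cast hx1
  have hxle : (x : ℝ) ≤ N / q := by rw [hx]; exact Nat.cast_div_le
  have hNx : (N : ℝ) / q ≤ 2 * x := by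
    rw [div_le_iff₀ hq0]
    have h2 : N < q * (x + 1) := by
      rw [hx]
      exact Nat.lt_mul_div_succ _ hq
    have h3 : N ≤ 2 * x * q := by nlinarith
    exact_mod_cast h3
  have hxL : L ^ (A + 3) ≤ x := by
    have h4 : L ^ (A + 4) ≤ N / q := by
      rw [le_div_iff₀ hq0]; linarith
    have h5 : L ^ (A + 4) = L ^ (A + 3) * L := by rw [← pow_succ]
    have h6 : 0 < L ^ (A + 3) := by positivity
    nlinarith
  obtain ⟨W, hW⟩ : ∃ W, W = 2 * A + k + 5 := ⟨_, rfl⟩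
  rw [show 2 * A + k + 6 = W + 1 by omega] at hf hbad
  -- the tuples
  rw [← hx]
  obtain ⟨a, ha⟩ : ∃ a : (Fin k → ℕ) → Fin k → ℤ, a = fun m i => (c i : ℤ) + q * (m i : ℕ) := ⟨_, rfl⟩
  obtain ⟨Box, hBox⟩ : ∃ Box, Box = Fintype.piFinset (fun _ : Fin k => Icc 1 x) := ⟨_, rfl⟩
  rw [← hBox]
  have hpos : ∀ m ∈ Box, ∀ i, 1 ≤ a m i ∧ a m i ≤ ((B + 1 : ℕ) : ℤ) * N := by
    intro m hm i
    rw [hBox, Fintype.mem_piFinset] at hm
    have h4 := mem_Icc.1 (hm i)
    have h5 : q * m i ≤ N := by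
      calc q * m i ≤ q * (N / q) := Nat.mul_le_mul_left _ (by rw [← hx]; exact h4.2)
        _ ≤ N := Nat.mul_div_le _ _
    have h6 : 1 ≤ q * m i := Nat.mul_pos hq h4.1
    have h7 := hc i
    have h8 : c i + q * m i ≤ (B + 1) * N := by
      calc c i + q * m i ≤ B * N + N := by omega
        _ = (B + 1) * N := by ring
    rw [ha]
    simp only
    constructor
    · have : 1 ≤ c i + q * m i := by omega
      exact_mod_cast this
    · exact_mod_cast h8
  have hup : ∀ m ∈ Box, ∀ i, ∀ n ∈ Icc 1 N, (((n : ℤ) + a m i : ℤ) : ℝ) ≤ M := by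
    intro m hm i n hn
    rw [mem_Icc] at hn
    have h4 := hpos m hm i
    have h5 : (n : ℤ) + a m i ≤ (M : ℤ) := by
      rw [hM]
      push_cast
      have h6 : (n : ℤ) ≤ N := by exact_mod_cast hn.2
      have h7 : (0 : ℤ) ≤ B * N := by positivity
      push_cast at h4
      nlinarith [h4.2]
    exact_mod_cast h5
  have hup' : ∀ i : Fin k, ∀ n ∈ Icc 1 N, ∀ v ∈ Icc 1 x, (((n : ℤ) + ((c i : ℤ) + q * (v : ℕ)) : ℤ) : ℝ) ≤ M := by
    intro i n hn v hv
    have h4 := hup (fun _ => v) (by rw [hBox, Fintype.mem_piFinset]; intro _; exact hv) i n hn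
    rw [ha] at h4
    exact h4
  have key := tele (k := k) N (fun _ => x) (fun _ => hx1)
    (fun i n v => lamI ((n : ℤ) + ((c i : ℤ) + q * (v : ℕ)))) (fun i n v => lamzI z ((n : ℤ) + ((c i : ℤ) + q * (v : ℕ))))
    (2 * L) (N / L ^ W) (by linarith) (by positivity) (by
      intro i n hn v hv
      rw [abs_of_nonneg (lamI_nonneg _)]
      refine (lamI_le _ M ?_ (hup' i n hn v hv)).trans (by rw [← hLMd]; exact hLM2)
      have : (N : ℝ) ≤ M := by exact_mod_cast hNM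
      linarith) (by
      intro i n hn v hv
      rw [abs_of_nonneg (lamzI_nonneg _ _)]
      have := lamzI_le z ((n : ℤ) + ((c i : ℤ) + q * (v : ℕ)))
      linarith) (by
      intro i K hK G hG
      have h4 := one_shift B N M q W z f (by omega) hq hqN' hM L LM hLMd hLLM hL1 (by linarith) hf hbad (c i) (hc i) K hK G hG
      rw [← hx] at h4
      exact h4)
    univ L hL0 (fun n _ => ArithmeticFunction.vonMangoldt n) (by
      intro n hn m _
      rw [mem_Icc] at hn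
      rw [abs_of_nonneg ArithmeticFunction.vonMangoldt_nonneg, hLd]
      exact ArithmeticFunction.vonMangoldt_le_log.trans (Real.log_le_log (by exact_mod_cast hn.1) (by exact_mod_cast hn.2))) (by
      intro n m v i _; rfl)
  rw [card_univ, Fintype.card_fin, prod_const, card_univ, Fintype.card_fin, ← hBox] at key
  obtain ⟨Df, hDf⟩ : ∃ Df : (Fin k → ℕ) → ℝ, Df = fun m => |∑ n ∈ Icc 1 N, ArithmeticFunction.vonMangoldt n *
      (∏ i, lamI ((n : ℤ) + a m i) - ∏ i, lamzI z ((n : ℤ) + a m i))| := ⟨_, rfl⟩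
  have key2 : ∑ m ∈ Box, Df m ≤ N * (x : ℝ) ^ k / L ^ (2 * A + 3) := by
    have h4 : ∑ m ∈ Box, Df m ≤ (k : ℝ) * (L * (2 * L) ^ k * (N / L ^ W)) * (x : ℝ) ^ k := by
      rw [hDf, ha]
      exact key
    refine h4.trans ?_
    calc (k : ℝ) * (L * (2 * L) ^ k * (N / L ^ W)) * (x : ℝ) ^ k
        = ((k : ℝ) * 2 ^ k / L) * (N * (x : ℝ) ^ k / L ^ (2 * A + 3)) := by
          rw [hW, mul_pow, show 2 * A + k + 5 = (2 * A + 3) + k + 2 by ring, pow_add, pow_add]
          field_simp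
      _ ≤ 1 * (N * (x : ℝ) ^ k / L ^ (2 * A + 3)) := by
          apply mul_le_mul_of_nonneg_right _ (by positivity)
          rw [div_le_one hL0]; linarith
      _ = _ := one_mul _
  -- degenerate tuples
  obtain ⟨fp, hfp⟩ : ∃ fp : Fin k → ℤ[X], fp = fun i => C (c i : ℤ) + C (q : ℤ) * X := ⟨_, rfl⟩
  have hqz : (q : ℤ) ≠ 0 := by exact_mod_cast (by omega : q ≠ 0)
  have hdeg : ∀ i, (fp i).natDegree = 1 := by
    intro i
    rw [hfp]
    simp only
    rw [natDegree_C_add]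
    exact natDegree_C_mul_X _ hqz
  have heval : ∀ i, ∀ v : ℕ, (fp i).eval (v : ℤ) = (c i : ℤ) + q * (v : ℕ) := by
    intro i v
    rw [hfp]
    simp
  have hDeg := degenerate fp (fun i => (hdeg i).ge) (fun _ => x) (fun _ => hx1) 1 (fun i => (hdeg i).le)
    (L ^ (A + 3)) (by positivity) (fun _ => hxL)
  rw [prod_const, card_univ, Fintype.card_fin, ← hBox] at hDeg
  simp only [heval] at hDeg
  obtain ⟨S1, hS1⟩ : ∃ S1, S1 = Box.filter (fun m : Fin k → ℕ => (N : ℝ) / (2 * L ^ A) < Df m) := ⟨_, rfl⟩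
  obtain ⟨S2, hS2⟩ : ∃ S2, S2 = Box.filter (fun m : Fin k → ℕ => (∃ i, (c i : ℤ) + q * (m i : ℕ) = 0) ∨
      ∃ i j, i ≠ j ∧ (c i : ℤ) + q * (m i : ℕ) = (c j : ℤ) + q * (m j : ℕ)) := ⟨_, rfl⟩
  rw [← hS2] at hDeg
  have hsub : Box.filter (fun m : Fin k → ℕ => ¬ TupOK (fun i => (c i : ℤ) + q * (m i : ℕ)) N A) ⊆ S1 ∪ S2 := by
    intro m hm
    rw [mem_filter] at hm
    rw [mem_union]
    by_contra hcon
    push Not at hcon
    obtain ⟨hn1, hn2⟩ := hcon
    apply hm.2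
    have h4 : ∀ i j, i ≠ j → a m i ≠ a m j := by
      intro i j hij hcon
      apply hn2
      rw [hS2, mem_filter]
      refine ⟨hm.1, Or.inr ⟨i, j, hij, ?_⟩⟩
      rw [ha] at hcon
      exact hcon
    have h5 : Df m ≤ N / (2 * L ^ A) := by
      by_contra h
      rw [not_le] at h
      apply hn1
      rw [hS1, mem_filter]
      exact ⟨hm.1, h⟩
    have h6 := b1 (a m) (hpos m hm.1) h4 (by rw [hDf] at h5; exact h5)
    rw [ha] at h6
    exact h6
  have hcard : ((Box.filter (fun m : Fin k → ℕ => ¬ TupOK (fun i => (c i : ℤ) + q * (m i : ℕ)) N A)).card : ℝ) ≤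
      S1.card + S2.card := by
    exact_mod_cast (card_le_card hsub).trans (card_union_le _ _)
  have hS1c : (S1.card : ℝ) ≤ (2 / L ^ 3) * ((x : ℝ) ^ k / L ^ A) := by
    have h4 : (S1.card : ℝ) * (N / (2 * L ^ A)) ≤ N * (x : ℝ) ^ k / L ^ (2 * A + 3) := by
      refine le_trans ?_ key2
      rw [← nsmul_eq_mul]
      calc S1.card • ((N : ℝ) / (2 * L ^ A)) ≤ ∑ m ∈ S1, Df m := by
            apply card_nsmul_le_sum
            intro m hm
            rw [hS1, mem_filter] at hm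
            exact hm.2.le
        _ ≤ ∑ m ∈ Box, Df m := by
            apply sum_le_sum_of_subset_of_nonneg
            · rw [hS1]; exact filter_subset _ _
            · intro m _ _
              rw [hDf]; exact abs_nonneg _
    have h5 : N * (x : ℝ) ^ k / L ^ (2 * A + 3) = ((2 / L ^ 3) * ((x : ℝ) ^ k / L ^ A)) * (N / (2 * L ^ A)) := by
      rw [show 2 * A + 3 = A + A + 3 by ring, pow_add, pow_add]
      field_simp
    rw [h5] at h4
    exact le_of_mul_le_mul_right h4 (by positivity)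
  have hS2c : (S2.card : ℝ) ≤ ((k + k * k) / L ^ 3) * ((x : ℝ) ^ k / L ^ A) := by
    refine hDeg.trans (le_of_eq ?_)
    rw [pow_add]
    push_cast
    field_simp
  refine hcard.trans ((add_le_add hS1c hS2c).trans ?_)
  rw [← add_mul]
  have h4 : 2 / L ^ 3 + ((k : ℝ) + k * k) / L ^ 3 ≤ 1 := by
    rw [← add_div, div_le_one (by positivity)]
    have h5 : L ≤ L ^ 3 := le_self_pow₀ hL1 (by norm_num)
    linarith
  calc (2 / L ^ 3 + ((k : ℝ) + k * k) / L ^ 3) * ((x : ℝ) ^ k / L ^ A) ≤ 1 * ((x : ℝ) ^ k / L ^ A) :=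
        mul_le_mul_of_nonneg_right h4 (by positivity)
    _ = (x : ℝ) ^ k / L ^ A := one_mul _
    _ ≤ ((N : ℝ) / q) ^ k / L ^ A := by
        apply div_le_div_of_nonneg_right _ (by positivity)
        exact pow_le_pow_left₀ hx0.le hxle k

end Pool.Agent.Y883.T4
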