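import Pool.Agent.Y883.T4.BlockMu

set_option autoImplicit false

/-! The exponential sum of the Moebius function, with a power saving on the minor arcs. -/

namespace Pool.Agent.Y883.T4

open Finset
open Pool.Agent.H807R2.Dav
open Pool.Agent.H373R2.T7
open Pool.Agent.Y883.T3

/-- minor arcs, with a power saving -/
theorem vin_pow_mu : ∃ N0 : ℕ, ∀ N : ℕ, N0 ≤ N → ∀ K : ℝ, 1 ≤ K → K ≤ (N : ℝ) ^ (9 / 50 : ℝ) →
    ∀ q : ℕ, K ^ 2 * Real.log N ^ 13 ≤ q → (q : ℝ) ≤ N / (K ^ 2 * Real.log N ^ 13) →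
    ∀ c : ℤ, IsCoprime c (q : ℤ) → ∀ α : ℝ, |α - c / q| ≤ 1 / (q : ℝ) ^ 2 →
    ‖∑ n ∈ Icc 1 N, (((ArithmeticFunction.moebius n : ℤ) : ℝ) : ℂ) * ee ((n : ℝ) * α)‖ ≤ N / K := by
  obtain ⟨n1, h1⟩ := ev_log_rpow 8 2 (1 / 50) (by norm_num)
  obtain ⟨n2, h2⟩ := ev_L' 10000000
  obtain ⟨n3, h3'⟩ := ev_log_rpow 13 1 (1 / 50) (by norm_num)
  obtain ⟨n4, h4'⟩ := ev_log_rpow 4 14400 (1 / 100) (by norm_num)
  obtain ⟨Cd, hCd0, hCd⟩ := Pool.Agent.H510R2.divisor_bound (1 / 200) (by norm_num)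
  obtain ⟨n5, h5'⟩ := ev_log_rpow 0 Cd (1 / 200) (by norm_num)
  refine ⟨n1 + n2 + n3 + n4 + n5 + 16, fun N hN K hK1 hK2 q hq1 hq2 c hcop α hα => ?_⟩
  have hNn1 : n1 ≤ N := by omega
  have hNn2 : n2 ≤ N := by omega
  have hN16 : 16 ≤ N := by omega
  have a3 := h3' N (by omega)
  have a4 := h4' N (by omega)
  have a5 := h5' N (by omega)
  rw [pow_zero, mul_one] at a5
  rw [one_mul] at a3
  have hNr : (16 : ℝ) ≤ N := by exact_mod_cast hN16
  have hN0 : (0 : ℝ) < N := by linarith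
  obtain ⟨ℓ, hℓ⟩ : ∃ ℓ, ℓ = Real.log (N : ℝ) := ⟨_, rfl⟩
  have hℓ1 : 10000000 ≤ ℓ := by rw [hℓ]; exact h2 N hNn2
  have hℓ0 : 0 < ℓ := by linarith
  have hV1 := h1 N hNn1
  rw [← hℓ] at hq1 hq2 hV1 a3 a4
  have hK0 : 0 < K := by linarith
  obtain ⟨W, hW⟩ : ∃ W, W = ⌊(N : ℝ) ^ (1 / 5 : ℝ)⌋₊ := ⟨_, rfl⟩
  have hW1 : (W : ℝ) ≤ (N : ℝ) ^ (1 / 5 : ℝ) := by rw [hW]; exact Nat.floor_le (by positivity)
  have hW2 : (N : ℝ) ^ (1 / 5 : ℝ) < W + 1 := by rw [hW]; exact Nat.lt_floor_add_one _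
  have hN5 : (1 : ℝ) ≤ (N : ℝ) ^ (1 / 5 : ℝ) := Real.one_le_rpow (by linarith) (by norm_num)
  have hWn : 1 ≤ W := by
    rw [hW]
    exact Nat.le_floor (by exact_mod_cast hN5)
  have hWr : (1 : ℝ) ≤ W := by exact_mod_cast hWn
  have hW0 : (0 : ℝ) < W := by linarith
  have hW5 : (W : ℝ) ^ 5 ≤ N := by
    calc (W : ℝ) ^ 5 ≤ ((N : ℝ) ^ (1 / 5 : ℝ)) ^ 5 := pow_le_pow_left₀ hW0.le hW1 5
      _ = N := by
          rw [← Real.rpow_natCast, ← Real.rpow_mul hN0.le]
          norm_num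
  have hKW : K * ℓ ^ 8 ≤ W := by
    have h3 : 2 * (K * ℓ ^ 8) ≤ (N : ℝ) ^ (1 / 5 : ℝ) := by
      calc 2 * (K * ℓ ^ 8) = K * (2 * ℓ ^ 8) := by ring
        _ ≤ (N : ℝ) ^ (9 / 50 : ℝ) * (N : ℝ) ^ (1 / 50 : ℝ) := mul_le_mul hK2 hV1 (by positivity) (by positivity)
        _ = (N : ℝ) ^ (1 / 5 : ℝ) := by rw [← Real.rpow_add hN0]; norm_num
    linarith
  obtain ⟨X, hX⟩ : ∃ X, X = K ^ 2 * ℓ ^ 13 := ⟨_, rfl⟩
  rw [← hX] at hq1 hq2
  have hKl : 1 ≤ K * ℓ ^ 8 := by
    have h3 : 1 ≤ ℓ ^ 8 := one_le_pow₀ (by linarith)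
    nlinarith
  have hXK : K * ℓ ^ 8 ≤ X := by
    rw [hX]
    have e1 : K ≤ K ^ 2 := by nlinarith
    have e2 : ℓ ^ 8 ≤ ℓ ^ 13 := pow_le_pow_right₀ (by linarith) (by norm_num)
    exact mul_le_mul e1 e2 (by positivity) (by positivity)
  have hX1 : 1 ≤ X := hKl.trans hXK
  have hX0 : 0 < X := by linarith
  obtain ⟨V, hV⟩ : ∃ V, V = W * W := ⟨_, rfl⟩
  have hVr : (V : ℝ) = W * W := by rw [hV]; push_cast; ring
  have hVX : X ≤ V := by
    have h3 : X ≤ (K * ℓ ^ 8) * (K * ℓ ^ 8) := by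
      rw [hX]
      have e2 : ℓ ^ 13 ≤ ℓ ^ 16 := pow_le_pow_right₀ (by linarith) (by norm_num)
      calc K ^ 2 * ℓ ^ 13 ≤ K ^ 2 * ℓ ^ 16 := mul_le_mul_of_nonneg_left e2 (by positivity)
        _ = _ := by ring
    refine h3.trans ?_
    rw [hVr]
    exact mul_le_mul hKW hKW (by positivity) hW0.le
  have hVn : 1 ≤ V := by rw [hV]; exact Nat.mul_pos hWn hWn
  have hV0 : (1 : ℝ) ≤ V := by exact_mod_cast hVn
  have hq0 : (0 : ℝ) < q := by linarith
  have hqn : 1 ≤ q := by exact_mod_cast hq0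
  have hqr : (1 : ℝ) ≤ q := by exact_mod_cast hqn
  have hqN : (q : ℝ) ≤ N := hq2.trans (div_le_self hN0.le hX1)
  have hlq : Real.log q ≤ ℓ := by rw [hℓ]; exact Real.log_le_log hq0 hqN
  have hlq0 : 0 ≤ Real.log q := Real.log_nonneg hqr
  have hNX : (N : ℝ) / X ≤ N / (K * ℓ ^ 8) := div_le_div_of_nonneg_left hN0.le (by positivity) hXK
  have hNW : (N : ℝ) / W ≤ N / (K * ℓ ^ 8) := div_le_div_of_nonneg_left hN0.le (by positivity) hKW
  -- the sequence of endpoints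
  obtain ⟨y, hy0, hy1⟩ : ∃ y : ℕ → ℕ, y 0 = N ∧ ∀ i, y (i + 1) = (y i + 1) / 2 :=
    ⟨fun i => Nat.rec N (fun _ z => (z + 1) / 2) i, rfl, fun i => rfl⟩
  have hylow : ∀ i, (N : ℝ) / 2 ^ i ≤ y i := by
    intro i
    induction i with
    | zero => rw [hy0]; simp
    | succ i ih =>
      rw [hy1]
      have h3 : y i ≤ 2 * ((y i + 1) / 2) := by omega
      have h4 : (y i : ℝ) ≤ 2 * (((y i + 1) / 2 : ℕ) : ℝ) := by exact_mod_cast h3
      rw [pow_succ]
      have h5 : (N : ℝ) / (2 ^ i * 2) = (N / 2 ^ i) / 2 := by rw [div_div]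
      rw [h5]; linarith
  have hyup : ∀ i, (y i : ℝ) ≤ (N : ℝ) / 2 ^ i + 1 := by
    intro i
    induction i with
    | zero => rw [hy0]; simp
    | succ i ih =>
      rw [hy1]
      have h3 : 2 * ((y i + 1) / 2) ≤ y i + 1 := by omega
      have h4 : 2 * (((y i + 1) / 2 : ℕ) : ℝ) ≤ y i + 1 := by exact_mod_cast h3
      rw [pow_succ]
      have h5 : (N : ℝ) / (2 ^ i * 2) = (N / 2 ^ i) / 2 := by rw [div_div]
      rw [h5]; linarith
  have hyle : ∀ i, y i ≤ N := by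
    intro i
    induction i with
    | zero => rw [hy0]
    | succ i ih => rw [hy1]; omega
  obtain ⟨I, hI⟩ : ∃ I, I = Nat.log 2 W := ⟨_, rfl⟩
  have hI1 : 2 ^ I ≤ W := by rw [hI]; exact Nat.pow_log_le_self 2 (by omega)
  have hI2 : W < 2 ^ (I + 1) := by rw [hI]; exact Nat.lt_pow_succ_log_self (by norm_num) _
  have hIr : (W : ℝ) ≤ 2 * 2 ^ I := by
    have : W ≤ 2 * 2 ^ I := by rw [pow_succ] at hI2; omega
    exact_mod_cast this
  have hVVW : ((V * V : ℕ) : ℝ) ≤ N / W := by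
    rw [le_div_iff₀ hW0]
    push_cast
    rw [hVr]
    calc (W : ℝ) * W * (W * W) * W = (W : ℝ) ^ 5 := by ring
      _ ≤ N := hW5
  have hyV : ∀ i, i ≤ I → V * V ≤ y i := by
    intro i hi
    have h3 : (2 : ℕ) ^ i ≤ W := (Nat.pow_le_pow_right (by norm_num) hi).trans hI1
    have h3r : ((2 : ℝ) ^ i) ≤ W := by exact_mod_cast h3
    have h4 : ((V * V : ℕ) : ℝ) ≤ (N : ℝ) / 2 ^ i :=
      hVVW.trans (div_le_div_of_nonneg_left hN0.le (by positivity) h3r)
    have h5 := h4.trans (hylow i)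
    exact_mod_cast h5
  obtain ⟨E, hE⟩ : ∃ E : ℕ → ℂ, E = fun n => (((ArithmeticFunction.moebius n : ℤ) : ℝ) : ℂ) * ee ((n : ℝ) * α) := ⟨_, rfl⟩
  have hlog4 : Real.log 4 ≤ 2 := by
    have h1 : Real.log 4 = 2 * Real.log 2 := by
      rw [show (4 : ℝ) = 2 ^ 2 by norm_num, Real.log_pow]; push_cast; ring
    have := Real.log_two_lt_d9
    linarith
  have hVVN : ((V * V : ℕ) : ℝ) ≤ N := hVVW.trans (div_le_self hN0.le hWr)
  have hVV0 : 0 < V * V := Nat.mul_pos hVn hVn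
  have hVlog : (Nat.log 2 (V * V) + 1 : ℝ) ≤ 2 * ℓ := by
    have h3 : (Nat.log 2 (V * V) : ℝ) * Real.log 2 ≤ ℓ := by
      have h4 : (2 : ℝ) ^ Nat.log 2 (V * V) ≤ ((V * V : ℕ) : ℝ) := by
        exact_mod_cast Nat.pow_log_le_self 2 hVV0.ne'
      have h7 := Real.log_le_log (by positivity) (h4.trans hVVN)
      rw [Real.log_pow, ← hℓ] at h7
      exact h7
    have h4 := Real.log_two_gt_d9
    have h5 : (0 : ℝ) ≤ Nat.log 2 (V * V) := Nat.cast_nonneg _
    nlinarith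
  have hNK0 : 0 < (N : ℝ) / K := by positivity
  have hblock : ∀ i, i < I → ‖∑ n ∈ Ioc (y (i + 1)) (y i), E n‖ ≤ 60000 * (N / K / ℓ ^ 2) := by
    intro i hi
    have hyi := hyV (i + 1) (by omega)
    have hVV1 : 1 ≤ V * V := hVV0
    have h3 := block_muT hqn hcop hα (y (i + 1)) (y i) V (by omega) (by rw [hy1]; omega) (by rw [hy1]; omega) hVn hyi
    rw [hE]
    refine h3.trans ?_
    have hyi1 : 1 ≤ y (i + 1) := by omega
    have ty1 := typeI_tau hqn hcop hα (y (i + 1)) (V * V) hyi1 hVV1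
    have ty2 := fun (T : ℝ) (hT0 : 0 ≤ T) (hT : ∀ d : ℕ, 1 ≤ d → d ≤ V * V → (d.divisors.card : ℝ) ≤ T) =>
      typeI_T hqn hcop hα (y (i + 1)) (V * V) hyi1 hVV1 T hT0 hT
    obtain ⟨P, hP⟩ : ∃ P : ℝ, P = (y (i + 1) : ℝ) := ⟨_, rfl⟩
    rw [← hP] at ty1 ty2 ⊢
    have hP1 : 1 ≤ P := by
      rw [hP]; exact_mod_cast hyi1
    have hPN : P ≤ N := by rw [hP]; exact_mod_cast hyle (i + 1)
    have hLg : 1 + Real.log (4 * P) ≤ 2 * ℓ := by
      rw [Real.log_mul (by norm_num) (by linarith)]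
      have := Real.log_le_log (by linarith) hPN
      rw [← hℓ] at this
      linarith
    have hLg0 : 0 ≤ 1 + Real.log (4 * P) := by
      have := Real.log_nonneg (show (1 : ℝ) ≤ 4 * P by linarith)
      linarith
    have hPq : P / q ≤ N / X := by
      calc P / q ≤ N / q := div_le_div_of_nonneg_right hPN hq0.le
        _ ≤ N / X := div_le_div_of_nonneg_left hN0.le (by positivity) hq1
    have hPV : P / V ≤ N / X := by
      calc P / V ≤ N / V := div_le_div_of_nonneg_right hPN (by linarith)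
        _ ≤ N / X := div_le_div_of_nonneg_left hN0.le (by positivity) hVX
    have hR : Real.sqrt (672 * (1 + Real.log q) * (P * (P / q + P / V + q))) ≤ 64 * (N / (K * ℓ ^ 6)) := by
      rw [Real.sqrt_le_left (by positivity)]
      calc 672 * (1 + Real.log q) * (P * (P / q + P / V + q)) ≤ 672 * (2 * ℓ) * (N * (N / X + N / X + N / X)) := by
            gcongr
            linarith
        _ = 4032 * N ^ 2 * (ℓ / X) := by field_simp; ring
        _ = 4032 * N ^ 2 * (1 / (K * ℓ ^ 6) ^ 2) := by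
            rw [hX]
            field_simp
        _ ≤ (64 * (N / (K * ℓ ^ 6))) ^ 2 := by
            have e : (64 * ((N : ℝ) / (K * ℓ ^ 6))) ^ 2 = 4096 * ((N : ℝ) ^ 2 * (1 / (K * ℓ ^ 6) ^ 2)) := by
              rw [mul_pow, div_pow]
              ring
            have h6 : 0 ≤ (N : ℝ) ^ 2 * (1 / (K * ℓ ^ 6) ^ 2) := by positivity
            rw [e]
            linarith
    have b1 : 8 * (1 + Real.log (4 * P)) ^ 4 * Real.sqrt (672 * (1 + Real.log q) * (P * (P / q + P / V + q))) ≤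
        8192 * (N / K / ℓ ^ 2) := by
      calc _ ≤ 8 * (2 * ℓ) ^ 4 * (64 * (N / (K * ℓ ^ 6))) := by gcongr
        _ = 8192 * (N / K / ℓ ^ 2) := by field_simp; ring
    have hVVl : 1 + Real.log ((V * V : ℕ) : ℝ) ≤ 2 * ℓ := by
      have h8 : (0 : ℝ) < ((V * V : ℕ) : ℝ) := by exact_mod_cast hVV0
      have := Real.log_le_log h8 hVVN
      rw [← hℓ] at this
      linarith
    have hVVl0 : 0 ≤ 1 + Real.log ((V * V : ℕ) : ℝ) := by
      have := Real.log_natCast_nonneg (V * V)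
      linarith
    have hq2l : 1 + Real.log q ≤ 2 * ℓ := by linarith
    have b4 : 0 ≤ (N : ℝ) / K / ℓ ^ 2 := by positivity
    have b2 : ∑ m ∈ Icc 1 (V * V), (m.divisors.card : ℝ) * KK (2 * P / m) (m * α) ≤ 832 * (N / K / ℓ ^ 2) := by
      rcases le_or_gt K ((N : ℝ) ^ (9 / 100 : ℝ)) with hKs | hKs
      · refine ty1.trans ?_
        have hVVX : ((V * V : ℕ) : ℝ) ≤ N / X := by
          rw [le_div_iff₀ hX0]
          push_cast
          rw [hVr, hX]
          have e1 : K ^ 2 * ℓ ^ 13 ≤ (N : ℝ) ^ (1 / 5 : ℝ) := by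
            calc K ^ 2 * ℓ ^ 13 ≤ ((N : ℝ) ^ (9 / 100 : ℝ)) ^ 2 * (N : ℝ) ^ (1 / 50 : ℝ) := by gcongr
              _ = (N : ℝ) ^ (1 / 5 : ℝ) := by
                rw [← Real.rpow_natCast, ← Real.rpow_mul hN0.le, ← Real.rpow_add hN0]
                norm_num
          calc (W : ℝ) * W * (W * W) * (K ^ 2 * ℓ ^ 13) ≤ (N : ℝ) ^ (1 / 5 : ℝ) * (N : ℝ) ^ (1 / 5 : ℝ) *
                ((N : ℝ) ^ (1 / 5 : ℝ) * (N : ℝ) ^ (1 / 5 : ℝ)) * (N : ℝ) ^ (1 / 5 : ℝ) := by gcongr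
            _ = N := by
              rw [← Real.rpow_add hN0, ← Real.rpow_add hN0, ← Real.rpow_add hN0]
              norm_num
        rw [← Real.sqrt_mul (by positivity)]
        calc _ ≤ Real.sqrt ((832 * (N / K / ℓ ^ 3)) ^ 2) := by
              apply Real.sqrt_le_sqrt
              calc 6 * P * (1 + Real.log ((V * V : ℕ) : ℝ)) ^ 4 * (600 * (Nat.log 2 (V * V) + 1 : ℝ) * (P / q + ((V * V : ℕ) : ℝ) + q) * (1 + Real.log q)) ≤
                    6 * N * (2 * ℓ) ^ 4 * (600 * (2 * ℓ) * (N / X + N / X + N / X) * (2 * ℓ)) := by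
                    gcongr
                _ = 691200 * (N ^ 2 * ℓ ^ 6 / X) := by field_simp; ring
                _ ≤ 692224 * (N ^ 2 * ℓ ^ 6 / (K ^ 2 * ℓ ^ 12)) := by
                    rw [hX]
                    have e2 : (N : ℝ) ^ 2 * ℓ ^ 6 / (K ^ 2 * ℓ ^ 13) ≤ N ^ 2 * ℓ ^ 6 / (K ^ 2 * ℓ ^ 12) := by
                      apply div_le_div_of_nonneg_left (by positivity) (by positivity)
                      apply mul_le_mul_of_nonneg_left _ (by positivity)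
                      exact pow_le_pow_right₀ (by linarith) (by norm_num)
                    have e3 : 0 ≤ (N : ℝ) ^ 2 * ℓ ^ 6 / (K ^ 2 * ℓ ^ 12) := by positivity
                    linarith
                _ = (832 * (N / K / ℓ ^ 3)) ^ 2 := by
                    field_simp
                    norm_num
          _ = 832 * (N / K / ℓ ^ 3) := by rw [Real.sqrt_sq (by positivity)]
          _ ≤ 832 * (N / K / ℓ ^ 2) := by
              apply mul_le_mul_of_nonneg_left _ (by norm_num)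
              apply div_le_div_of_nonneg_left hNK0.le (by positivity)
              exact pow_le_pow_right₀ (by linarith) (by norm_num)
      · have hT : ∀ d : ℕ, 1 ≤ d → d ≤ V * V → (d.divisors.card : ℝ) ≤ (N : ℝ) ^ (1 / 100 : ℝ) := by
          intro d hd1 hd2
          have e1 : (d : ℝ) ≤ N := by
            have : (d : ℝ) ≤ ((V * V : ℕ) : ℝ) := by exact_mod_cast hd2
            exact this.trans hVVN
          calc (d.divisors.card : ℝ) ≤ Cd * (d : ℝ) ^ (1 / 200 : ℝ) := hCd d hd1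
            _ ≤ (N : ℝ) ^ (1 / 200 : ℝ) * (N : ℝ) ^ (1 / 200 : ℝ) := by gcongr
            _ = (N : ℝ) ^ (1 / 100 : ℝ) := by rw [← Real.rpow_add hN0]; norm_num
        refine (ty2 _ (by positivity) hT).trans ?_
        obtain ⟨T, hTd⟩ : ∃ T, T = (N : ℝ) ^ (1 / 100 : ℝ) := ⟨_, rfl⟩
        rw [← hTd] at a4 ⊢
        have hT0 : 0 < T := by rw [hTd]; positivity
        have hT1 : 1 ≤ T := by rw [hTd]; exact Real.one_le_rpow (by linarith) (by norm_num)
        have hT2 : T ^ 2 = (N : ℝ) ^ (1 / 50 : ℝ) := by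
          rw [hTd, ← Real.rpow_natCast, ← Real.rpow_mul hN0.le]
          norm_num
        have hKT : K * T ^ 2 ≤ 2 * W := by
          have e1 : K * T ^ 2 ≤ (N : ℝ) ^ (1 / 5 : ℝ) := by
            rw [hT2]
            calc K * (N : ℝ) ^ (1 / 50 : ℝ) ≤ (N : ℝ) ^ (9 / 50 : ℝ) * (N : ℝ) ^ (1 / 50 : ℝ) := by gcongr
              _ = (N : ℝ) ^ (1 / 5 : ℝ) := by rw [← Real.rpow_add hN0]; norm_num
          linarith
        have z2 : ((V * V : ℕ) : ℝ) ≤ 2 * (N / (K * T ^ 2)) := by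
          refine hVVW.trans ?_
          rw [mul_div_assoc', div_le_div_iff₀ hW0 (by positivity)]
          nlinarith
        have hXT : K * T ^ 2 ≤ X := by
          rw [hX]
          have e1 : T ^ 2 ≤ K := by
            rw [hT2]
            refine le_trans ?_ hKs.le
            exact Real.rpow_le_rpow_of_exponent_le (by linarith) (by norm_num)
          have e2 : 1 ≤ ℓ ^ 13 := one_le_pow₀ (by linarith)
          calc K * T ^ 2 ≤ K * K := mul_le_mul_of_nonneg_left e1 hK0.le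
            _ = K ^ 2 * 1 := by ring
            _ ≤ K ^ 2 * ℓ ^ 13 := mul_le_mul_of_nonneg_left e2 (by positivity)
        have hNXT : (N : ℝ) / X ≤ N / (K * T ^ 2) := div_le_div_of_nonneg_left hN0.le (by positivity) hXT
        have hZ : P / q + ((V * V : ℕ) : ℝ) + q ≤ 4 * (N / (K * T ^ 2)) := by
          have z1 := hPq.trans hNXT
          have z3 := hq2.trans hNXT
          linarith
        have hZ0 : 0 ≤ P / q + ((V * V : ℕ) : ℝ) + q := by positivity
        calc T * (600 * (Nat.log 2 (V * V) + 1 : ℝ) * (P / q + ((V * V : ℕ) : ℝ) + q) * (1 + Real.log q)) ≤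
              T * (600 * (2 * ℓ) * (4 * (N / (K * T ^ 2))) * (2 * ℓ)) := by gcongr
          _ = (9600 * ℓ ^ 4 / T) * (N / K / ℓ ^ 2) := by field_simp; ring
          _ ≤ 832 * (N / K / ℓ ^ 2) := by
              apply mul_le_mul_of_nonneg_right _ b4
              rw [div_le_iff₀ hT0]
              have e1 : 0 ≤ ℓ ^ 4 := by positivity
              nlinarith
    linarith
  -- telescoping
  obtain ⟨G, hG⟩ : ∃ G : ℝ, G = 60000 * (N / K / ℓ ^ 2) := ⟨_, rfl⟩
  rw [← hG] at hblock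
  have htel : ∀ J : ℕ, J ≤ I → ‖∑ n ∈ Icc 1 N, E n‖ ≤ ‖∑ n ∈ Icc 1 (y J), E n‖ + J * G := by
    intro J
    induction J with
    | zero => intro _; rw [hy0]; simp
    | succ J ih =>
      intro hJ
      have h3 := ih (by omega)
      have h4 := hblock J (by omega)
      have h5 : ∑ n ∈ Icc 1 (y J), E n = ∑ n ∈ Icc 1 (y (J + 1)), E n + ∑ n ∈ Ioc (y (J + 1)) (y J), E n := by
        have hle : y (J + 1) ≤ y J ∨ y J = 0 := by
          rw [hy1]; omega
        rcases hle with hle | hle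
        · rw [← sum_union (by
            rw [disjoint_left]; intro n hn hn'
            rw [mem_Icc] at hn; rw [mem_Ioc] at hn'; omega)]
          congr 1
          ext n
          rw [mem_union, mem_Icc, mem_Icc, mem_Ioc]
          omega
        · exfalso
          have := hyV J (by omega)
          omega
      rw [h5] at h3
      have h6 := norm_add_le (∑ n ∈ Icc 1 (y (J + 1)), E n) (∑ n ∈ Ioc (y (J + 1)) (y J), E n)
      push_cast
      linarith
  have hlast : ‖∑ n ∈ Icc 1 (y I), E n‖ ≤ (y I : ℝ) * ℓ := by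
    refine (norm_sum_le _ _).trans ?_
    have h3 : ∀ n ∈ Icc 1 (y I), ‖E n‖ ≤ ℓ := by
      intro n hn
      rw [mem_Icc] at hn
      rw [hE]
      simp only
      rw [norm_mul, norm_ee, mul_one, Complex.norm_real, Real.norm_eq_abs]
      have h9 : |((ArithmeticFunction.moebius n : ℤ) : ℝ)| ≤ 1 := by exact_mod_cast ArithmeticFunction.abs_moebius_le_one
      linarith
    refine (sum_le_sum h3).trans ?_
    rw [sum_const, Nat.card_Icc, nsmul_eq_mul, Nat.add_sub_cancel]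
  have h3 := htel I le_rfl
  have hIl : (I : ℝ) ≤ 2 * ℓ := by
    have h5 : I ≤ Nat.log 2 (V * V) := by
      rw [hI]
      apply Nat.log_mono_right
      rw [hV]
      calc W = W * 1 * (1 * 1) := by ring
        _ ≤ W * W * (W * W) := by gcongr
    have h6 : (I : ℝ) ≤ Nat.log 2 (V * V) := by exact_mod_cast h5
    linarith
  have hyI : (y I : ℝ) ≤ 3 * (N / W) := by
    have h4 := hyup I
    have h5 : (N : ℝ) / 2 ^ I ≤ 2 * (N / W) := by
      rw [mul_div_assoc', div_le_div_iff₀ (by positivity) (by linarith)]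
      nlinarith
    have h6 : (1 : ℝ) ≤ N / W := by
      rw [le_div_iff₀ (by linarith), one_mul]
      calc (W : ℝ) = W ^ 1 := by ring
        _ ≤ W ^ 5 := pow_le_pow_right₀ hWr (by norm_num)
        _ ≤ N := hW5
    linarith
  have hyI2 : (y I : ℝ) * ℓ ≤ 1 / 2 * (N / K) := by
    calc (y I : ℝ) * ℓ ≤ 3 * (N / W) * ℓ := mul_le_mul_of_nonneg_right hyI hℓ0.le
      _ ≤ 3 * (N / (K * ℓ ^ 8)) * ℓ := by gcongr
      _ = (3 / ℓ ^ 7) * (N / K) := by field_simp
      _ ≤ 1 / 2 * (N / K) := by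
          apply mul_le_mul_of_nonneg_right _ hNK0.le
          rw [div_le_div_iff₀ (by positivity) (by norm_num)]
          have : ℓ ^ 1 ≤ ℓ ^ 7 := pow_le_pow_right₀ (by linarith) (by norm_num)
          nlinarith
  have h4 : (I : ℝ) * G ≤ 1 / 2 * (N / K) := by
    calc (I : ℝ) * G ≤ (2 * ℓ) * (60000 * (N / K / ℓ ^ 2)) := by
          rw [hG]
          exact mul_le_mul_of_nonneg_right hIl (by positivity)
      _ = (120000 / ℓ) * (N / K) := by field_simp; ring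
      _ ≤ 1 / 2 * (N / K) := by
          apply mul_le_mul_of_nonneg_right _ hNK0.le
          rw [div_le_div_iff₀ hℓ0 (by norm_num)]
          linarith
  have h5 : ‖∑ n ∈ Icc 1 N, E n‖ ≤ N / K := by linarith
  rw [hE] at h5
  exact h5


end Pool.Agent.Y883.T4
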